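import Mathlib

/-! Basic definitions: a finite set drawn in the plane with distinct abscissae and ordinates. -/

namespace Pool.Agent.H175

open Classical

structure Plot (V : Type) where
  x : V → ℤ
  y : V → ℤ
  hx : Function.Injective x
  hy : Function.Injective y

namespace Plot

variable {V : Type} (P : Plot V)

def Pr (u v : V) : Prop := P.x u < P.x v ∧ P.y u < P.y v
def NW (u v : V) : Prop := P.x u < P.x v ∧ P.y v < P.y u
def Ad (u v : V) : Prop := P.NW u v ∨ P.NW v u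

/-- connectedness of the inversion graph induced on `X` -/
def Conn (X : Finset V) : Prop :=
  ∀ p : V → Prop, (∃ u ∈ X, p u) → (∃ v ∈ X, ¬ p v) → ∃ u ∈ X, ∃ v ∈ X, p u ∧ ¬ p v ∧ P.Ad u v

structure IsoF (X Y : Finset V) (f : V → V) : Prop where
  maps : ∀ u ∈ X, f u ∈ Y
  surj : ∀ w ∈ Y, ∃ u ∈ X, f u = w
  px : ∀ u ∈ X, ∀ v ∈ X, (P.x u < P.x v ↔ P.x (f u) < P.x (f v))
  py : ∀ u ∈ X, ∀ v ∈ X, (P.y u < P.y v ↔ P.y (f u) < P.y (f v))

def Iso (X Y : Finset V) : Prop := ∃ f, P.IsoF X Y f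

def Few (n : ℕ) : Prop :=
  ∀ F : ℕ → Finset V, (∀ i < n - 1, (F i).card = n ∧ P.Conn (F i)) →
    ∃ i j, i < j ∧ j < n - 1 ∧ P.Iso (F i) (F j)

def Clique (J : Finset V) : Prop := ∀ u ∈ J, ∀ v ∈ J, u ≠ v → P.Ad u v
def Chain (J : Finset V) : Prop := ∀ u ∈ J, ∀ v ∈ J, u ≠ v → (P.Pr u v ∨ P.Pr v u)
def Intv (J : Finset V) : Prop :=
  ∀ v, v ∉ J → ∀ j ∈ J, ∀ j' ∈ J, (P.x v < P.x j → P.x v < P.x j') ∧ (P.y v < P.y j → P.y v < P.y j')

variable {P}

theorem nex {u v : V} (h : u ≠ v) : P.x u ≠ P.x v := fun e => h (P.hx e)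
theorem ney {u v : V} (h : u ≠ v) : P.y u ≠ P.y v := fun e => h (P.hy e)

theorem Ad.symm {u v : V} (h : P.Ad u v) : P.Ad v u := Or.symm h
theorem Ad.ne {u v : V} (h : P.Ad u v) : u ≠ v := by
  rintro rfl; simp only [Ad, NW] at h; omega
theorem Pr.ne {u v : V} (h : P.Pr u v) : u ≠ v := by
  rintro rfl; simp only [Pr] at h; omega
theorem NW.ne {u v : V} (h : P.NW u v) : u ≠ v := by
  rintro rfl; simp only [NW] at h; omega
theorem NW.ad {u v : V} (h : P.NW u v) : P.Ad u v := Or.inl h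
theorem NW.ad' {u v : V} (h : P.NW u v) : P.Ad v u := Or.inr h

theorem tri {u v : V} (h : u ≠ v) : P.Pr u v ∨ P.Pr v u ∨ P.NW u v ∨ P.NW v u := by
  have h1 := nex (P := P) h
  have h2 := ney (P := P) h
  simp only [Pr, NW]; omega

theorem not_ad {u v : V} (h : u ≠ v) (h' : ¬ P.Ad u v) : P.Pr u v ∨ P.Pr v u := by
  have h1 := nex (P := P) h
  have h2 := ney (P := P) h
  simp only [Ad, Pr, NW] at *; omega

theorem Pr.nad {u v : V} (h : P.Pr u v) : ¬ P.Ad u v := by
  simp only [Ad, Pr, NW] at *; omega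

theorem Pr.nad' {u v : V} (h : P.Pr u v) : ¬ P.Ad v u := by
  simp only [Ad, Pr, NW] at *; omega

/-! ### Isomorphisms -/

theorem IsoF.inj {X Y : Finset V} {f : V → V} (h : P.IsoF X Y f) {u v : V} (hu : u ∈ X)
    (hv : v ∈ X) (e : f u = f v) : u = v := by
  by_contra hne
  have h1 := nex (P := P) hne
  have a := h.px u hu v hv
  have b := h.px v hv u hu
  rw [e] at a b
  omega

theorem IsoF.pr {X Y : Finset V} {f : V → V} (h : P.IsoF X Y f) {u v : V} (hu : u ∈ X)
    (hv : v ∈ X) : P.Pr u v ↔ P.Pr (f u) (f v) := by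
  simp only [Pr, h.px u hu v hv, h.py u hu v hv]

theorem IsoF.nw {X Y : Finset V} {f : V → V} (h : P.IsoF X Y f) {u v : V} (hu : u ∈ X)
    (hv : v ∈ X) : P.NW u v ↔ P.NW (f u) (f v) := by
  simp only [NW, h.px u hu v hv, h.py v hv u hu]

theorem IsoF.ad {X Y : Finset V} {f : V → V} (h : P.IsoF X Y f) {u v : V} (hu : u ∈ X)
    (hv : v ∈ X) : P.Ad u v ↔ P.Ad (f u) (f v) := by
  simp only [Ad, h.nw hu hv, h.nw hv hu]

/-- iso invariant predicates give equal counts -/
theorem IsoF.card {X Y : Finset V} {f : V → V} (h : P.IsoF X Y f) (q r : V → Prop)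
    [DecidablePred q] [DecidablePred r] (hqr : ∀ u ∈ X, q u ↔ r (f u)) : (X.filter q).card = (Y.filter r).card := by
  apply Finset.card_bij (fun u _ => f u)
  · intro u hu
    simp only [Finset.mem_filter] at hu ⊢
    exact ⟨h.maps u hu.1, (hqr u hu.1).1 hu.2⟩
  · intro u hu v hv e
    simp only [Finset.mem_filter] at hu hv
    exact h.inj hu.1 hv.1 e
  · intro w hw
    simp only [Finset.mem_filter] at hw
    obtain ⟨u, hu, rfl⟩ := h.surj w hw.1
    exact ⟨u, by simp only [Finset.mem_filter]; exact ⟨hu, (hqr u hu).2 hw.2⟩, rfl⟩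

theorem IsoF.ex {X Y : Finset V} {f : V → V} (h : P.IsoF X Y f) (q r : V → Prop)
    (hqr : ∀ u ∈ X, q u ↔ r (f u)) : (∃ u ∈ X, q u) ↔ (∃ u ∈ Y, r u) := by
  constructor
  · rintro ⟨u, hu, h1⟩
    exact ⟨f u, h.maps u hu, (hqr u hu).1 h1⟩
  · rintro ⟨w, hw, h1⟩
    obtain ⟨u, hu, rfl⟩ := h.surj w hw
    exact ⟨u, hu, (hqr u hu).2 h1⟩

theorem IsoF.all {X Y : Finset V} {f : V → V} (h : P.IsoF X Y f) (q r : V → Prop)
    (hqr : ∀ u ∈ X, q u ↔ r (f u)) : (∀ u ∈ X, q u) ↔ (∀ u ∈ Y, r u) := by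
  constructor
  · intro h1 w hw
    obtain ⟨u, hu, rfl⟩ := h.surj w hw
    exact (hqr u hu).1 (h1 u hu)
  · intro h1 u hu
    exact (hqr u hu).2 (h1 _ (h.maps u hu))

/-! ### Connectivity -/

theorem conn_singleton (u : V) : P.Conn {u} := by
  rintro p ⟨a, ha, h1⟩ ⟨b, hb, h2⟩
  simp only [Finset.mem_singleton] at ha hb
  subst ha; subst hb; exact absurd h1 h2

theorem conn_union {X Y : Finset V} (hX : P.Conn X) (hY : P.Conn Y) {u v : V} (hu : u ∈ X)
    (hv : v ∈ Y) (h : u = v ∨ P.Ad u v) : P.Conn (X ∪ Y) := by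
  rintro p ⟨a, ha, h1⟩ ⟨b, hb, h2⟩
  by_cases hXX : (∃ a ∈ X, p a) ∧ (∃ b ∈ X, ¬ p b)
  · obtain ⟨c, hc, d, hd, h3⟩ := hX p hXX.1 hXX.2
    exact ⟨c, Finset.mem_union_left _ hc, d, Finset.mem_union_left _ hd, h3⟩
  by_cases hYY : (∃ a ∈ Y, p a) ∧ (∃ b ∈ Y, ¬ p b)
  · obtain ⟨c, hc, d, hd, h3⟩ := hY p hYY.1 hYY.2
    exact ⟨c, Finset.mem_union_right _ hc, d, Finset.mem_union_right _ hd, h3⟩
  have eX : ∀ c ∈ X, (p c ↔ p u) := by
    intro c hc
    constructor
    · intro h5; by_contra h6; exact hXX ⟨⟨c, hc, h5⟩, ⟨u, hu, h6⟩⟩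
    · intro h5; by_contra h6; exact hXX ⟨⟨u, hu, h5⟩, ⟨c, hc, h6⟩⟩
  have eY : ∀ c ∈ Y, (p c ↔ p v) := by
    intro c hc
    constructor
    · intro h5; by_contra h6; exact hYY ⟨⟨c, hc, h5⟩, ⟨v, hv, h6⟩⟩
    · intro h5; by_contra h6; exact hYY ⟨⟨v, hv, h5⟩, ⟨c, hc, h6⟩⟩
  have key : (p u ∧ ¬ p v) ∨ (p v ∧ ¬ p u) := by
    rcases Finset.mem_union.1 ha with ha | ha <;> rcases Finset.mem_union.1 hb with hb | hb
    · exact absurd ((eX b hb).2 ((eX a ha).1 h1)) h2
    · left; exact ⟨(eX a ha).1 h1, fun h7 => h2 ((eY b hb).2 h7)⟩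
    · right; exact ⟨(eY a ha).1 h1, fun h7 => h2 ((eX b hb).2 h7)⟩
    · exact absurd ((eY b hb).2 ((eY a ha).1 h1)) h2
  rcases h with rfl | h
  · rcases key with ⟨k1, k2⟩ | ⟨k1, k2⟩ <;> exact absurd k1 k2
  · rcases key with ⟨k1, k2⟩ | ⟨k1, k2⟩
    · exact ⟨u, Finset.mem_union_left _ hu, v, Finset.mem_union_right _ hv, k1, k2, h⟩
    · exact ⟨v, Finset.mem_union_right _ hv, u, Finset.mem_union_left _ hu, k1, k2, h.symm⟩

theorem conn_insert {X : Finset V} (hX : P.Conn X) {u v : V} (hu : u ∈ X) (h : P.Ad u v) :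
    P.Conn (insert v X) := by
  have := conn_union hX (conn_singleton (P := P) v) hu (Finset.mem_singleton_self v) (Or.inr h)
  rwa [Finset.union_comm, ← Finset.insert_eq] at this

theorem conn_star {X : Finset V} {c : V} (hc : c ∈ X) (h : ∀ u ∈ X, u ≠ c → P.Ad c u) :
    P.Conn X := by
  rintro p ⟨a, ha, h1⟩ ⟨b, hb, h2⟩
  by_cases hpc : p c
  · have hbc : b ≠ c := by rintro rfl; exact h2 hpc
    exact ⟨c, hc, b, hb, hpc, h2, h b hb hbc⟩
  · have hac : a ≠ c := by rintro rfl; exact hpc h1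
    exact ⟨a, ha, c, hc, h1, hpc, (h a ha hac).symm⟩

theorem conn_bip {X Y : Finset V} (hX : X.Nonempty) (hY : Y.Nonempty)
    (h : ∀ u ∈ X, ∀ v ∈ Y, P.Ad u v) : P.Conn (X ∪ Y) := by
  obtain ⟨x0, hx0⟩ := hX
  obtain ⟨y0, hy0⟩ := hY
  have h1 : P.Conn (insert x0 Y) := by
    apply conn_star (Finset.mem_insert_self x0 Y)
    intro u hu hne
    rcases Finset.mem_insert.1 hu with rfl | hu
    · exact absurd rfl hne
    · exact h x0 hx0 u hu
  have h2 : P.Conn (insert y0 X) := by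
    apply conn_star (Finset.mem_insert_self y0 X)
    intro u hu hne
    rcases Finset.mem_insert.1 hu with rfl | hu
    · exact absurd rfl hne
    · exact (h u hu y0 hy0).symm
  have h3 := conn_union h1 h2 (u := x0) (v := x0) (Finset.mem_insert_self _ _)
    (Finset.mem_insert_of_mem hx0) (Or.inl rfl)
  convert h3 using 1
  ext w
  simp only [Finset.mem_union, Finset.mem_insert]
  constructor
  · rintro (h | h)
    · right; right; exact h
    · left; right; exact h
  · rintro ((h | h) | (h | h))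
    · left; rw [h]; exact hx0
    · right; exact h
    · right; rw [h]; exact hy0
    · left; exact h

theorem conn_grow {Y : Finset V} (hY : P.Conn Y) {z : V} (hz : z ∈ Y) (k : ℕ) (hk : 1 ≤ k)
    (hk' : k ≤ Y.card) : ∃ X, X ⊆ Y ∧ z ∈ X ∧ X.card = k ∧ P.Conn X := by
  induction k, hk using Nat.le_induction with
  | base => exact ⟨{z}, by simpa using hz, by simp, by simp, conn_singleton z⟩
  | succ k hk ih =>
    obtain ⟨X, h1, h2, h3, h4⟩ := ih (by omega)
    have h5 : ∃ v ∈ Y, v ∉ X := by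
      by_contra hcon
      push Not at hcon
      have : Y.card ≤ X.card := Finset.card_le_card hcon
      omega
    obtain ⟨u, hu, v, hv, h6, h7, h8⟩ := hY (fun v => v ∈ X) ⟨z, hz, h2⟩ h5
    refine ⟨insert v X, ?_, Finset.mem_insert_of_mem h2, ?_, conn_insert h4 h6 h8⟩
    · intro w hw
      rcases Finset.mem_insert.1 hw with rfl | hw
      · exact hv
      · exact h1 hw
    · rw [Finset.card_insert_of_notMem h7, h3]

/-- A chosen subset of given size. -/
noncomputable def sb (A : Finset V) (k : ℕ) : Finset V :=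
  if h : k ≤ A.card then (Finset.exists_subset_card_eq h).choose else ∅

theorem sb_sub (A : Finset V) (k : ℕ) : sb A k ⊆ A := by
  unfold sb
  split_ifs with h
  · exact (Finset.exists_subset_card_eq h).choose_spec.1
  · exact Finset.empty_subset _

theorem sb_card {A : Finset V} {k : ℕ} (h : k ≤ A.card) : (sb A k).card = k := by
  unfold sb
  rw [dif_pos h]
  exact (Finset.exists_subset_card_eq h).choose_spec.2

/-! ### Symmetries -/

def swap (P : Plot V) : Plot V := ⟨P.y, P.x, P.hy, P.hx⟩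
def dual (P : Plot V) : Plot V :=
  ⟨fun v => - P.x v, fun v => - P.y v, fun _ _ h => P.hx (neg_injective h),
    fun _ _ h => P.hy (neg_injective h)⟩
def anti (P : Plot V) : Plot V :=
  ⟨fun v => - P.y v, fun v => - P.x v, fun _ _ h => P.hy (neg_injective h),
    fun _ _ h => P.hx (neg_injective h)⟩

theorem swap_pr (u v : V) : P.swap.Pr u v ↔ P.Pr u v := by
  simp only [swap, Pr]; omega
theorem swap_nw (u v : V) : P.swap.NW u v ↔ P.NW v u := by
  simp only [swap, NW]; omega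
theorem dual_pr (u v : V) : P.dual.Pr u v ↔ P.Pr v u := by
  simp only [dual, Pr]; omega
theorem dual_nw (u v : V) : P.dual.NW u v ↔ P.NW v u := by
  simp only [dual, NW]; omega
theorem anti_pr (u v : V) : P.anti.Pr u v ↔ P.Pr v u := by
  simp only [anti, Pr]; omega
theorem anti_nw (u v : V) : P.anti.NW u v ↔ P.NW u v := by
  simp only [anti, NW]; omega
theorem swap_ad (u v : V) : P.swap.Ad u v ↔ P.Ad u v := by
  simp only [Ad, swap_nw]; tauto
theorem dual_ad (u v : V) : P.dual.Ad u v ↔ P.Ad u v := by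
  simp only [Ad, dual_nw]; tauto
theorem anti_ad (u v : V) : P.anti.Ad u v ↔ P.Ad u v := by
  simp only [Ad, anti_nw]

theorem swap_conn {X : Finset V} : P.swap.Conn X ↔ P.Conn X := by
  simp only [Conn, swap_ad]
theorem dual_conn {X : Finset V} : P.dual.Conn X ↔ P.Conn X := by
  simp only [Conn, dual_ad]
theorem anti_conn {X : Finset V} : P.anti.Conn X ↔ P.Conn X := by
  simp only [Conn, anti_ad]

theorem swap_iso {X Y : Finset V} : P.swap.Iso X Y ↔ P.Iso X Y :=
  ⟨fun ⟨f, h⟩ => ⟨f, h.maps, h.surj, h.py, h.px⟩, fun ⟨f, h⟩ => ⟨f, h.maps, h.surj, h.py, h.px⟩⟩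

theorem dual_iso {X Y : Finset V} : P.dual.Iso X Y ↔ P.Iso X Y := by
  constructor
  · rintro ⟨f, h⟩
    refine ⟨f, h.maps, h.surj, fun u hu v hv => ?_, fun u hu v hv => ?_⟩
    · have := h.px v hv u hu
      simpa only [dual, neg_lt_neg_iff] using this
    · have := h.py v hv u hu
      simpa only [dual, neg_lt_neg_iff] using this
  · rintro ⟨f, h⟩
    refine ⟨f, h.maps, h.surj, fun u hu v hv => ?_, fun u hu v hv => ?_⟩
    · have := h.px v hv u hu
      simpa only [dual, neg_lt_neg_iff] using this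
    · have := h.py v hv u hu
      simpa only [dual, neg_lt_neg_iff] using this

theorem anti_eq : P.anti = P.swap.dual := rfl

theorem anti_iso {X Y : Finset V} : P.anti.Iso X Y ↔ P.Iso X Y := by
  rw [anti_eq, dual_iso, swap_iso]

theorem swap_few {n : ℕ} : P.swap.Few n ↔ P.Few n := by
  simp only [Few, swap_conn, swap_iso]
theorem dual_few {n : ℕ} : P.dual.Few n ↔ P.Few n := by
  simp only [Few, dual_conn, dual_iso]
theorem anti_few {n : ℕ} : P.anti.Few n ↔ P.Few n := by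
  simp only [Few, anti_conn, anti_iso]

theorem swap_clique {J : Finset V} : P.swap.Clique J ↔ P.Clique J := by
  simp only [Clique, swap_ad]
theorem dual_clique {J : Finset V} : P.dual.Clique J ↔ P.Clique J := by
  simp only [Clique, dual_ad]
theorem anti_clique {J : Finset V} : P.anti.Clique J ↔ P.Clique J := by
  simp only [Clique, anti_ad]

theorem swap_chain {J : Finset V} : P.swap.Chain J ↔ P.Chain J := by
  simp only [Chain, swap_pr]
theorem dual_chain {J : Finset V} : P.dual.Chain J ↔ P.Chain J := by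
  simp only [Chain, dual_pr]
  constructor <;> intro h u hu v hv hne <;> exact (h u hu v hv hne).symm
theorem anti_chain {J : Finset V} : P.anti.Chain J ↔ P.Chain J := by
  rw [anti_eq, dual_chain, swap_chain]

theorem swap_intv {J : Finset V} : P.swap.Intv J ↔ P.Intv J := by
  simp only [Intv, swap]
  constructor <;> intro h v hv j hj j' hj' <;> exact (h v hv j hj j' hj').symm

theorem dual_intv {J : Finset V} : P.dual.Intv J ↔ P.Intv J := by
  have aux : ∀ Q : Plot V, Q.Intv J → Q.dual.Intv J := by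
    intro Q h v hv j hj j' hj'
    have h1 := h v hv j' hj' j hj
    have e1 : v ≠ j := by rintro rfl; exact hv hj
    have e2 : v ≠ j' := by rintro rfl; exact hv hj'
    have a1 := nex (P := Q) e1
    have a2 := nex (P := Q) e2
    have a3 := ney (P := Q) e1
    have a4 := ney (P := Q) e2
    simp only [dual]
    constructor <;> intro h2 <;> omega
  constructor
  · intro h
    have := aux _ h
    simpa only [dual, neg_neg] using this
  · exact aux P

theorem anti_intv {J : Finset V} : P.anti.Intv J ↔ P.Intv J := by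
  rw [anti_eq, dual_intv, swap_intv]

end Plot

end Pool.Agent.H175
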