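import Pool.Agent.H175.Path

/-! Bounded degree: the plot is a long oscillation up to bounded parts at both ends. -/

namespace Pool.Agent.H175

open Classical

namespace Plot

variable {V : Type} {P : Plot V}

theorem card_sdiff_ge' (A B : Finset V) : A.card ≤ (A \ B).card + B.card := by
  have := Finset.card_le_card (show A ⊆ (A \ B) ∪ B by
    intro u hu
    simp only [Finset.mem_union, Finset.mem_sdiff]
    tauto)
  have h2 := Finset.card_union_le (A \ B) B
  omega

def gr (P : Plot V) : SimpleGraph V where
  Adj := P.Ad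
  symm := ⟨fun _ _ h => Or.symm h⟩
  loopless := ⟨fun _ h => h.ne rfl⟩

theorem gr_adj {u v : V} : P.gr.Adj u v ↔ P.Ad u v := Iff.rfl

variable [Fintype V]

theorem gr_conn [Nonempty V] (h : P.Conn Finset.univ) : P.gr.Connected := by
  refine { preconnected := ?_, nonempty := inferInstance }
  intro u v
  by_contra hcon
  obtain ⟨a, -, b, -, h1, h2, h3⟩ := h (fun w => P.gr.Reachable u w)
    ⟨u, Finset.mem_univ _, SimpleGraph.Reachable.refl u⟩ ⟨v, Finset.mem_univ _, hcon⟩
  exact h2 (h1.trans (SimpleGraph.Adj.reachable (gr_adj.2 h3)))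

noncomputable def nb (P : Plot V) (u : V) : Finset V := Finset.univ.filter (fun v => P.Ad u v)

noncomputable def bl (P : Plot V) : ℕ → V → Finset V
  | 0, r => {r}
  | (k + 1), r => (insert r (P.nb r)).biUnion (bl P k)

theorem bl_card {D : ℕ} (hD : ∀ u, (P.nb u).card ≤ D) (k : ℕ) : ∀ r, (P.bl k r).card ≤ (D + 1) ^ k := by
  induction k with
  | zero => intro r; simp [bl]
  | succ k ih =>
    intro r
    have h1 := Finset.card_biUnion_le_card_mul (insert r (P.nb r)) (P.bl k) ((D + 1) ^ k)
      (fun u _ => ih u)
    have h2 := Finset.card_insert_le r (P.nb r)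
    have h3 := hD r
    calc (P.bl (k + 1) r).card = ((insert r (P.nb r)).biUnion (P.bl k)).card := rfl
      _ ≤ _ := h1
      _ ≤ (D + 1) * (D + 1) ^ k := Nat.mul_le_mul_right _ (by omega)
      _ = (D + 1) ^ (k + 1) := by rw [pow_succ, Nat.mul_comm]

theorem bl_walk {u v : V} (w : P.gr.Walk u v) : v ∈ P.bl w.length u := by
  induction w with
  | nil => simp [bl]
  | cons h p ih =>
    simp only [SimpleGraph.Walk.length_cons, bl, Finset.mem_biUnion, Finset.mem_insert]
    exact ⟨_, Or.inr (by simp only [nb, Finset.mem_filter, Finset.mem_univ, true_and]; exact h), ih⟩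

theorem bl_mono (k : ℕ) (r : V) : P.bl k r ⊆ P.bl (k + 1) r := by
  intro u hu
  simp only [bl, Finset.mem_biUnion, Finset.mem_insert]
  exact ⟨r, Or.inl rfl, hu⟩

theorem bl_mono' {k l : ℕ} (h : k ≤ l) (r : V) : P.bl k r ⊆ P.bl l r := by
  induction l, h using Nat.le_induction with
  | base => exact subset_rfl
  | succ l _ ih => exact ih.trans (bl_mono l r)

theorem mem_bl (hc : P.gr.Connected) {k : ℕ} {u v : V} (h : P.gr.dist u v ≤ k) : v ∈ P.bl k u := by
  obtain ⟨w, hw⟩ := hc.exists_walk_length_eq_dist u v
  exact bl_mono' h u (hw ▸ bl_walk w)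

theorem dist_ad (hc : P.gr.Connected) {u v w : V} (h : P.Ad u v) :
    P.gr.dist u w ≤ P.gr.dist v w + 1 := by
  have h1 := hc.dist_triangle (u := u) (v := v) (w := w)
  have h2 : P.gr.dist u v = 1 := SimpleGraph.dist_eq_one_iff_adj.2 h
  omega

/-- a geodesic -/
structure Geo (P : Plot V) (p : ℕ → V) (D : ℕ) : Prop where
  con : P.gr.Connected
  ad : ∀ i < D, P.Ad (p i) (p (i + 1))
  dist : P.gr.dist (p 0) (p D) = D
  diam : ∀ u v, P.gr.dist u v ≤ D

theorem Geo.le {p : ℕ → V} {D : ℕ} (h : Geo P p D) (i k : ℕ) (hk : i + k ≤ D) :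
    P.gr.dist (p i) (p (i + k)) ≤ k := by
  induction k with
  | zero => simp
  | succ k ih =>
    have h1 := ih (by omega)
    have h2 := h.con.dist_triangle (u := p i) (v := p (i + k)) (w := p (i + (k + 1)))
    have h3 : P.gr.dist (p (i + k)) (p (i + (k + 1))) = 1 :=
      SimpleGraph.dist_eq_one_iff_adj.2 (h.ad (i + k) (by omega))
    omega

theorem Geo.eq {p : ℕ → V} {D : ℕ} (h : Geo P p D) {i j : ℕ} (hij : i ≤ j) (hj : j ≤ D) :
    P.gr.dist (p i) (p j) = j - i := by
  have h1 := h.le 0 i (by omega)
  have h2 := h.le i (j - i) (by omega)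
  have h3 := h.le j (D - j) (by omega)
  rw [Nat.zero_add] at h1
  rw [show i + (j - i) = j by omega] at h2
  rw [show j + (D - j) = D by omega] at h3
  have h4 := h.con.dist_triangle (u := p 0) (v := p i) (w := p D)
  have h5 := h.con.dist_triangle (u := p i) (v := p j) (w := p D)
  have h6 := h.dist
  omega

theorem Geo.nad {p : ℕ → V} {D : ℕ} (h : Geo P p D) {i j : ℕ} (hij : i + 2 ≤ j) (hj : j ≤ D) :
    p i ≠ p j ∧ ¬ P.Ad (p i) (p j) := by
  have h1 := h.eq (i := i) (j := j) (by omega) hj
  constructor
  · intro e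
    rw [e, SimpleGraph.dist_self] at h1
    omega
  · intro e
    have : P.gr.dist (p i) (p j) = 1 := SimpleGraph.dist_eq_one_iff_adj.2 e
    omega

theorem Geo.near {p : ℕ → V} {D : ℕ} (h : Geo P p D) {i j : ℕ} {v : V} (hi : i ≤ D) (hj : j ≤ D)
    (h1 : P.Ad v (p i)) (h2 : P.Ad v (p j)) : j ≤ i + 2 := by
  by_contra hcon
  have h3 := h.eq (i := i) (j := j) (by omega) hj
  have h4 := dist_ad h.con (w := p j) h1.symm
  have h5 : P.gr.dist v (p j) = 1 := SimpleGraph.dist_eq_one_iff_adj.2 h2
  omega

theorem Geo.far {p : ℕ → V} {D : ℕ} (h : Geo P p D) {i j : ℕ} (hij : i + 2 ≤ j) (hj : j ≤ D)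
    (hpr : P.Pr (p i) (p j)) : P.Pr (p 0) (p D) := by
  have cmp : ∀ i j, i + 2 ≤ j → j ≤ D → P.Pr (p i) (p j) ∨ P.Pr (p j) (p i) := by
    intro i j h1 h2
    exact not_ad (h.nad h1 h2).1 (h.nad h1 h2).2
  have h1 : ∀ k, j + k ≤ D → P.Pr (p i) (p (j + k)) := by
    intro k
    induction k with
    | zero => intro _; exact hpr
    | succ k ih =>
      intro hk
      have h2 := ih (by omega)
      rcases cmp i (j + (k + 1)) (by omega) (by omega) with h3 | h3
      · exact h3
      · have h4 := h.ad (j + k) (by omega)
        rw [show j + k + 1 = j + (k + 1) by omega] at h4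
        simp only [Pr, Ad, NW] at *; omega
  have h2 := h1 (D - j) (by omega)
  rw [show j + (D - j) = D by omega] at h2
  have h3 : ∀ k, k ≤ i → P.Pr (p (i - k)) (p D) := by
    intro k
    induction k with
    | zero => intro _; exact h2
    | succ k ih =>
      intro hk
      have h2 := ih (by omega)
      rcases cmp (i - (k + 1)) D (by omega) (by omega) with h3 | h3
      · exact h3
      · have h4 := h.ad (i - (k + 1)) (by omega)
        rw [show i - (k + 1) + 1 = i - k by omega] at h4
        simp only [Pr, Ad, NW] at *; omega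
  have h4 := h3 i le_rfl
  rwa [Nat.sub_self] at h4

theorem dual_gr : P.dual.gr = P.gr := by
  ext u v
  exact dual_ad u v

theorem Geo.dual {p : ℕ → V} {D : ℕ} (h : Geo P p D) : Geo P.dual p D := by
  refine ⟨?_, ?_, ?_, ?_⟩
  · rw [dual_gr]; exact h.con
  · intro i hi; exact (dual_ad _ _).2 (h.ad i hi)
  · rw [dual_gr]; exact h.dist
  · rw [dual_gr]; exact h.diam

theorem Geo.orient {p : ℕ → V} {D : ℕ} (h : Geo P p D) : IPath P p D ∨ IPath P.dual p D := by
  by_cases h0 : P.Pr (p 0) (p D)
  · left
    refine ⟨h.ad, ?_⟩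
    intro i j hij hj
    rcases not_ad (h.nad hij hj).1 (h.nad hij hj).2 with h1 | h1
    · exact h1
    · have h2 := h.dual.far hij hj ((dual_pr _ _).2 h1)
      rw [dual_pr] at h2
      simp only [Pr] at *; omega
  · right
    refine ⟨h.dual.ad, ?_⟩
    intro i j hij hj
    rw [dual_pr]
    rcases not_ad (h.nad hij hj).1 (h.nad hij hj).2 with h1 | h1
    · exact absurd (h.far hij hj h1) h0
    · exact h1

/-- the oscillation structure -/
structure OscM (P : Plot V) (c : ℕ) (M : Finset V) : Prop where
  dis : ∀ u ∈ M, ((Finset.univ.filter (fun v => P.NW u v)).card = 2 ∧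
      (Finset.univ.filter (fun v => P.NW v u)).card = 0) ∨
    ((Finset.univ.filter (fun v => P.NW u v)).card = 0 ∧
      (Finset.univ.filter (fun v => P.NW v u)).card = 2)
  xx : ∀ v, v ∉ M → (Finset.univ.filter (fun u => P.x u < P.x v)).card < c ∨
    (Finset.univ.filter (fun u => P.x v < P.x u)).card < c
  yy : ∀ v, v ∉ M → (Finset.univ.filter (fun u => P.y u < P.y v)).card < c ∨
    (Finset.univ.filter (fun u => P.y v < P.y u)).card < c

theorem OscM.dual {c : ℕ} {M : Finset V} (h : OscM P c M) : OscM P.dual c M := by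
  refine ⟨?_, ?_, ?_⟩
  · intro u hu
    simp only [dual_nw]
    exact (h.dis u hu).symm.imp (fun h => ⟨h.2, h.1⟩) (fun h => ⟨h.2, h.1⟩)
  · intro v hv
    simp only [Plot.dual, neg_lt_neg_iff]
    exact (h.xx v hv).symm
  · intro v hv
    simp only [Plot.dual, neg_lt_neg_iff]
    exact (h.yy v hv).symm

theorem dual_dual : P.dual.dual = P := by
  simp only [Plot.dual, neg_neg]

/-- outside vertices do not touch the middle of the path -/
theorem Geo.non {p : ℕ → V} {D : ℕ} (h : Geo P p D) (hp : IPath P p D) {n : ℕ} (hn : 4 ≤ n)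
    (hF : P.Few n) {v : V} (hv : ∀ i ≤ D, v ≠ p i) {i : ℕ} (hi1 : n + 1 ≤ i) (hi2 : i + n + 1 ≤ D) :
    ¬ P.Ad v (p i) := by
  intro had
  have hex : ∃ t, t ≤ D ∧ P.Ad v (p t) := ⟨i, by omega, had⟩
  obtain ⟨h1, h2⟩ := Nat.find_spec hex
  have h3 : ∀ t' < Nat.find hex, ¬ P.Ad v (p t') := by
    intro t' ht' h4
    exact Nat.find_min hex ht' ⟨by omega, h4⟩
  have h4 : Nat.find hex ≤ i := Nat.find_min' hex ⟨by omega, had⟩
  have h5 := h.near h1 (by omega) h2 had
  exact fam_path hn hF hp hv (t := Nat.find hex) (by omega) (by omega) (by omega) (by omega) h2 h3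

theorem Geo.osc {p : ℕ → V} {D : ℕ} (h : Geo P p D) (hp : IPath P p D) {n Δ : ℕ} (hn : 4 ≤ n)
    (hF : P.Few n) (hΔ : ∀ u, (P.nb u).card ≤ Δ) (hD : 2 * n + 12 ≤ D) :
    ∃ M, OscM P (2 * (Δ + 1) ^ (n + 2) + 2 * n + 5) M := by
  have hc := h.con
  have non : ∀ v, (∀ i ≤ D, v ≠ p i) → ∀ i, n + 1 ≤ i → i + n + 1 ≤ D → ¬ P.Ad v (p i) :=
    fun v hv i h1 h2 => h.non hp hn hF hv h1 h2
  -- neighbours of middle vertices
  have nbm : ∀ v i, n + 1 ≤ i → i + n + 1 ≤ D → P.Ad v (p i) → v = p (i - 1) ∨ v = p (i + 1) := by
    intro v i h1 h2 h3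
    by_contra hcon
    push Not at hcon
    by_cases h4 : ∀ j ≤ D, v ≠ p j
    · exact non v h4 i h1 h2 h3
    · push Not at h4
      obtain ⟨j, hj, rfl⟩ := h4
      rcases hp.adj hj (by omega) h3 with h5 | h5
      · apply hcon.1; congr 1; omega
      · apply hcon.2; congr 1
  -- an outside vertex is on one side of the whole middle part
  have out : ∀ v, (∀ i ≤ D, v ≠ p i) → (∀ i, n + 1 ≤ i → i + n + 1 ≤ D → P.Pr v (p i)) ∨
      (∀ i, n + 1 ≤ i → i + n + 1 ≤ D → P.Pr (p i) v) := by
    intro v hv
    have cmp : ∀ i, n + 1 ≤ i → i + n + 1 ≤ D → P.Pr v (p i) ∨ P.Pr (p i) v :=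
      fun i h1 h2 => not_ad (hv i (by omega)) (non v hv i h1 h2)
    rcases cmp (n + 1) le_rfl (by omega) with h0 | h0
    · left
      intro i hi
      induction i, hi using Nat.le_induction with
      | base => intro _; exact h0
      | succ i hi ih =>
        intro h2
        have h3 := ih (by omega)
        rcases cmp (i + 1) (by omega) h2 with h4 | h4
        · exact h4
        · have h5 := h.ad i (by omega)
          simp only [Pr, Ad, NW] at *; omega
    · right
      intro i hi
      induction i, hi using Nat.le_induction with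
      | base => intro _; exact h0
      | succ i hi ih =>
        intro h2
        have h3 := ih (by omega)
        rcases cmp (i + 1) (by omega) h2 with h4 | h4
        · have h5 := h.ad i (by omega)
          simp only [Pr, Ad, NW] at *; omega
        · exact h4
  -- distance bounds
  have key : ∀ t, n + 2 ≤ t → t + n + 2 ≤ D →
      (∀ u, P.Pr u (p t) → P.gr.dist u (p t) ≤ t) ∧ (∀ u, P.Pr (p t) u → P.gr.dist u (p t) ≤ D - t) := by
    intro t ht1 ht2
    set Lf : V → Prop := fun u => P.Pr u (p t) ∨ u = p (t - 1) with hLf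
    have htm : P.Ad (p (t - 1)) (p t) := by
      have := h.ad (t - 1) (by omega)
      rwa [show t - 1 + 1 = t by omega] at this
    have htp : P.Ad (p t) (p (t + 1)) := h.ad t (by omega)
    have hpm : P.Pr (p (t - 1)) (p (t + 1)) := hp.pr _ _ (by omega) (by omega)
    have hR : ∀ u, ¬ Lf u → u = p t ∨ P.Pr (p t) u ∨ u = p (t + 1) := by
      intro u hu
      by_contra hcon
      push Not at hcon
      obtain ⟨h1, h2, h3⟩ := hcon
      simp only [hLf, not_or] at hu
      by_cases h4 : P.Ad u (p t)
      · rcases nbm u t (by omega) (by omega) h4 with h5 | h5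
        · exact hu.2 h5
        · exact h3 h5
      · rcases not_ad h1 h4 with h5 | h5
        · exact hu.1 h5
        · exact h2 h5
    have hcross : ∀ u w, Lf u → ¬ Lf w → P.Ad u w → w = p t := by
      intro u w hu hw huw
      rcases hR w hw with h1 | h1 | h1
      · exact h1
      · exfalso
        rcases hu with h2 | h2
        · simp only [Pr, Ad, NW] at *; omega
        · rw [h2] at huw
          rcases nbm w (t - 1) (by omega) (by omega) huw.symm with h3 | h3
          · rw [h3] at h1
            have := hp.pr (t - 1 - 1) t (by omega) (by omega)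
            simp only [Pr] at *; omega
          · rw [h3, show t - 1 + 1 = t by omega] at h1
            exact h1.ne rfl
      · exfalso
        rw [h1] at huw
        rcases nbm u (t + 1) (by omega) (by omega) huw with h3 | h3
        · rw [show t + 1 - 1 = t by omega] at h3
          rcases hu with h2 | h2
          · rw [h3] at h2; exact h2.ne rfl
          · rw [h3] at h2
            exact htm.ne h2.symm
        · rcases hu with h2 | h2
          · rw [h3] at h2
            have := hp.pr t (t + 1 + 1) (by omega) (by omega)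
            simp only [Pr] at *; omega
          · rw [h3] at h2
            have := hp.inj (i := t + 1 + 1) (j := t - 1) (by omega) (by omega) h2
            omega
    set φ : V → ℤ := fun u => if Lf u then (P.gr.dist u (p t) : ℤ) else - (P.gr.dist u (p t) : ℤ)
      with hφ
    have hstep : ∀ u w, P.Ad u w → φ u - φ w ≤ 1 := by
      intro u w huw
      have d1 := dist_ad hc (w := p t) huw
      have d2 := dist_ad hc (w := p t) huw.symm
      simp only [hφ]
      by_cases hu : Lf u <;> by_cases hw : Lf w
      · rw [if_pos hu, if_pos hw]; omega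
      · rw [if_pos hu, if_neg hw]
        have h1 := hcross u w hu hw huw
        have h2 : P.gr.dist w (p t) = 0 := by rw [h1]; simp
        omega
      · rw [if_neg hu, if_pos hw]; omega
      · rw [if_neg hu, if_neg hw]; omega
    have hwalk : ∀ u w (q : P.gr.Walk u w), φ u - φ w ≤ q.length := by
      intro u w q
      induction q with
      | nil => simp
      | cons hq q ih =>
        have := hstep _ _ hq
        simp only [SimpleGraph.Walk.length_cons]
        push_cast
        omega
    have hdist : ∀ u w, φ u - φ w ≤ P.gr.dist u w := by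
      intro u w
      obtain ⟨q, hq⟩ := hc.exists_walk_length_eq_dist u w
      have := hwalk u w q
      rwa [hq] at this
    have hL0 : Lf (p 0) := Or.inl (hp.pr 0 t (by omega) (by omega))
    have hRD : ¬ Lf (p D) := by
      rintro (h1 | h1)
      · have := hp.pr t D (by omega) (by omega)
        simp only [Pr] at *; omega
      · have := hp.inj (i := D) (j := t - 1) (by omega) (by omega) h1
        omega
    have e0 := h.eq (i := 0) (j := t) (by omega) (by omega)
    have eD := h.eq (i := t) (j := D) (by omega) (by omega)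
    rw [SimpleGraph.dist_comm] at eD
    constructor
    · intro u hu
      have h1 := hdist u (p D)
      have h2 := h.diam u (p D)
      simp only [hφ] at h1
      rw [if_pos (Or.inl hu), if_neg hRD] at h1
      omega
    · intro u hu
      have h1 := hdist (p 0) u
      have h2 := h.diam (p 0) u
      have h3 : ¬ Lf u := by
        rintro (h4 | h4)
        · simp only [Pr] at *; omega
        · rw [h4] at hu
          exact hu.nad' htm
      simp only [hφ] at h1
      rw [if_pos hL0, if_neg h3] at h1
      omega
  -- outside vertices are few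
  set PP : Finset V := (Finset.range (D + 1)).image p with hPP
  have hPPm : ∀ v, v ∉ PP → ∀ i ≤ D, v ≠ p i := by
    intro v hv i hi e
    apply hv
    rw [hPP, Finset.mem_image]
    exact ⟨i, by simpa using by omega, e.symm⟩
  have hPPc : PP.card ≤ D + 1 := by
    have := Finset.card_image_le (s := Finset.range (D + 1)) (f := p)
    simpa using this
  have hout : Finset.univ \ PP ⊆ P.bl (n + 2) (p (n + 2)) ∪ P.bl (n + 2) (p (D - (n + 2))) := by
    intro v hv
    have hv' : v ∉ PP := by simpa using hv
    have hv2 := hPPm v hv'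
    rw [Finset.mem_union]
    rcases out v hv2 with h1 | h1
    · left
      apply mem_bl hc
      have := (key (n + 2) le_rfl (by omega)).1 v (h1 (n + 2) (by omega) (by omega))
      rwa [SimpleGraph.dist_comm] at this
    · right
      apply mem_bl hc
      have := (key (D - (n + 2)) (by omega) (by omega)).2 v (h1 (D - (n + 2)) (by omega) (by omega))
      rw [SimpleGraph.dist_comm] at this
      omega
  have hVc : Fintype.card V ≤ D + 1 + 2 * (Δ + 1) ^ (n + 2) := by
    have h1 := Finset.card_le_card hout
    have h2 := Finset.card_union_le (P.bl (n + 2) (p (n + 2))) (P.bl (n + 2) (p (D - (n + 2))))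
    have h3 := bl_card hΔ (n + 2) (p (n + 2))
    have h4 := bl_card hΔ (n + 2) (p (D - (n + 2)))
    have h5 := card_sdiff_ge' (Finset.univ : Finset V) PP
    rw [Finset.card_univ] at h5
    omega
  -- the window used for positions
  set W : Finset V := win p (n + 2) (D - 2 * n - 3) with hW
  have hWc : W.card = D - 2 * n - 3 := hp.win_card (by omega)
  set M : Finset V := win p (n + 1) (D - 2 * n - 1) with hM
  have hside : ∀ v, v ∉ M → (∀ w ∈ W, P.Pr v w) ∨ (∀ w ∈ W, P.Pr w v) := by
    intro v hv
    by_cases h1 : ∀ i ≤ D, v ≠ p i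
    · rcases out v h1 with h2 | h2
      · left; intro w hw
        obtain ⟨i, h3, h4, rfl⟩ := mem_win.1 hw
        exact h2 i (by omega) (by omega)
      · right; intro w hw
        obtain ⟨i, h3, h4, rfl⟩ := mem_win.1 hw
        exact h2 i (by omega) (by omega)
    · push Not at h1
      obtain ⟨j, hj, rfl⟩ := h1
      by_cases h2 : j < n + 1
      · left; intro w hw
        obtain ⟨i, h3, h4, rfl⟩ := mem_win.1 hw
        exact hp.pr j i (by omega) (by omega)
      · right; intro w hw
        obtain ⟨i, h3, h4, rfl⟩ := mem_win.1 hw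
        have h5 : ¬ (j < n + 1 + (D - 2 * n - 1)) := by
          intro h6
          exact hv (mem_win.2 ⟨j, by omega, h6, rfl⟩)
        exact hp.pr i j (by omega) (by omega)
  have hcard : ∀ q : V → Prop, (∀ w ∈ W, ¬ q w) →
      (Finset.univ.filter q).card < 2 * (Δ + 1) ^ (n + 2) + 2 * n + 5 := by
    intro q hq
    have h1 : Disjoint (Finset.univ.filter q) W := by
      rw [Finset.disjoint_left]
      intro u hu hu'
      simp only [Finset.mem_filter] at hu
      exact hq u hu' hu.2
    have h2 := Finset.card_le_card (Finset.subset_univ (Finset.univ.filter q ∪ W))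
    rw [Finset.card_union_of_disjoint h1, Finset.card_univ, hWc] at h2
    omega
  refine ⟨M, ?_, ?_, ?_⟩
  · intro u hu
    obtain ⟨i, h1, h2, rfl⟩ := mem_win.1 hu
    have e0 : P.Ad (p (i - 1)) (p i) := by
      have := h.ad (i - 1) (by omega)
      rwa [show i - 1 + 1 = i by omega] at this
    have e1 : P.Ad (p i) (p (i + 1)) := h.ad i (by omega)
    have e2 := hp.pr (i - 1) (i + 1) (by omega) (by omega)
    have hne : p (i - 1) ≠ p (i + 1) := e2.ne
    have hn2 : ({p (i - 1), p (i + 1)} : Finset V).card = 2 := Finset.card_pair hne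
    have hcases : (P.NW (p i) (p (i - 1)) ∧ P.NW (p i) (p (i + 1))) ∨
        (P.NW (p (i - 1)) (p i) ∧ P.NW (p (i + 1)) (p i)) := by
      simp only [Pr, Ad, NW] at *; omega
    have hnb' : ∀ w, P.Ad w (p i) → w = p (i - 1) ∨ w = p (i + 1) :=
      fun w hw => nbm w i (by omega) (by omega) hw
    rcases hcases with ⟨c1, c2⟩ | ⟨c1, c2⟩
    · left
      constructor
      · rw [← hn2]
        congr 1
        ext w
        simp only [Finset.mem_filter, Finset.mem_univ, true_and, Finset.mem_insert,
          Finset.mem_singleton]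
        constructor
        · intro hw; exact hnb' w hw.ad'
        · rintro (rfl | rfl)
          · exact c1
          · exact c2
      · rw [Finset.card_eq_zero, Finset.filter_eq_empty_iff]
        intro w _ hw
        rcases hnb' w hw.ad with h3 | h3
        · rw [h3] at hw; simp only [NW] at *; omega
        · rw [h3] at hw; simp only [NW] at *; omega
    · right
      constructor
      · rw [Finset.card_eq_zero, Finset.filter_eq_empty_iff]
        intro w _ hw
        rcases hnb' w hw.ad' with h3 | h3
        · rw [h3] at hw; simp only [NW] at *; omega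
        · rw [h3] at hw; simp only [NW] at *; omega
      · rw [← hn2]
        congr 1
        ext w
        simp only [Finset.mem_filter, Finset.mem_univ, true_and, Finset.mem_insert,
          Finset.mem_singleton]
        constructor
        · intro hw; exact hnb' w hw.ad
        · rintro (rfl | rfl)
          · exact c1
          · exact c2
  · intro v hv
    rcases hside v hv with h1 | h1
    · left
      convert hcard (fun u => P.x u < P.x v) (fun w hw => by have := (h1 w hw).1; omega)
    · right
      convert hcard (fun u => P.x v < P.x u) (fun w hw => by have := (h1 w hw).1; omega)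
  · intro v hv
    rcases hside v hv with h1 | h1
    · left
      convert hcard (fun u => P.y u < P.y v) (fun w hw => by have := (h1 w hw).2; omega)
    · right
      convert hcard (fun u => P.y v < P.y u) (fun w hw => by have := (h1 w hw).2; omega)

theorem osc_main {n Δ : ℕ} (hn : 4 ≤ n) (hF : P.Few n) (hcon : P.Conn Finset.univ)
    (hΔ : ∀ u, (P.nb u).card ≤ Δ) :
    ∃ M, OscM P (2 * (Δ + 1) ^ (n + 2) + 2 * n + 5 + (Δ + 1) ^ (2 * n + 12)) M := by
  by_cases hV : Nonempty V
  swap
  · refine ⟨∅, ?_, ?_, ?_⟩
    · intro u; exact absurd ⟨u⟩ hV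
    · intro u; exact absurd ⟨u⟩ hV
    · intro u; exact absurd ⟨u⟩ hV
  have hc := gr_conn hcon
  obtain ⟨⟨r, s⟩, -, hmax⟩ := Finset.exists_max_image (Finset.univ : Finset (V × V))
    (fun q => P.gr.dist q.1 q.2) ⟨(Classical.choice hV, Classical.choice hV), Finset.mem_univ _⟩
  simp only [Finset.mem_univ, forall_const] at hmax
  obtain ⟨w, hw⟩ := hc.exists_walk_length_eq_dist r s
  set D := P.gr.dist r s with hDd
  by_cases hD : 2 * n + 12 ≤ D
  · have hg : Geo P w.getVert D := by
      refine ⟨hc, ?_, ?_, ?_⟩
      · intro i hi; exact w.adj_getVert_succ (by omega)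
      · rw [SimpleGraph.Walk.getVert_zero, ← hw, SimpleGraph.Walk.getVert_length, hw]
      · intro u v; exact hmax (u, v)
    have hle : ∀ {Q : Plot V} {M : Finset V}, OscM Q (2 * (Δ + 1) ^ (n + 2) + 2 * n + 5) M →
        OscM Q (2 * (Δ + 1) ^ (n + 2) + 2 * n + 5 + (Δ + 1) ^ (2 * n + 12)) M := by
      intro Q M h
      refine ⟨h.dis, ?_, ?_⟩
      · intro v hv; exact (h.xx v hv).imp (fun h => by omega) (fun h => by omega)
      · intro v hv; exact (h.yy v hv).imp (fun h => by omega) (fun h => by omega)
    rcases hg.orient with hp | hp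
    · obtain ⟨M, hM⟩ := hg.osc hp hn hF hΔ hD
      exact ⟨M, hle hM⟩
    · obtain ⟨M, hM⟩ := hg.dual.osc hp hn (dual_few.2 hF) (Δ := Δ) (by
        intro u
        have := hΔ u
        simp only [nb, dual_ad] at *
        exact this) hD
      have := hle hM.dual
      rw [dual_dual] at this
      exact ⟨M, this⟩
  · have hV' : Fintype.card V ≤ (Δ + 1) ^ (2 * n + 12) := by
      have h1 : (Finset.univ : Finset V) ⊆ P.bl (2 * n + 12) r := by
        intro v _
        apply mem_bl hc
        have := hmax (r, v)
        simp only at this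
        omega
      have h2 := Finset.card_le_card h1
      have h3 := bl_card hΔ (2 * n + 12) r
      rw [Finset.card_univ] at h2
      omega
    refine ⟨∅, ?_, ?_, ?_⟩
    · intro u hu; exact absurd hu (Finset.notMem_empty _)
    · intro v _
      left
      have := Finset.card_le_univ (Finset.univ.filter (fun u => P.x u < P.x v))
      omega
    · intro v _
      left
      have := Finset.card_le_univ (Finset.univ.filter (fun u => P.y u < P.y v))
      omega

end Plot

end Pool.Agent.H175
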