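import Pool.Agent.H175.Types
import Pool.Agent.H175.Osc

/-! Coding of permutations by bounded data. -/

namespace Pool.Agent.H175

open Classical

open Plot

/-- the plot of a permutation -/
def plt {m : ℕ} (τ : Equiv.Perm (Fin m)) : Plot (Fin m) where
  x := fun i => (i : ℕ)
  y := fun i => ((τ i : Fin m) : ℕ)
  hx := fun i j h => Fin.ext (by simpa using h)
  hy := fun i j h => τ.injective (Fin.ext (by simpa using h))

theorem cnt_lt (m k : ℕ) (hk : k ≤ m) : (Finset.univ.filter (fun u : Fin m => (u : ℕ) < k)).card = k := by
  have : (Finset.univ.filter (fun u : Fin m => (u : ℕ) < k)).map Fin.valEmbedding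
      = Finset.range k := by
    ext u
    simp only [Finset.mem_map, Finset.mem_filter, Finset.mem_univ, true_and, Finset.mem_range,
      Fin.valEmbedding_apply]
    constructor
    · rintro ⟨a, h1, rfl⟩; exact h1
    · intro h; exact ⟨⟨u, by omega⟩, h, rfl⟩
  rw [← Finset.card_map Fin.valEmbedding, this, Finset.card_range]

variable {m : ℕ} {τ : Equiv.Perm (Fin m)}

theorem lx (v : Fin m) : (Finset.univ.filter (fun u => (plt τ).x u < (plt τ).x v)).card = v := by
  have := cnt_lt m v (by omega)
  rw [← this]
  congr 1
  ext u
  simp [plt]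

theorem ly (v : Fin m) : (Finset.univ.filter (fun u => (plt τ).y u < (plt τ).y v)).card
    = (τ v : Fin m) := by
  have h1 := cnt_lt m (τ v : Fin m) (by omega)
  have h2 : ((Finset.univ.filter (fun u => (plt τ).y u < (plt τ).y v)).map τ.toEmbedding)
      = (Finset.univ.filter (fun u : Fin m => (u : ℕ) < (τ v : Fin m))) := by
    ext u
    simp only [Finset.mem_map, Finset.mem_filter, Finset.mem_univ, true_and,
      Equiv.coe_toEmbedding]
    constructor
    · rintro ⟨a, h, rfl⟩
      simp only [plt] at h
      exact_mod_cast h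
    · intro h; exact ⟨τ.symm u, by simp only [plt]; simpa using h, by simp⟩
  rw [← Finset.card_map τ.toEmbedding, h2, h1]

theorem rx (v : Fin m) : (Finset.univ.filter (fun u => (plt τ).x v < (plt τ).x u)).card
    = m - 1 - v := by
  have h1 := lx (τ := τ) v
  have h2 : (Finset.univ.filter (fun u => (plt τ).x u < (plt τ).x v)).card
    + (Finset.univ.filter (fun u => (plt τ).x v < (plt τ).x u)).card + 1 = m := by
    have h3 : (Finset.univ : Finset (Fin m)) = insert v
        (Finset.univ.filter (fun u => (plt τ).x u < (plt τ).x v) ∪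
         Finset.univ.filter (fun u => (plt τ).x v < (plt τ).x u)) := by
      ext u
      simp only [Finset.mem_univ, Finset.mem_insert, Finset.mem_union, Finset.mem_filter, true_and,
        true_iff]
      by_cases hu : u = v
      · exact Or.inl hu
      · right
        have := nex (P := plt τ) hu
        omega
    have h4 : (Finset.univ : Finset (Fin m)).card = m := by simp
    rw [h3, Finset.card_insert_of_notMem, Finset.card_union_of_disjoint] at h4
    · omega
    · rw [Finset.disjoint_left]
      intro u hu hu'
      simp only [Finset.mem_filter, Finset.mem_univ, true_and] at hu hu'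
      omega
    · simp
  omega

theorem ry (v : Fin m) : (Finset.univ.filter (fun u => (plt τ).y v < (plt τ).y u)).card
    = m - 1 - (τ v : Fin m) := by
  have h1 := ly (τ := τ) v
  have h2 : (Finset.univ.filter (fun u => (plt τ).y u < (plt τ).y v)).card
    + (Finset.univ.filter (fun u => (plt τ).y v < (plt τ).y u)).card + 1 = m := by
    have h3 : (Finset.univ : Finset (Fin m)) = insert v
        (Finset.univ.filter (fun u => (plt τ).y u < (plt τ).y v) ∪
         Finset.univ.filter (fun u => (plt τ).y v < (plt τ).y u)) := by
      ext u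
      simp only [Finset.mem_univ, Finset.mem_insert, Finset.mem_union, Finset.mem_filter, true_and,
        true_iff]
      by_cases hu : u = v
      · exact Or.inl hu
      · right
        have := ney (P := plt τ) hu
        omega
    have h4 : (Finset.univ : Finset (Fin m)).card = m := by simp
    rw [h3, Finset.card_insert_of_notMem, Finset.card_union_of_disjoint] at h4
    · omega
    · rw [Finset.disjoint_left]
      intro u hu hu'
      simp only [Finset.mem_filter, Finset.mem_univ, true_and] at hu hu'
      omega
    · simp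
  omega

/-- permutations described by bounded data -/
def Enc (c : ℕ) {m : ℕ} (τ : Equiv.Perm (Fin m)) : Prop :=
  (∃ (s : Bool) (d : ℕ → ℤ), (∀ r, - (c : ℤ) ≤ d r ∧ d r ≤ c) ∧
    ∀ k : Fin m, c ≤ (k : ℕ) → (k : ℕ) + c < m →
      (((τ k : Fin m) : ℕ) : ℤ) = (if s then ((k : ℕ) : ℤ) else (m : ℤ) - 1 - (k : ℕ)) +
        d ((k : ℕ) % 4)) ∧
  (∀ k : Fin m, ((k : ℕ) < c ∨ m ≤ (k : ℕ) + c) →
    (((τ k : Fin m) : ℕ) < 2 * c ∨ m ≤ ((τ k : Fin m) : ℕ) + 2 * c))

/-- decoding -/
def dec (c m : ℕ) (q : Bool × (Fin 4 → Fin (2 * c + 1)) × (Fin (2 * c) → Fin (4 * c)))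
    (k : Fin m) : ℤ :=
  if c ≤ (k : ℕ) ∧ (k : ℕ) + c < m then
    (if q.1 then ((k : ℕ) : ℤ) else (m : ℤ) - 1 - (k : ℕ)) +
      (((q.2.1 ⟨(k : ℕ) % 4, Nat.mod_lt _ (by norm_num)⟩ : Fin (2 * c + 1)) : ℕ) - (c : ℤ))
  else
    let idx := if (k : ℕ) < c then (k : ℕ) else c + (m - 1 - (k : ℕ))
    if h : idx < 2 * c then
      let v := ((q.2.2 ⟨idx, h⟩ : Fin (4 * c)) : ℕ)
      if v < 2 * c then (v : ℤ) else (m : ℤ) - 1 - ((v : ℤ) - 2 * c)
    else 0

theorem Enc.code {c m : ℕ} {τ : Equiv.Perm (Fin m)} (h : Enc c τ) :
    ∃ q, dec c m q = fun k => (((τ k : Fin m) : ℕ) : ℤ) := by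
  obtain ⟨⟨s, d, hd, hmid⟩, hb⟩ := h
  refine ⟨⟨s, fun r => ⟨(d r + c).toNat, ?_⟩, fun idx =>
    if h : (let k := if (idx : ℕ) < c then (idx : ℕ) else m - 1 - ((idx : ℕ) - c)
      if hk : k < m then
        (if ((τ ⟨k, hk⟩ : Fin m) : ℕ) < 2 * c then ((τ ⟨k, hk⟩ : Fin m) : ℕ) else
          2 * c + (m - 1 - ((τ ⟨k, hk⟩ : Fin m) : ℕ))) else 0) < 4 * c then ⟨_, h⟩
    else ⟨0, by have := idx.2; omega⟩⟩, ?_⟩
  · have := hd r
    omega
  · funext k
    unfold dec
    by_cases h1 : c ≤ (k : ℕ) ∧ (k : ℕ) + c < m
    · rw [if_pos h1]
      rw [hmid k h1.1 h1.2]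
      have := hd ((k : ℕ) % 4)
      dsimp only
      have h2 : (((d ((k : ℕ) % 4) + c).toNat : ℕ) : ℤ) = d ((k : ℕ) % 4) + c :=
        Int.toNat_of_nonneg (by omega)
      rw [h2]
      ring
    · rw [if_neg h1]
      have hk := k.2
      have hbk := hb k (by omega)
      have hτk := (τ k).2
      have hidx : (if (k : ℕ) < c then (k : ℕ) else c + (m - 1 - (k : ℕ))) < 2 * c := by
        split_ifs <;> omega
      simp only
      rw [dif_pos hidx]
      have hk' : (if (if (k : ℕ) < c then (k : ℕ) else c + (m - 1 - (k : ℕ))) < c then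
          (if (k : ℕ) < c then (k : ℕ) else c + (m - 1 - (k : ℕ))) else
          m - 1 - ((if (k : ℕ) < c then (k : ℕ) else c + (m - 1 - (k : ℕ))) - c)) = (k : ℕ) := by
        split_ifs <;> omega
      have hgen : ∀ k' : ℕ, k' = (k : ℕ) →
          (if hk : k' < m then
            (if ((τ ⟨k', hk⟩ : Fin m) : ℕ) < 2 * c then ((τ ⟨k', hk⟩ : Fin m) : ℕ) else
              2 * c + (m - 1 - ((τ ⟨k', hk⟩ : Fin m) : ℕ))) else 0) =
          (if ((τ k : Fin m) : ℕ) < 2 * c then ((τ k : Fin m) : ℕ) else
              2 * c + (m - 1 - ((τ k : Fin m) : ℕ))) := by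
        rintro k' rfl
        rw [dif_pos k.2]
      have hval := hgen _ hk'
      have hlt : (if ((τ k : Fin m) : ℕ) < 2 * c then ((τ k : Fin m) : ℕ) else
              2 * c + (m - 1 - ((τ k : Fin m) : ℕ))) < 4 * c := by
        split_ifs <;> omega
      rw [dif_pos (by rw [hval]; exact hlt)]
      simp only [hval]
      by_cases h5 : ((τ k : Fin m) : ℕ) < 2 * c
      · rw [if_pos h5, if_pos h5]
      · rw [if_neg h5, if_neg (by omega)]
        omega

/-- a bound on the number of encodable permutations -/
noncomputable def encB (c : ℕ) : ℕ :=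
  Fintype.card (Bool × (Fin 4 → Fin (2 * c + 1)) × (Fin (2 * c) → Fin (4 * c)))

theorem enc_card (c m : ℕ) (S : Set (Equiv.Perm (Fin m))) (hS : ∀ τ ∈ S, Enc c τ) :
    Nat.card S ≤ encB c := by
  have h1 : ∀ τ : S, ∃ q, dec c m q = fun k => (((τ.1 k : Fin m) : ℕ) : ℤ) :=
    fun τ => (hS τ.1 τ.2).code
  choose f hf using h1
  have hinj : Function.Injective f := by
    intro a b e
    have h2 := hf a
    rw [e, hf b] at h2
    apply Subtype.ext
    apply Equiv.ext
    intro k
    have := congrFun h2 k
    exact Fin.ext (by exact_mod_cast this.symm)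
  unfold encB
  rw [← Nat.card_eq_fintype_card]
  exact Nat.card_le_card_of_injective f hinj

/-! ### Interval types -/

theorem split_card (J : Finset (Fin m)) (q : Fin m → Prop) [DecidablePred q] :
    (Finset.univ.filter q).card = (J.filter q).card + ((Finset.univ \ J).filter q).card := by
  rw [← Finset.card_union_of_disjoint]
  · congr 1
    ext u
    simp only [Finset.mem_filter, Finset.mem_univ, true_and, Finset.mem_union, Finset.mem_sdiff]
    tauto
  · rw [Finset.disjoint_left]
    intro u hu hu'
    simp only [Finset.mem_filter, Finset.mem_sdiff] at hu hu'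
    exact hu'.1.2 hu.1

theorem enc_intv {J : Finset (Fin m)} {c : ℕ} (hI : (plt τ).Intv J)
    (hc0 : m ≤ J.card + c) (hJ : (plt τ).Clique J ∨ (plt τ).Chain J) : Enc c τ := by
  set P := plt τ with hP
  have hm : (Finset.univ \ J).card + J.card = m := by
    have := Finset.card_sdiff_add_card_eq_card (Finset.subset_univ J)
    simpa using this
  have hc : (Finset.univ \ J).card ≤ c := by omega
  by_cases hJe : J = ∅
  · subst hJe
    simp only [Finset.card_empty] at hm
    refine ⟨⟨true, fun _ => 0, fun r => by dsimp only; omega, fun k h1 h2 => by omega⟩, ?_⟩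
    intro k _
    have := (τ k).2
    have := k.2
    left; omega
  obtain ⟨j0, hj0⟩ := Finset.nonempty_iff_ne_empty.2 hJe
  -- elements outside `J` are close to the boundary
  have houtx : ∀ v, v ∉ J → (v : ℕ) < c ∨ m ≤ (v : ℕ) + c := by
    intro v hv
    have hv1 : v ≠ j0 := by rintro rfl; exact hv hj0
    have hx := nex (P := P) hv1
    by_cases h1 : P.x v < P.x j0
    · left
      have h2 : (Finset.univ.filter (fun u => P.x u < P.x v)) ⊆ (Finset.univ \ J).erase v := by
        intro u hu
        simp only [Finset.mem_filter, Finset.mem_univ, true_and] at hu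
        simp only [Finset.mem_erase, Finset.mem_sdiff, Finset.mem_univ, true_and]
        refine ⟨by rintro rfl; omega, ?_⟩
        intro huJ
        have := (hI v hv j0 hj0 u huJ).1 h1
        omega
      have h3 := Finset.card_le_card h2
      rw [lx, Finset.card_erase_of_mem (by simpa using hv)] at h3
      have h4 : 0 < (Finset.univ \ J).card := Finset.card_pos.2 ⟨v, by simpa using hv⟩
      omega
    · right
      have h2 : (Finset.univ.filter (fun u => P.x v < P.x u)) ⊆ (Finset.univ \ J).erase v := by
        intro u hu
        simp only [Finset.mem_filter, Finset.mem_univ, true_and] at hu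
        simp only [Finset.mem_erase, Finset.mem_sdiff, Finset.mem_univ, true_and]
        refine ⟨by rintro rfl; omega, ?_⟩
        intro huJ
        have := (hI v hv u huJ j0 hj0).1 hu
        omega
      have h3 := Finset.card_le_card h2
      rw [rx, Finset.card_erase_of_mem (by simpa using hv)] at h3
      have h4 : 0 < (Finset.univ \ J).card := Finset.card_pos.2 ⟨v, by simpa using hv⟩
      have := v.2
      omega
  have houty : ∀ v, v ∉ J → ((τ v : Fin m) : ℕ) < c ∨ m ≤ ((τ v : Fin m) : ℕ) + c := by
    intro v hv
    have hv1 : v ≠ j0 := by rintro rfl; exact hv hj0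
    have hx := ney (P := P) hv1
    by_cases h1 : P.y v < P.y j0
    · left
      have h2 : (Finset.univ.filter (fun u => P.y u < P.y v)) ⊆ (Finset.univ \ J).erase v := by
        intro u hu
        simp only [Finset.mem_filter, Finset.mem_univ, true_and] at hu
        simp only [Finset.mem_erase, Finset.mem_sdiff, Finset.mem_univ, true_and]
        refine ⟨by rintro rfl; omega, ?_⟩
        intro huJ
        have := (hI v hv j0 hj0 u huJ).2 h1
        omega
      have h3 := Finset.card_le_card h2
      rw [ly, Finset.card_erase_of_mem (by simpa using hv)] at h3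
      have h4 : 0 < (Finset.univ \ J).card := Finset.card_pos.2 ⟨v, by simpa using hv⟩
      omega
    · right
      have h2 : (Finset.univ.filter (fun u => P.y v < P.y u)) ⊆ (Finset.univ \ J).erase v := by
        intro u hu
        simp only [Finset.mem_filter, Finset.mem_univ, true_and] at hu
        simp only [Finset.mem_erase, Finset.mem_sdiff, Finset.mem_univ, true_and]
        refine ⟨by rintro rfl; omega, ?_⟩
        intro huJ
        have := (hI v hv u huJ j0 hj0).2 hu
        omega
      have h3 := Finset.card_le_card h2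
      rw [ry, Finset.card_erase_of_mem (by simpa using hv)] at h3
      have h4 : 0 < (Finset.univ \ J).card := Finset.card_pos.2 ⟨v, by simpa using hv⟩
      have := (τ v).2
      omega
  -- constants
  set α := ((Finset.univ \ J).filter (fun u => P.x u < P.x j0)).card with hα
  set β := ((Finset.univ \ J).filter (fun u => P.y u < P.y j0)).card with hβ
  have hα1 : α ≤ (Finset.univ \ J).card := Finset.card_filter_le _ _
  have hβ1 : β ≤ (Finset.univ \ J).card := Finset.card_filter_le _ _
  have hxJ : ∀ v ∈ J, (v : ℕ) = (J.filter (fun u => P.x u < P.x v)).card + α := by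
    intro v hv
    have h1 := split_card J (fun u => P.x u < P.x v)
    have h2 := lx (τ := τ) v
    have h3 : ((Finset.univ \ J).filter (fun u => P.x u < P.x v)) =
        ((Finset.univ \ J).filter (fun u => P.x u < P.x j0)) := by
      ext u
      simp only [Finset.mem_filter, Finset.mem_sdiff, Finset.mem_univ, true_and]
      constructor
      · rintro ⟨a, b⟩; exact ⟨a, (hI u a v hv j0 hj0).1 b⟩
      · rintro ⟨a, b⟩; exact ⟨a, (hI u a j0 hj0 v hv).1 b⟩
    rw [h3] at h1
    rw [← hP] at h2
    rw [← h2, hα]
    convert h1
  have hyJ : ∀ v ∈ J, ((τ v : Fin m) : ℕ) = (J.filter (fun u => P.y u < P.y v)).card + β := by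
    intro v hv
    have h1 := split_card J (fun u => P.y u < P.y v)
    have h2 := ly (τ := τ) v
    have h3 : ((Finset.univ \ J).filter (fun u => P.y u < P.y v)) =
        ((Finset.univ \ J).filter (fun u => P.y u < P.y j0)) := by
      ext u
      simp only [Finset.mem_filter, Finset.mem_sdiff, Finset.mem_univ, true_and]
      constructor
      · rintro ⟨a, b⟩; exact ⟨a, (hI u a v hv j0 hj0).2 b⟩
      · rintro ⟨a, b⟩; exact ⟨a, (hI u a j0 hj0 v hv).2 b⟩
    rw [h3] at h1
    rw [← hP] at h2
    rw [← h2, hβ]
    convert h1
  rcases hJ with hJ | hJ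
  · -- clique
    have hval : ∀ v ∈ J, (((τ v : Fin m) : ℕ) : ℤ) = (m : ℤ) - 1 - (v : ℕ) +
        ((α : ℤ) + β - ((Finset.univ \ J).card : ℤ)) := by
      intro v hv
      have h1 := hxJ v hv
      have h2 := hyJ v hv
      have h3 : (J.filter (fun u => P.x u < P.x v)).card + (J.filter (fun u => P.y u < P.y v)).card
          + 1 = J.card := by
        have h4 : J = insert v (J.filter (fun u => P.x u < P.x v) ∪
            J.filter (fun u => P.y u < P.y v)) := by
          ext u
          simp only [Finset.mem_insert, Finset.mem_union, Finset.mem_filter]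
          constructor
          · intro hu
            by_cases huv : u = v
            · exact Or.inl huv
            · right
              have := hJ u hu v hv huv
              simp only [Ad, NW] at this
              rcases this with h | h
              · exact Or.inl ⟨hu, h.1⟩
              · exact Or.inr ⟨hu, h.2⟩
          · rintro (h | h | h)
            · rw [h]; exact hv
            · exact h.1
            · exact h.1
        have h5 : J.card = J.card := rfl
        conv_rhs at h5 => rw [h4]
        rw [Finset.card_insert_of_notMem, Finset.card_union_of_disjoint] at h5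
        · omega
        · rw [Finset.disjoint_left]
          intro u hu hu'
          simp only [Finset.mem_filter] at hu hu'
          have hne : u ≠ v := by rintro rfl; omega
          have := hJ u hu.1 v hv hne
          simp only [Ad, NW] at this
          omega
        · simp
      omega
    refine ⟨⟨false, fun _ => (α : ℤ) + β - ((Finset.univ \ J).card : ℤ), fun r => by dsimp only; omega, ?_⟩, ?_⟩
    · intro k h1 h2
      have hk : k ∈ J := by
        by_contra hcon
        have := houtx k hcon
        omega
      rw [hval k hk]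
      simp
    · intro k hk
      by_cases hkJ : k ∈ J
      · have := hval k hkJ
        have := k.2
        omega
      · have := houty k hkJ
        omega
  · -- chain
    have hval : ∀ v ∈ J, (((τ v : Fin m) : ℕ) : ℤ) = (v : ℕ) + ((β : ℤ) - α) := by
      intro v hv
      have h1 := hxJ v hv
      have h2 := hyJ v hv
      have h3 : (J.filter (fun u => P.x u < P.x v)) = (J.filter (fun u => P.y u < P.y v)) := by
        ext u
        simp only [Finset.mem_filter]
        constructor
        · rintro ⟨hu, h⟩
          have hne : u ≠ v := by rintro rfl; omega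
          have := hJ u hu v hv hne
          simp only [Pr] at this
          exact ⟨hu, by omega⟩
        · rintro ⟨hu, h⟩
          have hne : u ≠ v := by rintro rfl; omega
          have := hJ u hu v hv hne
          simp only [Pr] at this
          exact ⟨hu, by omega⟩
      rw [h3] at h1
      omega
    refine ⟨⟨true, fun _ => (β : ℤ) - α, fun r => by dsimp only; omega, ?_⟩, ?_⟩
    · intro k h1 h2
      have hk : k ∈ J := by
        by_contra hcon
        have := houtx k hcon
        omega
      rw [hval k hk]
      simp
    · intro k hk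
      by_cases hkJ : k ∈ J
      · have := hval k hkJ
        have := k.2
        omega
      · have := houty k hkJ
        omega

/-! ### Oscillation type -/

theorem disp_eq (v : Fin m) : ((τ v : Fin m) : ℕ) + (Finset.univ.filter (fun u => (plt τ).NW u v)).card
    = (v : ℕ) + (Finset.univ.filter (fun u => (plt τ).NW v u)).card := by
  have h1 := lx (τ := τ) v
  have h2 := ly (τ := τ) v
  have h3 : (Finset.univ.filter (fun u => (plt τ).x u < (plt τ).x v)).card =
      (Finset.univ.filter (fun u => (plt τ).Pr u v)).card +
      (Finset.univ.filter (fun u => (plt τ).NW u v)).card := by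
    rw [← Finset.card_union_of_disjoint]
    · congr 1
      ext u
      simp only [Finset.mem_filter, Finset.mem_univ, true_and, Finset.mem_union]
      simp only [Pr, NW]
      constructor
      · intro h
        have hne : u ≠ v := by rintro rfl; omega
        have := ney (P := plt τ) hne
        omega
      · omega
    · rw [Finset.disjoint_left]
      intro u hu hu'
      simp only [Finset.mem_filter, Finset.mem_univ, true_and] at hu hu'
      simp only [Pr, NW] at hu hu'
      omega
  have h4 : (Finset.univ.filter (fun u => (plt τ).y u < (plt τ).y v)).card =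
      (Finset.univ.filter (fun u => (plt τ).Pr u v)).card +
      (Finset.univ.filter (fun u => (plt τ).NW v u)).card := by
    rw [← Finset.card_union_of_disjoint]
    · congr 1
      ext u
      simp only [Finset.mem_filter, Finset.mem_univ, true_and, Finset.mem_union]
      simp only [Pr, NW]
      constructor
      · intro h
        have hne : u ≠ v := by rintro rfl; omega
        have := nex (P := plt τ) hne
        omega
      · omega
    · rw [Finset.disjoint_left]
      intro u hu hu'
      simp only [Finset.mem_filter, Finset.mem_univ, true_and] at hu hu'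
      simp only [Pr, NW] at hu hu'
      omega
  omega

theorem enc_osc {M : Finset (Fin m)} {c D : ℕ} (h : OscM (plt τ) c M)
    (hD : ∀ u, ((plt τ).nb u).card ≤ D) : Enc (c + D + 2) τ := by
  have hout : ∀ v : Fin m, c ≤ (v : ℕ) → (v : ℕ) + c < m → v ∈ M := by
    intro v h1 h2
    by_contra hcon
    have h3 := h.xx v hcon
    rw [lx, rx] at h3
    omega
  have houty : ∀ v : Fin m, c ≤ ((τ v : Fin m) : ℕ) → ((τ v : Fin m) : ℕ) + c < m → v ∈ M := by
    intro v h1 h2
    by_contra hcon
    have h3 := h.yy v hcon
    rw [ly, ry] at h3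
    omega
  have hM : ∀ v ∈ M, ((τ v : Fin m) : ℕ) = (v : ℕ) + 2 ∨ ((τ v : Fin m) : ℕ) + 2 = (v : ℕ) := by
    intro v hv
    have h1 := disp_eq (τ := τ) v
    have h2 := h.dis v hv
    omega
  have hall : ∀ v : Fin m, ((τ v : Fin m) : ℕ) ≤ (v : ℕ) + D ∧ (v : ℕ) ≤ ((τ v : Fin m) : ℕ) + D := by
    intro v
    have h1 := disp_eq (τ := τ) v
    have h2 := hD v
    have h3 : (Finset.univ.filter (fun u => (plt τ).NW u v)).card ≤ ((plt τ).nb v).card := by
      apply Finset.card_le_card
      intro u hu
      simp only [nb, Finset.mem_filter, Finset.mem_univ, true_and] at hu ⊢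
      exact Or.inr hu
    have h4 : (Finset.univ.filter (fun u => (plt τ).NW v u)).card ≤ ((plt τ).nb v).card := by
      apply Finset.card_le_card
      intro u hu
      simp only [nb, Finset.mem_filter, Finset.mem_univ, true_and] at hu ⊢
      exact Or.inl hu
    omega
  set disp : ℕ → ℤ := fun k => if hk : k < m then (((τ ⟨k, hk⟩ : Fin m) : ℕ) : ℤ) - k else 0
    with hdisp
  have hdM : ∀ k, c ≤ k → k + c < m → disp k = 2 ∨ disp k = -2 := by
    intro k h1 h2
    have h3 := hM ⟨k, by omega⟩ (hout ⟨k, by omega⟩ h1 h2)
    simp only [hdisp]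
    rw [dif_pos (by omega : k < m)]
    simp only at h3
    omega
  have hper : ∀ k, c ≤ k → k + 4 + c < m → disp (k + 4) = disp k := by
    intro k h1 h2
    have a1 := hdM k h1 (by omega)
    have a2 := hdM (k + 4) (by omega) (by omega)
    have e1 : disp k = (((τ ⟨k, by omega⟩ : Fin m) : ℕ) : ℤ) - k := by
      simp only [hdisp]; rw [dif_pos (by omega : k < m)]
    have e2 : disp (k + 4) = (((τ ⟨k + 4, by omega⟩ : Fin m) : ℕ) : ℤ) - (k + 4 : ℕ) := by
      simp only [hdisp]; rw [dif_pos (by omega : k + 4 < m)]
    rcases a1 with a1 | a1 <;> rcases a2 with a2 | a2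
    · rw [a1, a2]
    · exfalso
      have h3 : τ ⟨k, by omega⟩ = τ ⟨k + 4, by omega⟩ := by
        apply Fin.ext
        push_cast at e2
        omega
      have h4 := τ.injective h3
      simp only [Fin.mk.injEq] at h4
      omega
    · exfalso
      have hw : (τ (τ.symm ⟨k + 2, by omega⟩) : Fin m) = ⟨k + 2, by omega⟩ := by simp
      set u := τ.symm ⟨k + 2, by omega⟩ with hu
      have hw' : ((τ u : Fin m) : ℕ) = k + 2 := by rw [hw]
      have huM := houty u (by omega) (by omega)
      have h5 := hM u huM
      rcases h5 with h5 | h5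
      · have h6 : u = ⟨k, by omega⟩ := Fin.ext (by simp only; omega)
        rw [h6] at hw'
        omega
      · have h6 : u = ⟨k + 4, by omega⟩ := Fin.ext (by simp only; omega)
        rw [h6] at hw'
        push_cast at e2
        omega
    · rw [a1, a2]
  have hper2 : ∀ i k, c ≤ k → k + 4 * i + c < m → disp (k + 4 * i) = disp k := by
    intro i
    induction i with
    | zero => intro k _ _; simp
    | succ i ih =>
      intro k h1 h2
      rw [show k + 4 * (i + 1) = k + 4 * i + 4 by ring, hper (k + 4 * i) (by omega) (by omega)]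
      exact ih k h1 (by omega)
  have hper3 : ∀ k k', c ≤ k → k + c < m → c ≤ k' → k' + c < m → k % 4 = k' % 4 →
      disp k = disp k' := by
    intro k k' h1 h2 h3 h4 h5
    rcases Nat.le_total k k' with h6 | h6
    · have := hper2 ((k' - k) / 4) k h1 (by omega)
      rw [show k + 4 * ((k' - k) / 4) = k' by omega] at this
      exact this.symm
    · have := hper2 ((k - k') / 4) k' h3 (by omega)
      rw [show k' + 4 * ((k - k') / 4) = k by omega] at this
      exact this
  refine ⟨⟨true, fun r => if hr : ∃ k, c ≤ k ∧ k + c < m ∧ k % 4 = r then disp hr.choose else 0,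
    ?_, ?_⟩, ?_⟩
  · intro r
    by_cases hr : ∃ k, c ≤ k ∧ k + c < m ∧ k % 4 = r
    · simp only [dif_pos hr]
      have := hdM _ hr.choose_spec.1 hr.choose_spec.2.1
      push_cast
      omega
    · simp only [dif_neg hr]
      push_cast
      omega
  · intro k h1 h2
    have hr : ∃ k', c ≤ k' ∧ k' + c < m ∧ k' % 4 = (k : ℕ) % 4 := ⟨k, by omega, by omega, rfl⟩
    simp only [dif_pos hr, if_true]
    have h3 := hper3 _ k hr.choose_spec.1 hr.choose_spec.2.1 (by omega) (by omega)
      hr.choose_spec.2.2
    rw [h3]
    simp only [hdisp]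
    rw [dif_pos k.2]
    simp
  · intro k hk
    have h1 := hall k
    omega

end Pool.Agent.H175
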