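import Mathlib

/-!
Permutation classes, direct sums and sum indecomposable permutations.
A permutation of length `n` is an element of `Equiv.Perm (Fin n)`.
-/

namespace Pool.Agent.H175

/-- `τ` (of length `m`) contains `σ` (of length `n`): some subsequence of `τ`, taken at the
positions `e 0 < e 1 < ...`, is order isomorphic to `σ`. -/
def Contains {m n : ℕ} (τ : Equiv.Perm (Fin m)) (σ : Equiv.Perm (Fin n)) : Prop :=
  ∃ e : Fin n → Fin m, StrictMono e ∧ ∀ i j, (σ i < σ j ↔ τ (e i) < τ (e j))

/-- The direct sum: `α` on the first `k` positions, `β` shifted by `k` on the last `m`. -/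
def dsum {k m : ℕ} (α : Equiv.Perm (Fin k)) (β : Equiv.Perm (Fin m)) : Equiv.Perm (Fin (k + m)) :=
  finSumFinEquiv.permCongr (Equiv.sumCongr α β)

/-- `τ` is not the direct sum of two nonempty permutations. -/
def Indec {n : ℕ} (τ : Equiv.Perm (Fin n)) : Prop :=
  ¬ ∃ (k m : ℕ) (h : k + m = n) (α : Equiv.Perm (Fin k)) (β : Equiv.Perm (Fin m)),
    0 < k ∧ 0 < m ∧ (finCongr h).permCongr (dsum α β) = τ

/-- A permutation class: a set of permutations (`mem n` are those of length `n`) that is closed
under containment. -/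
structure PermClass where
  mem : ∀ n : ℕ, Set (Equiv.Perm (Fin n))
  closed : ∀ {m n : ℕ} (τ : Equiv.Perm (Fin m)) (σ : Equiv.Perm (Fin n)),
    τ ∈ mem m → Contains τ σ → σ ∈ mem n

/-- sum closed classes -/
def PermClass.SumClosed (C : PermClass) : Prop :=
  ∀ {k m : ℕ} (α : Equiv.Perm (Fin k)) (β : Equiv.Perm (Fin m)),
    α ∈ C.mem k → β ∈ C.mem m → dsum α β ∈ C.mem (k + m)

/-- the sum indecomposable members of length `n` -/
def PermClass.ind (C : PermClass) (n : ℕ) : Set (Equiv.Perm (Fin n)) :=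
  {τ | τ ∈ C.mem n ∧ Indec τ}

end Pool.Agent.H175
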