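import Pool.Agent.H175.Basic

/-! Families of pairwise non-isomorphic connected `n`-sets. -/

namespace Pool.Agent.H175

open Classical

namespace Plot

variable {V : Type} {P : Plot V}

noncomputable def lc (P : Plot V) (X : Finset V) (u : V) : ℕ :=
  (X.filter (fun w => P.x w < P.x u)).card

noncomputable def pc (P : Plot V) (X : Finset V) (u : V) : ℕ :=
  (X.filter (fun w => P.Pr w u)).card

theorem IsoF.lc {X Y : Finset V} {f : V → V} (h : P.IsoF X Y f) {u : V} (hu : u ∈ X) :
    P.lc X u = P.lc Y (f u) :=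
  h.card (fun w => P.x w < P.x u) (fun w => P.x w < P.x (f u)) (fun w hw => h.px w hw u hu)

theorem IsoF.pc {X Y : Finset V} {f : V → V} (h : P.IsoF X Y f) {u : V} (hu : u ∈ X) :
    P.pc X u = P.pc Y (f u) :=
  h.card (fun w => P.Pr w u) (fun w => P.Pr w (f u)) (fun _ hw => h.pr hw hu)

theorem clique_conn {J : Finset V} (hJ : P.Clique J) : P.Conn J := by
  intro p h1 h2
  obtain ⟨u, hu, h3⟩ := h1
  obtain ⟨v, hv, h4⟩ := h2
  exact ⟨u, hu, v, hv, h3, h4, hJ u hu v hv (by rintro rfl; exact h4 h3)⟩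

theorem Clique.mono {J J' : Finset V} (hJ : P.Clique J) (h : J' ⊆ J) : P.Clique J' :=
  fun u hu v hv => hJ u (h hu) v (h hv)

theorem Chain.mono {J J' : Finset V} (hJ : P.Chain J) (h : J' ⊆ J) : P.Chain J' :=
  fun u hu v hv => hJ u (h hu) v (h hv)

theorem Chain.nad {J : Finset V} (hJ : P.Chain J) {u v : V} (hu : u ∈ J) (hv : v ∈ J) :
    ¬ P.Ad u v := by
  intro h
  rcases hJ u hu v hv h.ne with h1 | h1
  · exact h1.nad h
  · exact h1.nad' h

theorem Clique.npr {J : Finset V} (hJ : P.Clique J) {u v : V} (hu : u ∈ J) (hv : v ∈ J) :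
    ¬ P.Pr u v := by
  intro h
  exact h.nad (hJ u hu v hv h.ne)

/-- L2delta -/
theorem fam_delta {n : ℕ} (hn : 4 ≤ n) (hF : P.Few n) {J Y : Finset V} {z : V}
    (hJ : P.Clique J) (hJc : n - 1 ≤ J.card) (hz : ∀ j ∈ J, P.Ad z j)
    (hY : P.Conn Y) (hzY : z ∈ Y) (hYc : n - 1 ≤ Y.card)
    (hJY : ∀ j ∈ J, ∀ u ∈ Y, u ≠ z → P.Pr j u) : False := by
  have hzJ : z ∉ J := fun h => (hz z h).ne rfl
  have hex : ∀ i : ℕ, ∃ X : Finset V, i < n - 1 →
      (X ⊆ Y ∧ z ∈ X ∧ X.card = n - 1 - i ∧ P.Conn X) := by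
    intro i
    by_cases hi : i < n - 1
    · obtain ⟨X, h⟩ := conn_grow hY hzY (n - 1 - i) (by omega) (by omega)
      exact ⟨X, fun _ => h⟩
    · exact ⟨∅, fun h => absurd h hi⟩
  choose K hK using hex
  have hdisj : ∀ i < n - 1, ∀ u, u ∈ J → u ∉ K i := by
    intro i hi u hu hu'
    have hne : u ≠ z := by rintro rfl; exact hzJ hu
    exact (hJY u hu u ((hK i hi).1 hu') hne).ne rfl
  have hne : ∀ i < n - 1, (sb J (i + 1)).Nonempty := by
    intro i hi
    rw [← Finset.card_pos, sb_card (by omega)]; omega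
  have hmin : ∀ i < n - 1, ((sb J (i+1) ∪ K i).filter
      (fun u => ∀ w ∈ sb J (i+1) ∪ K i, ¬ P.Pr w u)).card = i + 2 := by
    intro i hi
    obtain ⟨k1, k2, k3, k4⟩ := hK i hi
    have : (sb J (i+1) ∪ K i).filter (fun u => ∀ w ∈ sb J (i+1) ∪ K i, ¬ P.Pr w u)
        = insert z (sb J (i+1)) := by
      ext u
      simp only [Finset.mem_filter, Finset.mem_union, Finset.mem_insert]
      constructor
      · rintro ⟨h1 | h1, h2⟩
        · right; exact h1
        · left
          by_contra hne'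
          obtain ⟨j, hj⟩ := hne i hi
          exact h2 j (Or.inl hj) (hJY j (sb_sub _ _ hj) u (k1 h1) hne')
      · rintro (h1 | h1)
        · subst h1
          refine ⟨Or.inr k2, ?_⟩
          rintro w (hw | hw) hpr
          · exact hpr.nad' (hz w (sb_sub _ _ hw))
          · obtain ⟨j, hj⟩ := hne i hi
            have h3 := hJY j (sb_sub _ _ hj) w (k1 hw) hpr.ne
            have h4 := hz j (sb_sub _ _ hj)
            simp only [Pr, Ad, NW] at *
            omega
        · refine ⟨Or.inl h1, ?_⟩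
          rintro w (hw | hw) hpr
          · exact hJ.npr (sb_sub _ _ hw) (sb_sub _ _ h1) hpr
          · by_cases hwz : w = z
            · subst hwz
              exact hpr.nad (hz u (sb_sub _ _ h1))
            · have h3 := hJY u (sb_sub _ _ h1) w (k1 hw) hwz
              simp only [Pr] at *
              omega
    rw [this, Finset.card_insert_of_notMem (fun h => hzJ (sb_sub _ _ h)), sb_card (by omega)]
  obtain ⟨i, j, hij, hj, f, hf⟩ := hF (fun i => sb J (i+1) ∪ K i) (by
    intro i hi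
    obtain ⟨k1, k2, k3, k4⟩ := hK i hi
    refine ⟨?_, ?_⟩
    · rw [Finset.card_union_of_disjoint, sb_card (by omega), k3]
      · omega
      · rw [Finset.disjoint_left]
        intro u hu hu'
        exact hdisj i hi u (sb_sub _ _ hu) hu'
    · obtain ⟨j, hj⟩ := hne i hi
      exact conn_union (clique_conn (hJ.mono (sb_sub _ _))) k4 hj k2
        (Or.inr (hz j (sb_sub _ _ hj)).symm))
  have h1 := hmin i (by omega)
  have h2 := hmin j hj
  have h3 := hf.card (fun u => ∀ w ∈ sb J (i+1) ∪ K i, ¬ P.Pr w u)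
    (fun u => ∀ w ∈ sb J (j+1) ∪ K j, ¬ P.Pr w u)
    (fun u hu => hf.all _ _ (fun w hw => not_congr (hf.pr hw hu)))
  have key : i + 2 = j + 2 := by
    rw [← h1, ← h2]; convert h3
  omega

/-- L2iota -/
theorem fam_iota {n : ℕ} (hn : 4 ≤ n) (hF : P.Few n) {J K : Finset V} {z z1 : V}
    (hJ : P.Chain J) (hJc : n - 2 ≤ J.card) (hz : ∀ j ∈ J, P.NW z j)
    (hK : P.Conn K) (hz1 : z1 ∈ K) (hKc : n - 1 ≤ K.card) (hzz : P.Ad z z1) (hzK : z ∉ K)
    (hJK : ∀ j ∈ J, ∀ u ∈ K, P.Pr j u) : False := by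
  have hzJ : z ∉ J := fun h => (hz z h).ne rfl
  have hxK : ∀ u ∈ K, P.x z < P.x u := by
    intro u hu
    obtain ⟨j, hj⟩ : J.Nonempty := by rw [← Finset.card_pos]; omega
    have h1 := hz j hj
    have h2 := hJK j hj u hu
    simp only [NW, Pr] at *; omega
  have hex : ∀ i : ℕ, ∃ X : Finset V, i < n - 1 →
      (X ⊆ K ∧ z1 ∈ X ∧ X.card = n - 1 - i ∧ P.Conn X) := by
    intro i
    by_cases hi : i < n - 1
    · obtain ⟨X, h⟩ := conn_grow hK hz1 (n - 1 - i) (by omega) (by omega)
      exact ⟨X, fun _ => h⟩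
    · exact ⟨∅, fun h => absurd h hi⟩
  choose L hL using hex
  set F : ℕ → Finset V := fun i => insert z (sb J i) ∪ insert z (L i) with hFdef
  have hmem : ∀ i u, u ∈ F i ↔ (u = z ∨ u ∈ sb J i ∨ u ∈ L i) := by
    intro i u
    simp only [hFdef, Finset.mem_union, Finset.mem_insert]; tauto
  obtain ⟨i, j, hij, hj, f, hf⟩ := hF F (by
    intro i hi
    obtain ⟨k1, k2, k3, k4⟩ := hL i hi
    refine ⟨?_, ?_⟩
    · have : F i = insert z (sb J i ∪ L i) := by
        ext u; rw [hmem]; simp only [Finset.mem_union, Finset.mem_insert]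
      rw [this, Finset.card_insert_of_notMem, Finset.card_union_of_disjoint, sb_card (by omega), k3]
      · omega
      · rw [Finset.disjoint_left]
        intro u hu hu'
        exact (hJK u (sb_sub _ _ hu) u (k1 hu')).ne rfl
      · simp only [Finset.mem_union, not_or]
        exact ⟨fun h => hzJ (sb_sub _ _ h), fun h => hzK (k1 h)⟩
    · refine conn_union (u := z) (v := z) ?_ ?_ (Finset.mem_insert_self _ _)
        (Finset.mem_insert_self _ _) (Or.inl rfl)
      · apply conn_star (Finset.mem_insert_self _ _)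
        intro u hu hne
        rcases Finset.mem_insert.1 hu with h | h
        · exact absurd h hne
        · exact (hz u (sb_sub _ _ h)).ad
      · exact conn_insert k4 k2 hzz.symm)
  obtain ⟨k1, k2, k3, k4⟩ := hL i (by omega)
  obtain ⟨l1, l2, l3, l4⟩ := hL j (by omega)
  obtain ⟨w, hw, hwmin⟩ := Finset.exists_min_image (L i) P.x ⟨z1, k2⟩
  have hwF : w ∈ F i := (hmem i w).2 (Or.inr (Or.inr hw))
  have hlc : P.lc (F i) w = i + 1 := by
    have : (F i).filter (fun u => P.x u < P.x w) = insert z (sb J i) := by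
      ext u
      simp only [Finset.mem_filter, hmem, Finset.mem_insert]
      constructor
      · rintro ⟨h1 | h1 | h1, h2⟩
        · left; exact h1
        · right; exact h1
        · have := hwmin u h1; omega
      · rintro (h1 | h1)
        · subst h1; exact ⟨Or.inl rfl, hxK w (k1 hw)⟩
        · exact ⟨Or.inr (Or.inl h1), (hJK u (sb_sub _ _ h1) w (k1 hw)).1⟩
    unfold lc
    rw [this, Finset.card_insert_of_notMem (fun h => hzJ (sb_sub _ _ h)), sb_card (by omega)]
  have hnb : ∃ u ∈ F i, P.NW w u := by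
    obtain ⟨u, hu, v, hv, h1, h2, h3⟩ := k4 (fun u => u = w) ⟨w, hw, rfl⟩ (by
      by_contra hcon
      push Not at hcon
      have : (L i).card ≤ ({w} : Finset V).card :=
        Finset.card_le_card (fun u hu => by simpa using hcon u hu)
      simp at this
      omega)
    subst h1
    refine ⟨v, (hmem i v).2 (Or.inr (Or.inr hv)), ?_⟩
    have := hwmin v hv
    rcases h3 with h3 | h3
    · exact h3
    · simp only [NW] at h3; omega
  have hlc' := hf.lc hwF
  rw [hlc] at hlc'
  have hnb' : ∃ u ∈ F j, P.NW (f w) u := (hf.ex _ _ (fun u hu => hf.nw hwF hu)).1 hnb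
  have hfw := hf.maps w hwF
  rcases (hmem j _).1 hfw with h1 | h1 | h1
  · have : P.lc (F j) (f w) = 0 := by
      unfold lc
      rw [Finset.card_eq_zero, Finset.filter_eq_empty_iff]
      intro u hu
      rw [h1]
      rcases (hmem j _).1 hu with h2 | h2 | h2
      · subst h2; omega
      · have := (hz u (sb_sub _ _ h2)).1; omega
      · have := hxK u (l1 h2); omega
    omega
  · obtain ⟨u, hu, h3⟩ := hnb'
    rcases (hmem j _).1 hu with h2 | h2 | h2
    · subst h2
      have := hz _ (sb_sub _ _ h1)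
      simp only [NW] at *; omega
    · exact hJ.nad (sb_sub _ _ h1) (sb_sub _ _ h2) h3.ad
    · exact (hJK _ (sb_sub _ _ h1) u (l1 h2)).nad h3.ad
  · have : j + 1 ≤ P.lc (F j) (f w) := by
      have h4 : insert z (sb J j) ⊆ (F j).filter (fun u => P.x u < P.x (f w)) := by
        intro u hu
        simp only [Finset.mem_filter, hmem]
        rcases Finset.mem_insert.1 hu with h5 | h5
        · subst h5; exact ⟨Or.inl rfl, hxK _ (l1 h1)⟩
        · exact ⟨Or.inr (Or.inl h5), (hJK u (sb_sub _ _ h5) _ (l1 h1)).1⟩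
      have h6 := Finset.card_le_card h4
      rw [Finset.card_insert_of_notMem (fun h => hzJ (sb_sub _ _ h)), sb_card (by omega)] at h6
      exact h6
    omega

/-- LDbeta -/
theorem fam_clB {n : ℕ} (hn : 4 ≤ n) (hF : P.Few n) {Q A B : Finset V} {v : V}
    (hQ : P.Clique Q) (hA : A ⊆ Q) (hB : B ⊆ Q) (hvQ : v ∉ Q)
    (hvA : ∀ a ∈ A, P.Ad v a) (hvB : ∀ b ∈ B, ¬ P.Ad v b)
    (hAc : n - 1 ≤ A.card) (hBc : n - 2 ≤ B.card) : False := by
  set F : ℕ → Finset V := fun i => insert v (sb B i ∪ sb A (n - 1 - i)) with hFdef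
  have hmem : ∀ i u, u ∈ F i ↔ (u = v ∨ u ∈ sb B i ∨ u ∈ sb A (n - 1 - i)) := by
    intro i u
    simp only [hFdef, Finset.mem_union, Finset.mem_insert]
  obtain ⟨i, j, hij, hj, f, hf⟩ := hF F (by
    intro i hi
    refine ⟨?_, ?_⟩
    · rw [hFdef]
      simp only
      rw [Finset.card_insert_of_notMem, Finset.card_union_of_disjoint, sb_card (by omega),
        sb_card (by omega)]
      · omega
      · rw [Finset.disjoint_left]
        intro u hu hu'
        exact hvB u (sb_sub _ _ hu) (hvA u (sb_sub _ _ hu'))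
      · simp only [Finset.mem_union, not_or]
        exact ⟨fun h => hvQ (hB (sb_sub _ _ h)), fun h => hvQ (hA (sb_sub _ _ h))⟩
    · obtain ⟨a, ha⟩ : (sb A (n - 1 - i)).Nonempty := by
        rw [← Finset.card_pos, sb_card (by omega)]; omega
      apply conn_star (c := a) ((hmem i a).2 (Or.inr (Or.inr ha)))
      intro u hu hne
      rcases (hmem i u).1 hu with h | h | h
      · subst h; exact (hvA a (sb_sub _ _ ha)).symm
      · exact hQ a (hA (sb_sub _ _ ha)) u (hB (sb_sub _ _ h)) hne.symm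
      · exact hQ a (hA (sb_sub _ _ ha)) u (hA (sb_sub _ _ h)) hne.symm)
  have h3 := hf.card (fun u => ∃ w ∈ F i, P.Pr u w ∨ P.Pr w u)
    (fun u => ∃ w ∈ F j, P.Pr u w ∨ P.Pr w u)
    (fun u hu => hf.ex _ _ (fun w hw => or_congr (hf.pr hu hw) (hf.pr hw hu)))
  have h4 : ((F i).filter (fun u => ∃ w ∈ F i, P.Pr u w ∨ P.Pr w u)).card ≤ i + 1 := by
    have : (F i).filter (fun u => ∃ w ∈ F i, P.Pr u w ∨ P.Pr w u) ⊆ insert v (sb B i) := by
      intro u hu
      simp only [Finset.mem_filter, hmem, Finset.mem_insert] at hu ⊢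
      obtain ⟨h1 | h1 | h1, w, hw, h2⟩ := hu
      · left; exact h1
      · right; exact h1
      · exfalso
        have hau : ∀ w, (w = v ∨ w ∈ sb B i ∨ w ∈ sb A (n - 1 - i)) → w ≠ u → P.Ad w u := by
          rintro w (h | h | h) hne
          · subst h; exact hvA u (sb_sub _ _ h1)
          · exact hQ w (hB (sb_sub _ _ h)) u (hA (sb_sub _ _ h1)) hne
          · exact hQ w (hA (sb_sub _ _ h)) u (hA (sb_sub _ _ h1)) hne
        rcases h2 with h2 | h2
        · exact h2.nad' (hau w hw h2.ne.symm)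
        · exact h2.nad (hau w hw h2.ne)
    have h5 := Finset.card_le_card this
    have h6 := Finset.card_insert_le v (sb B i)
    rw [sb_card (by omega)] at h6
    omega
  have h5 : j + 1 ≤ ((F j).filter (fun u => ∃ w ∈ F j, P.Pr u w ∨ P.Pr w u)).card := by
    have hcmp : ∀ b ∈ sb B j, P.Pr v b ∨ P.Pr b v := by
      intro b hb
      apply not_ad _ (hvB b (sb_sub _ _ hb))
      rintro rfl; exact hvQ (hB (sb_sub _ _ hb))
    have : insert v (sb B j) ⊆ (F j).filter (fun u => ∃ w ∈ F j, P.Pr u w ∨ P.Pr w u) := by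
      intro u hu
      simp only [Finset.mem_filter, hmem]
      rcases Finset.mem_insert.1 hu with h | h
      · subst h
        obtain ⟨b, hb⟩ : (sb B j).Nonempty := by
          rw [← Finset.card_pos, sb_card (by omega)]; omega
        exact ⟨Or.inl rfl, b, Or.inr (Or.inl hb), hcmp b hb⟩
      · exact ⟨Or.inr (Or.inl h), v, Or.inl rfl, (hcmp u h).symm⟩
    have h6 := Finset.card_le_card this
    rw [Finset.card_insert_of_notMem (fun h => hvQ (hB (sb_sub _ _ h))), sb_card (by omega)] at h6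
    exact h6
  omega

/-- LDalpha -/
theorem fam_clA {n : ℕ} (hn : 4 ≤ n) (hF : P.Few n) {Q A B : Finset V} {v w : V}
    (hQ : P.Clique Q) (hA : A ⊆ Q) (hB : B ⊆ Q) (hvw : P.Pr v w)
    (hAv : ∀ a ∈ A, P.NW a v ∧ P.NW a w) (hBv : ∀ b ∈ B, P.NW v b ∧ P.NW w b)
    (hAc : n - 2 ≤ A.card) (hBc : n - 2 ≤ B.card) : False := by
  set F : ℕ → Finset V := fun i => insert v (insert w (sb A i ∪ sb B (n - 2 - i))) with hFdef
  have hmem : ∀ i u, u ∈ F i ↔ (u = v ∨ u = w ∨ u ∈ sb A i ∨ u ∈ sb B (n - 2 - i)) := by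
    intro i u
    simp only [hFdef, Finset.mem_union, Finset.mem_insert]
  have hnv : ∀ u, u ∈ A ∨ u ∈ B → P.Ad u v ∧ P.Ad u w := by
    rintro u (h | h)
    · exact ⟨(hAv u h).1.ad, (hAv u h).2.ad⟩
    · exact ⟨(hBv u h).1.ad', (hBv u h).2.ad'⟩
  obtain ⟨i, j, hij, hj, f, hf⟩ := hF F (by
    intro i hi
    refine ⟨?_, ?_⟩
    · rw [hFdef]
      simp only
      rw [Finset.card_insert_of_notMem, Finset.card_insert_of_notMem,
        Finset.card_union_of_disjoint, sb_card (by omega), sb_card (by omega)]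
      · omega
      · rw [Finset.disjoint_left]
        intro u hu hu'
        have h1 := (hAv u (sb_sub _ _ hu)).1
        have h2 := (hBv u (sb_sub _ _ hu')).1
        simp only [NW] at *; omega
      · simp only [Finset.mem_union]
        rintro (h | h)
        · exact (hnv w (Or.inl (sb_sub _ _ h))).2.ne rfl
        · exact (hnv w (Or.inr (sb_sub _ _ h))).2.ne rfl
      · simp only [Finset.mem_union, Finset.mem_insert]
        rintro (h | h | h)
        · exact hvw.ne h
        · exact (hnv v (Or.inl (sb_sub _ _ h))).1.ne rfl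
        · exact (hnv v (Or.inr (sb_sub _ _ h))).1.ne rfl
    · obtain ⟨a, ha, haQ⟩ : ∃ a, (a ∈ sb A i ∨ a ∈ sb B (n - 2 - i)) ∧ a ∈ Q := by
        by_cases h0 : i = 0
        · obtain ⟨a, ha⟩ : (sb B (n - 2 - i)).Nonempty := by
            rw [← Finset.card_pos, sb_card (by omega)]; omega
          exact ⟨a, Or.inr ha, hB (sb_sub _ _ ha)⟩
        · obtain ⟨a, ha⟩ : (sb A i).Nonempty := by
            rw [← Finset.card_pos, sb_card (by omega)]; omega
          exact ⟨a, Or.inl ha, hA (sb_sub _ _ ha)⟩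
      have hav := hnv a (ha.imp (fun h => sb_sub _ _ h) (fun h => sb_sub _ _ h))
      apply conn_star (c := a) ((hmem i a).2 (Or.inr (Or.inr ha)))
      intro u hu hne
      rcases (hmem i u).1 hu with h | h | h | h
      · subst h; exact hav.1
      · subst h; exact hav.2
      · exact hQ a haQ u (hA (sb_sub _ _ h)) hne.symm
      · exact hQ a haQ u (hB (sb_sub _ _ h)) hne.symm)
  have h3 := hf.card (fun u => ∃ p ∈ F i, (∃ q ∈ F i, P.Pr p q) ∧ P.x u < P.x p)
    (fun u => ∃ p ∈ F j, (∃ q ∈ F j, P.Pr p q) ∧ P.x u < P.x p)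
    (fun u hu => hf.ex _ _ (fun p hp => and_congr (hf.ex _ _ (fun q hq => hf.pr hp hq))
      (hf.px u hu p hp)))
  have h4 : ∀ i < n - 1,
      ((F i).filter (fun u => ∃ p ∈ F i, (∃ q ∈ F i, P.Pr p q) ∧ P.x u < P.x p)).card = i := by
    intro i hi
    have : (F i).filter (fun u => ∃ p ∈ F i, (∃ q ∈ F i, P.Pr p q) ∧ P.x u < P.x p)
        = sb A i := by
      ext u
      simp only [Finset.mem_filter]
      constructor
      · rintro ⟨hu, p, hp, ⟨q, hq, hpq⟩, hup⟩
        have hQn : ∀ a ∈ Q, (a ∈ A ∨ a ∈ B) → ∀ b ∈ F i, a ≠ b → P.Ad a b := by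
          intro a ha ha' b hb hne
          rcases (hmem i b).1 hb with h | h | h | h
          · subst h; exact (hnv a ha').1
          · subst h; exact (hnv a ha').2
          · exact hQ a ha b (hA (sb_sub _ _ h)) hne
          · exact hQ a ha b (hB (sb_sub _ _ h)) hne
        have hpv : p = v := by
          rcases (hmem i p).1 hp with h | h | h | h
          · exact h
          · subst h
            rcases (hmem i q).1 hq with h | h | h | h
            · subst h; simp only [Pr] at *; omega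
            · exact absurd h.symm hpq.ne
            · exact absurd (hQn q (hA (sb_sub _ _ h)) (Or.inl (sb_sub _ _ h)) p hp hpq.ne.symm)
                hpq.nad'
            · exact absurd (hQn q (hB (sb_sub _ _ h)) (Or.inr (sb_sub _ _ h)) p hp hpq.ne.symm)
                hpq.nad'
          · exact absurd (hQn p (hA (sb_sub _ _ h)) (Or.inl (sb_sub _ _ h)) q hq hpq.ne) hpq.nad
          · exact absurd (hQn p (hB (sb_sub _ _ h)) (Or.inr (sb_sub _ _ h)) q hq hpq.ne) hpq.nad
        subst hpv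
        rcases (hmem i u).1 hu with h | h | h | h
        · subst h; omega
        · subst h; simp only [Pr] at *; omega
        · exact h
        · have := (hBv u (sb_sub _ _ h)).1.1; omega
      · intro hu
        refine ⟨(hmem i u).2 (Or.inr (Or.inr (Or.inl hu))), v, (hmem i v).2 (Or.inl rfl),
          ⟨w, (hmem i w).2 (Or.inr (Or.inl rfl)), hvw⟩, (hAv u (sb_sub _ _ hu)).1.1⟩
    rw [this, sb_card (by omega)]
  rw [h4 i (by omega), h4 j hj] at h3
  omega

end Plot

end Pool.Agent.H175
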