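import Pool.Agent.H175.Fam

/-! Families of pairwise non-isomorphic connected `n`-sets built on chains. -/

namespace Pool.Agent.H175

open Classical

namespace Plot

variable {V : Type} {P : Plot V}

/-- LDN -/
theorem fam_bip {n : ℕ} (hn : 4 ≤ n) (hF : P.Few n) {A J : Finset V}
    (hA : P.Chain A) (hAJ : ∀ a ∈ A, ∀ j ∈ J, P.NW a j)
    (hAc : n - 1 ≤ A.card) (hJc : n - 1 ≤ J.card) : False := by
  set F : ℕ → Finset V := fun i => sb A (i + 1) ∪ sb J (n - 1 - i) with hFdef
  have hmem : ∀ i u, u ∈ F i ↔ (u ∈ sb A (i + 1) ∨ u ∈ sb J (n - 1 - i)) := by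
    intro i u
    simp only [hFdef, Finset.mem_union]
  have hneA : ∀ i < n - 1, (sb A (i + 1)).Nonempty := by
    intro i hi
    rw [← Finset.card_pos, sb_card (by omega)]; omega
  have hneJ : ∀ i < n - 1, (sb J (n - 1 - i)).Nonempty := by
    intro i hi
    rw [← Finset.card_pos, sb_card (by omega)]; omega
  obtain ⟨i, j, hij, hj, f, hf⟩ := hF F (by
    intro i hi
    refine ⟨?_, ?_⟩
    · rw [hFdef]
      simp only
      rw [Finset.card_union_of_disjoint, sb_card (by omega), sb_card (by omega)]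
      · omega
      · rw [Finset.disjoint_left]
        intro u hu hu'
        exact (hAJ u (sb_sub _ _ hu) u (sb_sub _ _ hu')).ne rfl
    · exact conn_bip (hneA i hi) (hneJ i hi)
        (fun u hu v hv => (hAJ u (sb_sub _ _ hu) v (sb_sub _ _ hv)).ad))
  have h3 := hf.card (fun u => ∃ a ∈ F i, (∀ w ∈ F i, ¬ P.x w < P.x a) ∧ P.Ad a u)
    (fun u => ∃ a ∈ F j, (∀ w ∈ F j, ¬ P.x w < P.x a) ∧ P.Ad a u)
    (fun u hu => hf.ex _ _ (fun a ha => and_congr (hf.all _ _
      (fun w hw => not_congr (hf.px w hw a ha))) (hf.ad ha hu)))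
  have h4 : ∀ i < n - 1,
      ((F i).filter (fun u => ∃ a ∈ F i, (∀ w ∈ F i, ¬ P.x w < P.x a) ∧ P.Ad a u)).card
        = n - 1 - i := by
    intro i hi
    have : (F i).filter (fun u => ∃ a ∈ F i, (∀ w ∈ F i, ¬ P.x w < P.x a) ∧ P.Ad a u)
        = sb J (n - 1 - i) := by
      ext u
      simp only [Finset.mem_filter]
      obtain ⟨a0, ha0, hmin⟩ := Finset.exists_min_image (sb A (i+1)) P.x (hneA i hi)
      constructor
      · rintro ⟨hu, a, ha, h1, h2⟩
        rcases (hmem i u).1 hu with h | h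
        · rcases (hmem i a).1 ha with h' | h'
          · exact absurd h2 (hA.nad (sb_sub _ _ h') (sb_sub _ _ h))
          · exfalso
            exact h1 a0 ((hmem i a0).2 (Or.inl ha0))
              (hAJ a0 (sb_sub _ _ ha0) a (sb_sub _ _ h')).1
        · exact h
      · intro hu
        refine ⟨(hmem i u).2 (Or.inr hu), a0, (hmem i a0).2 (Or.inl ha0), ?_,
          (hAJ a0 (sb_sub _ _ ha0) u (sb_sub _ _ hu)).ad⟩
        intro w hw
        rcases (hmem i w).1 hw with h | h
        · have := hmin w h; omega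
        · have := (hAJ a0 (sb_sub _ _ ha0) w (sb_sub _ _ h)).1; omega
    rw [this, sb_card (by omega)]
  have h5 := h4 i (by omega)
  have h6 := h4 j (by omega)
  have key : n - 1 - i = n - 1 - j := by
    rw [← h5, ← h6]; convert h3
  omega

/-- LIbeta, `v` adjacent to the centre -/
theorem fam_chA {n : ℕ} (hn : 4 ≤ n) (hF : P.Few n) {J A B : Finset V} {c v : V}
    (hJ : P.Chain J) (hc : ∀ j ∈ J, P.Ad c j) (hvJ : v ∉ J) (hvc : P.Ad v c)
    (hA : A ⊆ J) (hB : B ⊆ J) (hvA : ∀ a ∈ A, P.Ad v a) (hvB : ∀ b ∈ B, ¬ P.Ad v b)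
    (hAc : n - 2 ≤ A.card) (hBc : n - 2 ≤ B.card) : False := by
  have hcJ : c ∉ J := fun h => (hc c h).ne rfl
  set F : ℕ → Finset V := fun i => insert c (insert v (sb A i ∪ sb B (n - 2 - i))) with hFdef
  have hmem : ∀ i u, u ∈ F i ↔ (u = c ∨ u = v ∨ u ∈ sb A i ∨ u ∈ sb B (n - 2 - i)) := by
    intro i u
    simp only [hFdef, Finset.mem_union, Finset.mem_insert]
  obtain ⟨i, j, hij, hj, f, hf⟩ := hF F (by
    intro i hi
    refine ⟨?_, ?_⟩
    · rw [hFdef]
      simp only
      rw [Finset.card_insert_of_notMem, Finset.card_insert_of_notMem,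
        Finset.card_union_of_disjoint, sb_card (by omega), sb_card (by omega)]
      · omega
      · rw [Finset.disjoint_left]
        intro u hu hu'
        exact hvB u (sb_sub _ _ hu') (hvA u (sb_sub _ _ hu))
      · simp only [Finset.mem_union, not_or]
        exact ⟨fun h => hvJ (hA (sb_sub _ _ h)), fun h => hvJ (hB (sb_sub _ _ h))⟩
      · simp only [Finset.mem_union, Finset.mem_insert, not_or]
        exact ⟨hvc.ne.symm, fun h => hcJ (hA (sb_sub _ _ h)), fun h => hcJ (hB (sb_sub _ _ h))⟩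
    · apply conn_star (c := c) ((hmem i c).2 (Or.inl rfl))
      intro u hu hne
      rcases (hmem i u).1 hu with h | h | h | h
      · exact absurd h hne
      · subst h; exact hvc.symm
      · exact hc u (hA (sb_sub _ _ h))
      · exact hc u (hB (sb_sub _ _ h)))
  have h3 := hf.card (fun u => ∃ p ∈ F i, ∃ q ∈ F i, P.Ad u p ∧ P.Ad u q ∧ P.Ad p q)
    (fun u => ∃ p ∈ F j, ∃ q ∈ F j, P.Ad u p ∧ P.Ad u q ∧ P.Ad p q)
    (fun u hu => hf.ex _ _ (fun p hp => hf.ex _ _ (fun q hq => and_congr (hf.ad hu hp)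
      (and_congr (hf.ad hu hq) (hf.ad hp hq)))))
  have h4 : ((F i).filter (fun u => ∃ p ∈ F i, ∃ q ∈ F i, P.Ad u p ∧ P.Ad u q ∧ P.Ad p q)).card
      ≤ i + 2 := by
    have : (F i).filter (fun u => ∃ p ∈ F i, ∃ q ∈ F i, P.Ad u p ∧ P.Ad u q ∧ P.Ad p q)
        ⊆ insert c (insert v (sb A i)) := by
      intro u hu
      simp only [Finset.mem_filter, Finset.mem_insert] at hu ⊢
      obtain ⟨h1, p, hp, q, hq, h2, h3, h4⟩ := hu
      rcases (hmem i u).1 h1 with h | h | h | h
      · left; exact h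
      · right; left; exact h
      · right; right; exact h
      · exfalso
        have key : ∀ r ∈ F i, P.Ad u r → r = c := by
          intro r hr hur
          rcases (hmem i r).1 hr with h' | h' | h' | h'
          · exact h'
          · subst h'; exact absurd hur.symm (hvB u (sb_sub _ _ h))
          · exact absurd hur (hJ.nad (hB (sb_sub _ _ h)) (hA (sb_sub _ _ h')))
          · exact absurd hur (hJ.nad (hB (sb_sub _ _ h)) (hB (sb_sub _ _ h')))
        rw [key p hp h2, key q hq h3] at h4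
        exact h4.ne rfl
    have h5 := Finset.card_le_card this
    have h6 := Finset.card_insert_le c (insert v (sb A i))
    have h7 := Finset.card_insert_le v (sb A i)
    rw [sb_card (by omega)] at h7
    omega
  have h5 : j + 2 ≤
      ((F j).filter (fun u => ∃ p ∈ F j, ∃ q ∈ F j, P.Ad u p ∧ P.Ad u q ∧ P.Ad p q)).card := by
    have : insert c (insert v (sb A j)) ⊆
        (F j).filter (fun u => ∃ p ∈ F j, ∃ q ∈ F j, P.Ad u p ∧ P.Ad u q ∧ P.Ad p q) := by
      obtain ⟨a, ha⟩ : (sb A j).Nonempty := by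
        rw [← Finset.card_pos, sb_card (by omega)]; omega
      have haF : a ∈ F j := (hmem j a).2 (Or.inr (Or.inr (Or.inl ha)))
      have hcF : c ∈ F j := (hmem j c).2 (Or.inl rfl)
      have hvF : v ∈ F j := (hmem j v).2 (Or.inr (Or.inl rfl))
      intro u hu
      simp only [Finset.mem_filter, Finset.mem_insert] at hu ⊢
      rcases hu with h | h | h
      · subst h
        exact ⟨hcF, v, hvF, a, haF, hvc.symm, hc a (hA (sb_sub _ _ ha)), hvA a (sb_sub _ _ ha)⟩
      · subst h
        exact ⟨hvF, c, hcF, a, haF, hvc, hvA a (sb_sub _ _ ha), hc a (hA (sb_sub _ _ ha))⟩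
      · exact ⟨(hmem j u).2 (Or.inr (Or.inr (Or.inl h))), c, hcF, v, hvF,
          (hc u (hA (sb_sub _ _ h))).symm, (hvA u (sb_sub _ _ h)).symm, hvc.symm⟩
    have h6 := Finset.card_le_card this
    rw [Finset.card_insert_of_notMem, Finset.card_insert_of_notMem, sb_card (by omega)] at h6
    · omega
    · exact fun h => hvJ (hA (sb_sub _ _ h))
    · simp only [Finset.mem_insert, not_or]
      exact ⟨hvc.ne.symm, fun h => hcJ (hA (sb_sub _ _ h))⟩
  have key : ((F i).filter (fun u => ∃ p ∈ F i, ∃ q ∈ F i, P.Ad u p ∧ P.Ad u q ∧ P.Ad p q)).card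
      = ((F j).filter (fun u => ∃ p ∈ F j, ∃ q ∈ F j, P.Ad u p ∧ P.Ad u q ∧ P.Ad p q)).card := by
    convert h3
  omega

/-- LIbeta, `v` not adjacent to the centre -/
theorem fam_chB {n : ℕ} (hn : 4 ≤ n) (hF : P.Few n) {J A B : Finset V} {c v : V}
    (hJ : P.Chain J) (hc : ∀ j ∈ J, P.Ad c j) (hvJ : v ∉ J) (hvc : ¬ P.Ad v c) (hvc' : v ≠ c)
    (hA : A ⊆ J) (hB : B ⊆ J) (hvA : ∀ a ∈ A, P.Ad v a) (hvB : ∀ b ∈ B, ¬ P.Ad v b)
    (hAc : n - 2 ≤ A.card) (hBc : n - 2 ≤ B.card) (hJc : n - 1 ≤ J.card) : False := by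
  have hcJ : c ∉ J := fun h => (hc c h).ne rfl
  set F : ℕ → Finset V := fun i => if i = 0 then insert c (sb J (n - 1)) else
    insert v (insert c (sb A i ∪ sb B (n - 2 - i))) with hFdef
  have hmem0 : ∀ u, u ∈ F 0 ↔ (u = c ∨ u ∈ sb J (n - 1)) := by
    intro u
    simp only [hFdef, if_true, Finset.mem_insert]
  have hF1 : ∀ i, i ≠ 0 → F i = insert v (insert c (sb A i ∪ sb B (n - 2 - i))) := by
    intro i hi
    simp only [hFdef, if_neg hi]
  have hmem : ∀ i, i ≠ 0 → ∀ u, u ∈ F i ↔ (u = v ∨ u = c ∨ u ∈ sb A i ∨ u ∈ sb B (n - 2 - i)) := by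
    intro i hi u
    rw [hF1 i hi]
    simp only [Finset.mem_union, Finset.mem_insert]
  obtain ⟨i, j, hij, hj, f, hf⟩ := hF F (by
    intro i hi
    by_cases hi0 : i = 0
    · subst hi0
      refine ⟨?_, ?_⟩
      · simp only [hFdef, if_true]
        rw [Finset.card_insert_of_notMem (fun h => hcJ (sb_sub _ _ h)), sb_card (by omega)]
        omega
      · apply conn_star (c := c) ((hmem0 c).2 (Or.inl rfl))
        intro u hu hne
        rcases (hmem0 u).1 hu with h | h
        · exact absurd h hne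
        · exact hc u (sb_sub _ _ h)
    refine ⟨?_, ?_⟩
    · rw [hF1 i hi0]
      rw [Finset.card_insert_of_notMem, Finset.card_insert_of_notMem,
        Finset.card_union_of_disjoint, sb_card (by omega), sb_card (by omega)]
      · omega
      · rw [Finset.disjoint_left]
        intro u hu hu'
        exact hvB u (sb_sub _ _ hu') (hvA u (sb_sub _ _ hu))
      · simp only [Finset.mem_union, not_or]
        exact ⟨fun h => hcJ (hA (sb_sub _ _ h)), fun h => hcJ (hB (sb_sub _ _ h))⟩
      · simp only [Finset.mem_union, Finset.mem_insert, not_or]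
        exact ⟨hvc', fun h => hvJ (hA (sb_sub _ _ h)), fun h => hvJ (hB (sb_sub _ _ h))⟩
    · obtain ⟨a, ha⟩ : (sb A i).Nonempty := by
        rw [← Finset.card_pos, sb_card (by omega)]; omega
      rw [hF1 i hi0]
      apply conn_insert (u := a) _ (by
        simp only [Finset.mem_insert, Finset.mem_union]; exact Or.inr (Or.inl ha))
        (hvA a (sb_sub _ _ ha)).symm
      apply conn_star (c := c) (Finset.mem_insert_self _ _)
      intro u hu hne
      rcases Finset.mem_insert.1 hu with h | h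
      · exact absurd h hne
      · rcases Finset.mem_union.1 h with h | h
        · exact hc u (hA (sb_sub _ _ h))
        · exact hc u (hB (sb_sub _ _ h)))
  have h3 := hf.card (fun u => ∃ p ∈ F i, ∃ q ∈ F i, P.x p < P.x q ∧ P.Ad u p ∧ P.Ad u q)
    (fun u => ∃ p ∈ F j, ∃ q ∈ F j, P.x p < P.x q ∧ P.Ad u p ∧ P.Ad u q)
    (fun u hu => hf.ex _ _ (fun p hp => hf.ex _ _ (fun q hq => and_congr (hf.px p hp q hq)
      (and_congr (hf.ad hu hp) (hf.ad hu hq)))))
  have tw : ∀ F' : Finset V, ∀ u, (∃ p ∈ F', ∃ q ∈ F', p ≠ q ∧ P.Ad u p ∧ P.Ad u q) →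
      (∃ p ∈ F', ∃ q ∈ F', P.x p < P.x q ∧ P.Ad u p ∧ P.Ad u q) := by
    rintro F' u ⟨p, hp, q, hq, hne, h1, h2⟩
    rcases lt_or_gt_of_ne (nex (P := P) hne) with h | h
    · exact ⟨p, hp, q, hq, h, h1, h2⟩
    · exact ⟨q, hq, p, hp, h, h2, h1⟩
  -- upper bound
  have hup : ((F i).filter (fun u => ∃ p ∈ F i, ∃ q ∈ F i, P.x p < P.x q ∧ P.Ad u p ∧
      P.Ad u q)).card ≤ if i = 0 then 1 else i + 2 := by
    by_cases hi0 : i = 0
    · subst hi0
      rw [if_pos rfl]
      have : (F 0).filter (fun u => ∃ p ∈ F 0, ∃ q ∈ F 0, P.x p < P.x q ∧ P.Ad u p ∧ P.Ad u q)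
          ⊆ {c} := by
        intro u hu
        simp only [Finset.mem_filter, Finset.mem_singleton] at hu ⊢
        obtain ⟨h1, p, hp, q, hq, h2, h3, h4⟩ := hu
        rcases (hmem0 u).1 h1 with h | h
        · exact h
        · exfalso
          have key : ∀ r ∈ F 0, P.Ad u r → r = c := by
            intro r hr hur
            rcases (hmem0 r).1 hr with h' | h'
            · exact h'
            · exact absurd hur (hJ.nad (sb_sub _ _ h) (sb_sub _ _ h'))
          rw [key p hp h3, key q hq h4] at h2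
          omega
      simpa using Finset.card_le_card this
    · rw [if_neg hi0]
      have : (F i).filter (fun u => ∃ p ∈ F i, ∃ q ∈ F i, P.x p < P.x q ∧ P.Ad u p ∧ P.Ad u q)
          ⊆ insert c (insert v (sb A i)) := by
        intro u hu
        simp only [Finset.mem_filter, Finset.mem_insert] at hu ⊢
        obtain ⟨h1, p, hp, q, hq, h2, h3, h4⟩ := hu
        rcases (hmem i hi0 u).1 h1 with h | h | h | h
        · right; left; exact h
        · left; exact h
        · right; right; exact h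
        · exfalso
          have key : ∀ r ∈ F i, P.Ad u r → r = c := by
            intro r hr hur
            rcases (hmem i hi0 r).1 hr with h' | h' | h' | h'
            · subst h'; exact absurd hur.symm (hvB u (sb_sub _ _ h))
            · exact h'
            · exact absurd hur (hJ.nad (hB (sb_sub _ _ h)) (hA (sb_sub _ _ h')))
            · exact absurd hur (hJ.nad (hB (sb_sub _ _ h)) (hB (sb_sub _ _ h')))
          rw [key p hp h3, key q hq h4] at h2
          omega
      have h5 := Finset.card_le_card this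
      have h6 := Finset.card_insert_le c (insert v (sb A i))
      have h7 := Finset.card_insert_le v (sb A i)
      rw [sb_card (by omega)] at h7
      omega
  have hj0 : j ≠ 0 := by omega
  have hcF : c ∈ F j := (hmem j hj0 c).2 (Or.inr (Or.inl rfl))
  have hvF : v ∈ F j := (hmem j hj0 v).2 (Or.inl rfl)
  have haF : ∀ a ∈ sb A j, a ∈ F j :=
    fun a ha => (hmem j hj0 a).2 (Or.inr (Or.inr (Or.inl ha)))
  have hc2 : ∃ p ∈ F j, ∃ q ∈ F j, p ≠ q ∧ P.Ad c p ∧ P.Ad c q := by
    have h1 : 1 < (sb A j ∪ sb B (n - 2 - j)).card := by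
      rw [Finset.card_union_of_disjoint, sb_card (by omega), sb_card (by omega)]
      · omega
      · rw [Finset.disjoint_left]
        intro u hu hu'
        exact hvB u (sb_sub _ _ hu') (hvA u (sb_sub _ _ hu))
    obtain ⟨p, hp, q, hq, hne⟩ := Finset.one_lt_card.1 h1
    have hh : ∀ r ∈ sb A j ∪ sb B (n - 2 - j), r ∈ F j ∧ P.Ad c r := by
      intro r hr
      rcases Finset.mem_union.1 hr with h | h
      · exact ⟨haF r h, hc r (hA (sb_sub _ _ h))⟩
      · exact ⟨(hmem j hj0 r).2 (Or.inr (Or.inr (Or.inr h))), hc r (hB (sb_sub _ _ h))⟩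
    exact ⟨p, (hh p hp).1, q, (hh q hq).1, hne, (hh p hp).2, (hh q hq).2⟩
  have hA2 : ∀ a ∈ sb A j, ∃ p ∈ F j, ∃ q ∈ F j, p ≠ q ∧ P.Ad a p ∧ P.Ad a q := by
    intro a ha
    exact ⟨c, hcF, v, hvF, hvc'.symm, (hc a (hA (sb_sub _ _ ha))).symm, (hvA a (sb_sub _ _ ha)).symm⟩
  have hlow : (if i = 0 then 1 else i + 2) < ((F j).filter (fun u => ∃ p ∈ F j, ∃ q ∈ F j,
      P.x p < P.x q ∧ P.Ad u p ∧ P.Ad u q)).card := by
    by_cases hi0 : i = 0
    · rw [if_pos hi0]
      have : insert c (sb A j) ⊆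
          (F j).filter (fun u => ∃ p ∈ F j, ∃ q ∈ F j, P.x p < P.x q ∧ P.Ad u p ∧ P.Ad u q) := by
        intro u hu
        simp only [Finset.mem_filter]
        rcases Finset.mem_insert.1 hu with h | h
        · subst h; exact ⟨hcF, tw _ _ hc2⟩
        · exact ⟨haF u h, tw _ _ (hA2 u h)⟩
      have h6 := Finset.card_le_card this
      rw [Finset.card_insert_of_notMem (fun h => hcJ (hA (sb_sub _ _ h))), sb_card (by omega)] at h6
      omega
    · rw [if_neg hi0]
      have : insert c (insert v (sb A j)) ⊆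
          (F j).filter (fun u => ∃ p ∈ F j, ∃ q ∈ F j, P.x p < P.x q ∧ P.Ad u p ∧ P.Ad u q) := by
        intro u hu
        simp only [Finset.mem_filter]
        rcases Finset.mem_insert.1 hu with h | h
        · subst h; exact ⟨hcF, tw _ _ hc2⟩
        rcases Finset.mem_insert.1 h with h | h
        · subst h
          have h1 : 1 < (sb A j).card := by rw [sb_card (by omega)]; omega
          obtain ⟨p, hp, q, hq, hne⟩ := Finset.one_lt_card.1 h1
          exact ⟨hvF, tw _ _ ⟨p, haF p hp, q, haF q hq, hne, hvA p (sb_sub _ _ hp),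
            hvA q (sb_sub _ _ hq)⟩⟩
        · exact ⟨haF u h, tw _ _ (hA2 u h)⟩
      have h6 := Finset.card_le_card this
      rw [Finset.card_insert_of_notMem, Finset.card_insert_of_notMem, sb_card (by omega)] at h6
      · omega
      · exact fun h => hvJ (hA (sb_sub _ _ h))
      · simp only [Finset.mem_insert, not_or]
        exact ⟨hvc'.symm, fun h => hcJ (hA (sb_sub _ _ h))⟩
  have key : ((F i).filter (fun u => ∃ p ∈ F i, ∃ q ∈ F i, P.x p < P.x q ∧ P.Ad u p ∧
      P.Ad u q)).card = ((F j).filter (fun u => ∃ p ∈ F j, ∃ q ∈ F j, P.x p < P.x q ∧ P.Ad u p ∧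
      P.Ad u q)).card := by
    convert h3
  omega

/-- LIalpha -/
theorem fam_chC {n : ℕ} (hn : 4 ≤ n) (hF : P.Few n) {J A B : Finset V} {c v w : V}
    (hJ : P.Chain J) (hc : ∀ j ∈ J, P.Ad c j) (hvJ : v ∉ J) (hvc : P.Ad v c) (hwJ : w ∈ J)
    (hvw : P.Ad v w) (hA : A ⊆ J) (hB : B ⊆ J)
    (hvA : ∀ a ∈ A, P.Pr a v ∧ P.Pr a w) (hvB : ∀ b ∈ B, P.Pr v b ∧ P.Pr w b)
    (hAc : n - 3 ≤ A.card) (hBc : n - 3 ≤ B.card) (hJc : n - 1 ≤ J.card) : False := by
  have hcJ : c ∉ J := fun h => (hc c h).ne rfl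
  have hwA : w ∉ A := fun h => (hvA w h).2.ne rfl
  have hwB : w ∉ B := fun h => (hvB w h).2.ne rfl
  set F : ℕ → Finset V := fun i => if i = 0 then insert c (sb J (n - 1)) else
    insert v (insert c (insert w (sb A (i - 1) ∪ sb B (n - 2 - i)))) with hFdef
  have hmem0 : ∀ u, u ∈ F 0 ↔ (u = c ∨ u ∈ sb J (n - 1)) := by
    intro u
    simp only [hFdef, if_true, Finset.mem_insert]
  have hF1 : ∀ i, i ≠ 0 → F i = insert v (insert c (insert w (sb A (i - 1) ∪ sb B (n - 2 - i)))) := by
    intro i hi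
    simp only [hFdef, if_neg hi]
  have hmem : ∀ i, i ≠ 0 → ∀ u, u ∈ F i ↔ (u = v ∨ u = c ∨ u = w ∨ u ∈ sb A (i - 1) ∨
      u ∈ sb B (n - 2 - i)) := by
    intro i hi u
    rw [hF1 i hi]
    simp only [Finset.mem_union, Finset.mem_insert]
  obtain ⟨i, j, hij, hj, f, hf⟩ := hF F (by
    intro i hi
    by_cases hi0 : i = 0
    · subst hi0
      refine ⟨?_, ?_⟩
      · simp only [hFdef, if_true]
        rw [Finset.card_insert_of_notMem (fun h => hcJ (sb_sub _ _ h)), sb_card (by omega)]
        omega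
      · apply conn_star (c := c) ((hmem0 c).2 (Or.inl rfl))
        intro u hu hne
        rcases (hmem0 u).1 hu with h | h
        · exact absurd h hne
        · exact hc u (sb_sub _ _ h)
    refine ⟨?_, ?_⟩
    · rw [hF1 i hi0]
      rw [Finset.card_insert_of_notMem, Finset.card_insert_of_notMem, Finset.card_insert_of_notMem,
        Finset.card_union_of_disjoint, sb_card (by omega), sb_card (by omega)]
      · omega
      · rw [Finset.disjoint_left]
        intro u hu hu'
        have h1 := (hvA u (sb_sub _ _ hu)).1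
        have h2 := (hvB u (sb_sub _ _ hu')).1
        simp only [Pr] at *; omega
      · simp only [Finset.mem_union, not_or]
        exact ⟨fun h => hwA (sb_sub _ _ h), fun h => hwB (sb_sub _ _ h)⟩
      · simp only [Finset.mem_union, Finset.mem_insert, not_or]
        exact ⟨fun h => hcJ (h ▸ hwJ), fun h => hcJ (hA (sb_sub _ _ h)),
          fun h => hcJ (hB (sb_sub _ _ h))⟩
      · simp only [Finset.mem_union, Finset.mem_insert, not_or]
        exact ⟨hvc.ne, hvw.ne, fun h => hvJ (hA (sb_sub _ _ h)), fun h => hvJ (hB (sb_sub _ _ h))⟩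
    · apply conn_star (c := c) ((hmem i hi0 c).2 (Or.inr (Or.inl rfl)))
      intro u hu hne
      rcases (hmem i hi0 u).1 hu with h | h | h | h | h
      · subst h; exact hvc.symm
      · exact absurd h hne
      · subst h; exact hc u hwJ
      · exact hc u (hA (sb_sub _ _ h))
      · exact hc u (hB (sb_sub _ _ h)))
  have hj0 : j ≠ 0 := by omega
  have hcF : ∀ i, i ≠ 0 → c ∈ F i := fun i hi => (hmem i hi c).2 (Or.inr (Or.inl rfl))
  have hvF : ∀ i, i ≠ 0 → v ∈ F i := fun i hi => (hmem i hi v).2 (Or.inl rfl)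
  have hwF : ∀ i, i ≠ 0 → w ∈ F i := fun i hi => (hmem i hi w).2 (Or.inr (Or.inr (Or.inl rfl)))
  by_cases hi0 : i = 0
  · subst hi0
    have h1 : ∃ p ∈ F j, ∃ q ∈ F j, ∃ r ∈ F j, P.Ad p q ∧ P.Ad p r ∧ P.Ad q r :=
      ⟨c, hcF j hj0, v, hvF j hj0, w, hwF j hj0, hvc.symm, hc w hwJ, hvw⟩
    have h2 : ∃ p ∈ F 0, ∃ q ∈ F 0, ∃ r ∈ F 0, P.Ad p q ∧ P.Ad p r ∧ P.Ad q r :=
      (hf.ex _ _ (fun p hp => hf.ex _ _ (fun q hq => hf.ex _ _ (fun r hr =>
        and_congr (hf.ad hp hq) (and_congr (hf.ad hp hr) (hf.ad hq hr)))))).2 h1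
    obtain ⟨p, hp, q, hq, r, hr, h3, h4, h5⟩ := h2
    rcases (hmem0 p).1 hp with a | a <;> rcases (hmem0 q).1 hq with b | b <;>
      rcases (hmem0 r).1 hr with d | d
    · subst a; subst b; exact h3.ne rfl
    · subst a; subst b; exact h3.ne rfl
    · subst a; subst d; exact h4.ne rfl
    · exact hJ.nad (sb_sub _ _ b) (sb_sub _ _ d) h5
    · subst b; subst d; exact h5.ne rfl
    · exact hJ.nad (sb_sub _ _ a) (sb_sub _ _ d) h4
    · exact hJ.nad (sb_sub _ _ a) (sb_sub _ _ b) h3
    · exact hJ.nad (sb_sub _ _ a) (sb_sub _ _ b) h3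
  · have hpc : ∀ i, i ≠ 0 → i < n - 1 → P.pc (F i) v = i - 1 ∧ P.pc (F i) w = i - 1 ∧
        P.pc (F i) c = 0 := by
      intro i hi hi1
      have e1 : (F i).filter (fun u => P.Pr u v) = sb A (i - 1) := by
        ext u
        simp only [Finset.mem_filter]
        constructor
        · rintro ⟨hu, h⟩
          rcases (hmem i hi u).1 hu with h1 | h1 | h1 | h1 | h1
          · exact absurd h1 h.ne
          · subst h1; exact absurd hvc h.nad'
          · subst h1; exact absurd hvw h.nad'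
          · exact h1
          · have := (hvB u (sb_sub _ _ h1)).1
            simp only [Pr] at *; omega
        · intro hu
          exact ⟨(hmem i hi u).2 (Or.inr (Or.inr (Or.inr (Or.inl hu)))), (hvA u (sb_sub _ _ hu)).1⟩
      have e2 : (F i).filter (fun u => P.Pr u w) = sb A (i - 1) := by
        ext u
        simp only [Finset.mem_filter]
        constructor
        · rintro ⟨hu, h⟩
          rcases (hmem i hi u).1 hu with h1 | h1 | h1 | h1 | h1
          · subst h1; exact absurd hvw h.nad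
          · subst h1; exact absurd (hc w hwJ) h.nad
          · exact absurd h1 h.ne
          · exact h1
          · have := (hvB u (sb_sub _ _ h1)).2
            simp only [Pr] at *; omega
        · intro hu
          exact ⟨(hmem i hi u).2 (Or.inr (Or.inr (Or.inr (Or.inl hu)))), (hvA u (sb_sub _ _ hu)).2⟩
      have e3 : (F i).filter (fun u => P.Pr u c) = ∅ := by
        rw [Finset.filter_eq_empty_iff]
        intro u hu h
        rcases (hmem i hi u).1 hu with h1 | h1 | h1 | h1 | h1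
        · subst h1; exact absurd hvc h.nad
        · exact absurd h1 h.ne
        · subst h1; exact absurd (hc _ hwJ) h.nad'
        · exact absurd (hc _ (hA (sb_sub _ _ h1))) h.nad'
        · exact absurd (hc _ (hB (sb_sub _ _ h1))) h.nad'
      unfold pc
      rw [e1, e2, e3, sb_card (by omega)]
      simp
    have h1 : ∃ p ∈ F j, ∃ q ∈ F j, P.Ad p q ∧ P.pc (F j) p = j - 1 ∧ P.pc (F j) q = j - 1 :=
      ⟨v, hvF j hj0, w, hwF j hj0, hvw, (hpc j hj0 hj).1, (hpc j hj0 hj).2.1⟩
    have h2 : ∃ p ∈ F i, ∃ q ∈ F i, P.Ad p q ∧ P.pc (F i) p = j - 1 ∧ P.pc (F i) q = j - 1 :=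
      (hf.ex _ _ (fun p hp => hf.ex _ _ (fun q hq => and_congr (hf.ad hp hq)
        (and_congr (by rw [hf.pc hp]) (by rw [hf.pc hq]))))).2 h1
    obtain ⟨p, hp, q, hq, h3, h4, h5⟩ := h2
    obtain ⟨e1, e2, e3⟩ := hpc i hi0 (by omega)
    have k1 : p ≠ c := by rintro rfl; omega
    have k2 : q ≠ c := by rintro rfl; omega
    have k3 : p ≠ v := by rintro rfl; omega
    have k4 : p ≠ w := by rintro rfl; omega
    have k5 : q ≠ v := by rintro rfl; omega
    have k6 : q ≠ w := by rintro rfl; omega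
    have hJ' : ∀ u ∈ F i, u ≠ c → u ≠ v → u ≠ w → u ∈ J := by
      intro u hu a1 a2 a3
      rcases (hmem i hi0 u).1 hu with h1 | h1 | h1 | h1 | h1
      · exact absurd h1 a2
      · exact absurd h1 a1
      · exact absurd h1 a3
      · exact hA (sb_sub _ _ h1)
      · exact hB (sb_sub _ _ h1)
    exact hJ.nad (hJ' p hp k1 k3 k4) (hJ' q hq k2 k5 k6) h3

end Plot

end Pool.Agent.H175
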