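import Pool.Agent.H175.Main

/-! Growth of sum closed classes. -/

namespace Pool.Agent.H175

open Filter Topology

theorem dsum_castAdd {k m : ℕ} (α : Equiv.Perm (Fin k)) (β : Equiv.Perm (Fin m)) (i : Fin k) :
    dsum α β (Fin.castAdd m i) = Fin.castAdd m (α i) := by
  simp [dsum, Equiv.permCongr_apply]

theorem dsum_natAdd {k m : ℕ} (α : Equiv.Perm (Fin k)) (β : Equiv.Perm (Fin m)) (i : Fin m) :
    dsum α β (Fin.natAdd k i) = Fin.natAdd k (β i) := by
  simp [dsum, Equiv.permCongr_apply]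

/-- direct sum cast to a given length -/
def dcast {k m n : ℕ} (h : k + m = n) (α : Equiv.Perm (Fin k)) (β : Equiv.Perm (Fin m)) :
    Equiv.Perm (Fin n) := (finCongr h).permCongr (dsum α β)

theorem dcast_low {k m n : ℕ} (h : k + m = n) (α : Equiv.Perm (Fin k)) (β : Equiv.Perm (Fin m))
    (i : Fin n) (hi : (i : ℕ) < k) : ((dcast h α β i : Fin n) : ℕ) = (α ⟨i, hi⟩ : Fin k) := by
  subst h
  have : i = Fin.castAdd m ⟨i, hi⟩ := Fin.ext (by simp)
  conv_lhs => rw [this]
  simp only [dcast, finCongr_refl, Equiv.permCongr_apply, Equiv.refl_symm, Equiv.refl_apply,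
    dsum_castAdd, Fin.val_castAdd]

theorem dcast_high {k m n : ℕ} (h : k + m = n) (α : Equiv.Perm (Fin k)) (β : Equiv.Perm (Fin m))
    (i : Fin n) (hi : k ≤ (i : ℕ)) : ((dcast h α β i : Fin n) : ℕ) =
      k + (β ⟨(i : ℕ) - k, by have := i.2; omega⟩ : Fin m) := by
  subst h
  have : i = Fin.natAdd k ⟨(i : ℕ) - k, by have := i.2; omega⟩ := Fin.ext (by
    simp only [Fin.val_natAdd]; omega)
  conv_lhs => rw [this]
  simp only [dcast, finCongr_refl, Equiv.permCongr_apply, Equiv.refl_symm, Equiv.refl_apply,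
    dsum_natAdd, Fin.val_natAdd]

theorem mem_dcast {C : PermClass} (hs : C.SumClosed) {k m n : ℕ} (h : k + m = n)
    {α : Equiv.Perm (Fin k)} {β : Equiv.Perm (Fin m)} (hα : α ∈ C.mem k) (hβ : β ∈ C.mem m) :
    dcast h α β ∈ C.mem n := by
  subst h
  have : dcast rfl α β = dsum α β := by
    ext i; simp [dcast]
  rw [this]
  exact hs α β hα hβ

theorem dcast_k {k m k' m' n : ℕ} (h : k + m = n) (h' : k' + m' = n) {α : Equiv.Perm (Fin k)}
    {β : Equiv.Perm (Fin m)} {α' : Equiv.Perm (Fin k')} {β' : Equiv.Perm (Fin m')}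
    (hα' : Indec α') (hk : 0 < k) (e : dcast h α β = dcast h' α' β') : ¬ k < k' := by
  intro hlt
  apply split_mk α' k hk hlt _ hα'
  intro i j hi hj
  rw [Fin.lt_def]
  have hi2 := i.2
  have hj2 := j.2
  have e1 := dcast_low h' α' β' ⟨i, by omega⟩ (by simp)
  have e2 := dcast_low h' α' β' ⟨j, by omega⟩ (by simp)
  have e3 := dcast_low h α β ⟨i, by omega⟩ hi
  have e4 := dcast_high h α β ⟨j, by omega⟩ hj
  rw [e] at e3 e4
  have e5 := (α ⟨i, hi⟩).2
  simp only [Fin.eta] at e1 e2 e3 e4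
  omega

/-- the counting recurrence -/
theorem count_rec {C : PermClass} (hs : C.SumClosed) (n : ℕ) :
    ∑ k : Fin n, (C.ind (k + 1)).ncard * (C.mem (n - (k + 1))).ncard ≤ (C.mem n).ncard := by
  set S := Σ k : Fin n, (C.ind (k + 1)) × (C.mem (n - (k + 1))) with hS
  have h1 : Nat.card S = ∑ k : Fin n, (C.ind (k + 1)).ncard * (C.mem (n - (k + 1))).ncard := by
    rw [hS, Nat.card_sigma]
    apply Finset.sum_congr rfl
    intro k _
    rw [Nat.card_prod]
    rfl
  rw [← h1]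
  set f : S → C.mem n := fun q => ⟨dcast (by have := q.1.2; omega) q.2.1.1 q.2.2.1,
    mem_dcast hs _ q.2.1.2.1 q.2.2.2⟩ with hf
  have hinj : Function.Injective f := by
    rintro ⟨k, ⟨α, hα⟩, ⟨β, hβ⟩⟩ ⟨k', ⟨α', hα'⟩, ⟨β', hβ'⟩⟩ e
    simp only [hf, Subtype.mk.injEq] at e
    have h2 := dcast_k _ _ hα'.2 (by omega) e
    have h3 := dcast_k _ _ hα.2 (by omega) e.symm
    have hk : k = k' := Fin.ext (by omega)
    subst hk
    have e1 : α = α' := by
      apply Equiv.ext; intro i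
      apply Fin.ext
      have hi := i.2
      have hk := k.2
      have a1 := dcast_low (by omega : (k : ℕ) + 1 + (n - (k + 1)) = n) α β ⟨i, by omega⟩ i.2
      have a2 := dcast_low (by omega : (k : ℕ) + 1 + (n - (k + 1)) = n) α' β' ⟨i, by omega⟩ i.2
      rw [e, a2] at a1
      exact a1.symm
    have e2 : β = β' := by
      apply Equiv.ext; intro i
      apply Fin.ext
      have hi := i.2
      have hk := k.2
      have a1 := dcast_high (by omega : (k : ℕ) + 1 + (n - (k + 1)) = n) α β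
        ⟨k + 1 + i, by omega⟩ (by simp)
      have a2 := dcast_high (by omega : (k : ℕ) + 1 + (n - (k + 1)) = n) α' β'
        ⟨k + 1 + i, by omega⟩ (by simp)
      rw [e, a2] at a1
      simp only [Nat.add_sub_cancel_left, Fin.eta] at a1
      omega
    subst e1
    subst e2
    rfl
  have h2 := Nat.card_le_card_of_injective f hinj
  exact h2

/-- lower bounds for the numbers of indecomposables -/
def bb (k : ℕ) : ℕ := if k = 0 then 1 else k

theorem bb_le {C : PermClass} (hC : ∀ B : ℕ, ∃ n, B < (C.ind n).ncard) (k : ℕ) :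
    bb k ≤ (C.ind (k + 1)).ncard := by
  unfold bb
  split_ifs with h
  · subst h
    -- length one
    have h2 := main_ind C hC 2
    have h3 : 0 < (C.ind 2).ncard := by omega
    obtain ⟨τ, hτ, -⟩ := (Set.ncard_pos (Set.toFinite _)).1 h3
    have h4 : (1 : Equiv.Perm (Fin 1)) ∈ C.ind 1 := by
      refine ⟨C.closed τ 1 hτ ⟨fun _ => 0, ?_, ?_⟩, ?_⟩
      · intro i j hij
        have : i = j := Subsingleton.elim _ _
        rw [this] at hij
        exact absurd hij (lt_irrefl _)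
      · intro i j
        have : i = j := Subsingleton.elim _ _
        rw [this]
        simp
      · rintro ⟨k, m, hkm, -, -, h5, h6, -⟩
        omega
    have h5 : 0 < (C.ind 1).ncard := (Set.ncard_pos (Set.toFinite _)).2 ⟨_, h4⟩
    exact h5
  · exact main_ind C hC (k + 1)

theorem mem_pos {C : PermClass} (hC : ∀ B : ℕ, ∃ n, B < (C.ind n).ncard) (n : ℕ) :
    1 ≤ (C.mem n).ncard := by
  have hsub : ∀ k, (C.ind k).ncard ≤ (C.mem k).ncard := fun k =>
    Set.ncard_le_ncard (fun τ hτ => hτ.1) (Set.toFinite _)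
  rcases Nat.eq_zero_or_pos n with h | h
  · subst h
    have h2 : bb 0 ≤ (C.ind 1).ncard := bb_le hC 0
    have h3 : 0 < (C.ind 1).ncard := by
      have : bb 0 = 1 := rfl
      omega
    obtain ⟨τ, hτ, -⟩ := (Set.ncard_pos (Set.toFinite _)).1 h3
    have h4 : (1 : Equiv.Perm (Fin 0)) ∈ C.mem 0 :=
      C.closed τ 1 hτ ⟨Fin.elim0, fun i => i.elim0, fun i => i.elim0⟩
    exact (Set.ncard_pos (Set.toFinite _)).2 ⟨_, h4⟩
  · obtain ⟨k, rfl⟩ : ∃ k, n = k + 1 := ⟨n - 1, by omega⟩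
    have h2 := bb_le hC k
    have h3 := hsub (k + 1)
    have h4 : 1 ≤ bb k := by
      unfold bb; split_ifs <;> omega
    omega

/-- some partial sum exceeds one -/
theorem psum {τ g : ℝ} (hτ : τ ^ 3 - 3 * τ ^ 2 + 2 * τ - 1 = 0) (hg : 1 < g) (hgτ : g < τ) :
    ∃ K : ℕ, 1 ≤ ∑ k ∈ Finset.range K, (bb k : ℝ) * (g⁻¹) ^ (k + 1) := by
  set x := g⁻¹ with hx
  have hx0 : 0 < x := by positivity
  have hx1 : x < 1 := inv_lt_one_of_one_lt₀ hg
  have h1 : HasSum (fun n : ℕ => (n : ℝ) * x ^ n) (x / (1 - x) ^ 2) :=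
    hasSum_coe_mul_geometric_of_norm_lt_one (by rw [Real.norm_of_nonneg hx0.le]; exact hx1)
  have h2 : HasSum (fun k : ℕ => (k : ℝ) * x ^ (k + 1)) (x / (1 - x) ^ 2 * x) := by
    have := h1.mul_right x
    have e : (fun k : ℕ => (k : ℝ) * x ^ (k + 1)) = fun k : ℕ => (k : ℝ) * x ^ k * x := by
      funext k; rw [pow_succ]; ring
    rw [e]; exact this
  have h3 : HasSum (fun k : ℕ => (bb k : ℝ) * x ^ (k + 1)) (x + x / (1 - x) ^ 2 * x) := by
    have h4 : HasSum (fun k : ℕ => if k = 0 then x else 0) x := by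
      have := hasSum_ite_eq (0 : ℕ) x
      simpa using this
    have := h4.add h2
    have e : (fun k : ℕ => (bb k : ℝ) * x ^ (k + 1)) =
        fun k : ℕ => (if k = 0 then x else 0) + (k : ℝ) * x ^ (k + 1) := by
      funext k
      unfold bb
      by_cases hk : k = 0
      · subst hk; simp
      · simp [hk]
    rw [e]; exact this
  have hval : 1 < x + x / (1 - x) ^ 2 * x := by
    have h5 : 0 < (1 - x) ^ 2 := by
      have : 0 < 1 - x := by linarith
      positivity
    have h6 : x / (1 - x) ^ 2 * x = x ^ 2 / (1 - x) ^ 2 := by ring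
    rw [h6]
    have h7 : 1 - x < x ^ 2 / (1 - x) ^ 2 := by
      rw [lt_div_iff₀ h5]
      have h8 : g * x = 1 := mul_inv_cancel₀ (by linarith)
      -- g^3 - 3 g^2 + 2 g - 1 < 0
      have hτ1 : 1 < τ := by linarith
      have h9 : g ^ 3 - 3 * g ^ 2 + 2 * g - 1 < 0 := by
        by_cases hg2 : g ≤ 2
        · nlinarith [mul_nonneg (by linarith : (0:ℝ) ≤ g - 1) (by linarith : (0:ℝ) ≤ 2 - g)]
        · push Not at hg2
          nlinarith [mul_pos (by linarith : (0:ℝ) < τ - g) (by nlinarith : (0:ℝ) < τ ^ 2 + τ * g + g ^ 2 - 3 * (τ + g) + 2)]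
      have h10 : (1 - x) * (1 - x) ^ 2 - x ^ 2 = x ^ 3 * ((g - 1) ^ 3 - g) := by
        have : (1 - x) = x * (g - 1) := by linarith [h8]
        rw [this]
        have h11 : x ^ 3 * g = x ^ 2 := by
          calc x ^ 3 * g = x ^ 2 * (g * x) := by ring
            _ = x ^ 2 := by rw [h8]; ring
        calc x * (g - 1) * (x * (g - 1)) ^ 2 - x ^ 2 = x ^ 3 * (g - 1) ^ 3 - x ^ 3 * g := by
              rw [h11]; ring
          _ = _ := by ring
      have h12 : (g - 1) ^ 3 - g = g ^ 3 - 3 * g ^ 2 + 2 * g - 1 := by ring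
      rw [h12] at h10
      have h13 : 0 < x ^ 3 := by positivity
      nlinarith [mul_neg_of_pos_of_neg h13 h9]
    linarith
  have h4 := h3.tendsto_sum_nat
  have h5 : ∀ᶠ K in atTop, 1 < ∑ k ∈ Finset.range K, (bb k : ℝ) * x ^ (k + 1) :=
    h4.eventually (lt_mem_nhds hval)
  obtain ⟨K, hK⟩ := h5.exists
  exact ⟨K, hK.le⟩

theorem growth_lower {C : PermClass} (hs : C.SumClosed) (hC : ∀ B : ℕ, ∃ n, B < (C.ind n).ncard)
    {τ g : ℝ} (hτ : τ ^ 3 - 3 * τ ^ 2 + 2 * τ - 1 = 0) (hg : 1 < g) (hgτ : g < τ) :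
    ∃ κ : ℝ, 0 < κ ∧ ∀ n, κ * g ^ n ≤ ((C.mem n).ncard : ℝ) := by
  obtain ⟨K, hK⟩ := psum hτ hg hgτ
  have hg0 : 0 < g := by linarith
  refine ⟨(g⁻¹) ^ K, by positivity, ?_⟩
  intro n
  induction n using Nat.strong_induction_on with
  | _ n ih =>
    by_cases hn : n < K
    · have h1 : (1 : ℝ) ≤ ((C.mem n).ncard : ℝ) := by exact_mod_cast mem_pos hC n
      have h2 : (g⁻¹) ^ K * g ^ n ≤ 1 := by
        rw [inv_pow, inv_mul_le_iff₀ (by positivity), mul_one]
        exact pow_le_pow_right₀ hg.le hn.le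
      linarith
    · push Not at hn
      have h1 := count_rec hs n
      have h2 : (∑ k : Fin n, ((C.ind (k + 1)).ncard : ℝ) * ((C.mem (n - (k + 1))).ncard : ℝ))
          ≤ ((C.mem n).ncard : ℝ) := by exact_mod_cast h1
      have h3 : (∑ k : Fin n, ((C.ind (k + 1)).ncard : ℝ) * ((C.mem (n - (k + 1))).ncard : ℝ))
          = ∑ k ∈ Finset.range n, ((C.ind (k + 1)).ncard : ℝ) * ((C.mem (n - (k + 1))).ncard : ℝ) :=
        Fin.sum_univ_eq_sum_range (fun k => ((C.ind (k + 1)).ncard : ℝ) *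
          ((C.mem (n - (k + 1))).ncard : ℝ)) n
      have h4 : ∑ k ∈ Finset.range K, (bb k : ℝ) * ((g⁻¹) ^ K * g ^ (n - (k + 1))) ≤
          ∑ k ∈ Finset.range n, ((C.ind (k + 1)).ncard : ℝ) * ((C.mem (n - (k + 1))).ncard : ℝ) := by
        calc ∑ k ∈ Finset.range K, (bb k : ℝ) * ((g⁻¹) ^ K * g ^ (n - (k + 1)))
            ≤ ∑ k ∈ Finset.range K, ((C.ind (k + 1)).ncard : ℝ) *
                ((C.mem (n - (k + 1))).ncard : ℝ) := by
              apply Finset.sum_le_sum
              intro k hk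
              rw [Finset.mem_range] at hk
              have a1 : (bb k : ℝ) ≤ ((C.ind (k + 1)).ncard : ℝ) := by exact_mod_cast bb_le hC k
              have a2 := ih (n - (k + 1)) (by omega)
              exact mul_le_mul a1 a2 (by positivity) (by positivity)
          _ ≤ _ := by
              apply Finset.sum_le_sum_of_subset_of_nonneg
              · exact Finset.range_subset_range.2 hn
              · intro k _ _; positivity
      have h5 : ∑ k ∈ Finset.range K, (bb k : ℝ) * ((g⁻¹) ^ K * g ^ (n - (k + 1))) =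
          (g⁻¹) ^ K * g ^ n * ∑ k ∈ Finset.range K, (bb k : ℝ) * (g⁻¹) ^ (k + 1) := by
        rw [Finset.mul_sum]
        apply Finset.sum_congr rfl
        intro k hk
        rw [Finset.mem_range] at hk
        have : g ^ n = g ^ (n - (k + 1)) * g ^ (k + 1) := by
          rw [← pow_add]; congr 1; omega
        rw [this]
        have h6 : g ^ (k + 1) * (g⁻¹) ^ (k + 1) = 1 := by
          rw [← mul_pow, mul_inv_cancel₀ hg0.ne', one_pow]
        calc (bb k : ℝ) * ((g⁻¹) ^ K * g ^ (n - (k + 1)))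
            = (bb k : ℝ) * ((g⁻¹) ^ K * g ^ (n - (k + 1))) * (g ^ (k + 1) * (g⁻¹) ^ (k + 1)) := by
              rw [h6, mul_one]
          _ = _ := by ring
      have h6 : (g⁻¹) ^ K * g ^ n ≤ (g⁻¹) ^ K * g ^ n *
          ∑ k ∈ Finset.range K, (bb k : ℝ) * (g⁻¹) ^ (k + 1) := by
        apply le_mul_of_one_le_right (by positivity) hK
      linarith

theorem growth_root {C : PermClass} (hs : C.SumClosed) (hC : ∀ B : ℕ, ∃ n, B < (C.ind n).ncard)
    {τ : ℝ} (hτ0 : 0 < τ) (hτ : τ ^ 3 - 3 * τ ^ 2 + 2 * τ - 1 = 0) {r : ℝ} (hr : r < τ) :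
    ∀ᶠ n : ℕ in atTop, r < ((C.mem n).ncard : ℝ) ^ ((1 : ℝ) / n) := by
  have hτ2 : 2 < τ := by
    by_contra hcon
    push Not at hcon
    have : τ ^ 3 - 3 * τ ^ 2 + 2 * τ - 1 < 0 := by
      have e : τ ^ 3 - 3 * τ ^ 2 + 2 * τ - 1 = τ * (τ - 1) * (τ - 2) - 1 := by ring
      rw [e]
      rcases le_total τ 1 with h | h
      · have : τ * (1 - τ) * (2 - τ) < 1 := by
          have h1 : τ * (1 - τ) ≤ 1 / 4 := by nlinarith [sq_nonneg (τ - 1 / 2)]
          have h2 : 0 ≤ τ * (1 - τ) := mul_nonneg hτ0.le (by linarith)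
          nlinarith
        nlinarith
      · have : 0 ≤ τ * (τ - 1) * (2 - τ) :=
          mul_nonneg (mul_nonneg hτ0.le (by linarith)) (by linarith)
        nlinarith
    linarith
  set g := (max r 2 + τ) / 2 with hg
  have hm1 : r ≤ max r 2 := le_max_left _ _
  have hm2 : 2 ≤ max r 2 := le_max_right _ _
  have hm3 : max r 2 < τ := max_lt hr hτ2
  have hg1 : 1 < g := by rw [hg]; linarith
  have hgτ : g < τ := by rw [hg]; linarith
  have hrg : max r 2 < g := by rw [hg]; linarith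
  obtain ⟨κ, hκ, hb⟩ := growth_lower hs hC hτ hg1 hgτ
  set r' := max r 2 with hr'
  have hr0 : 0 < r' := by linarith
  have h1 : Tendsto (fun n : ℕ => (r' / g) ^ n) atTop (𝓝 0) :=
    tendsto_pow_atTop_nhds_zero_of_lt_one (by positivity) ((div_lt_one (by linarith)).2 hrg)
  have h2 : ∀ᶠ n : ℕ in atTop, (r' / g) ^ n < κ := h1.eventually (gt_mem_nhds hκ)
  filter_upwards [h2, eventually_ge_atTop 1] with n hn hn1
  have hg0 : 0 < g := by linarith
  have h3 : r' ^ n < ((C.mem n).ncard : ℝ) := by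
    rw [div_pow, div_lt_iff₀ (by positivity)] at hn
    exact lt_of_lt_of_le hn (hb n)
  have h4 : r' = (r' ^ n) ^ ((1 : ℝ) / n) := by
    rw [one_div, Real.pow_rpow_inv_natCast hr0.le (by omega)]
  calc r ≤ r' := hm1
    _ = (r' ^ n) ^ ((1 : ℝ) / n) := h4
    _ < _ := by
      apply Real.rpow_lt_rpow (by positivity) h3
      have : (0 : ℝ) < n := by exact_mod_cast hn1
      positivity

theorem growth_limit {C : PermClass} (hs : C.SumClosed) (hC : ∀ B : ℕ, ∃ n, B < (C.ind n).ncard)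
    {τ : ℝ} (hτ0 : 0 < τ) (hτ : τ ^ 3 - 3 * τ ^ 2 + 2 * τ - 1 = 0) {L : ℝ}
    (hL : Tendsto (fun n : ℕ => ((C.mem n).ncard : ℝ) ^ ((1 : ℝ) / n)) atTop (𝓝 L)) : τ ≤ L := by
  by_contra hcon
  push Not at hcon
  have h1 := growth_root hs hC hτ0 hτ (r := (L + τ) / 2) (by linarith)
  have h2 : ∀ᶠ n : ℕ in atTop, ((C.mem n).ncard : ℝ) ^ ((1 : ℝ) / n) < (L + τ) / 2 :=
    hL.eventually (gt_mem_nhds (by linarith))
  obtain ⟨n, h3, h4⟩ := (h1.and h2).exists
  linarith

end Pool.Agent.H175
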