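import Pool.Agent.H175.Small
import Pool.Agent.H175.Defs

/-! From permutation classes to plots. -/

namespace Pool.Agent.H175

open Classical

open Plot

/-- an injective word has a standardisation -/
theorem std {n m : ℕ} (f : Fin n → Fin m) (hf : Function.Injective f) :
    ∃ σ : Equiv.Perm (Fin n), ∀ i j, (σ i < σ j ↔ f i < f j) := by
  have hcard : (Finset.univ.image f).card = n := by
    rw [Finset.card_image_of_injective _ hf]; simp
  set o := (Finset.univ.image f).orderIsoOfFin hcard with ho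
  have hmem : ∀ i, f i ∈ Finset.univ.image f := fun i => Finset.mem_image_of_mem f (Finset.mem_univ i)
  have hbij : Function.Bijective (fun i => o.symm ⟨f i, hmem i⟩) := by
    apply (Fintype.bijective_iff_injective_and_card _).2
    refine ⟨?_, rfl⟩
    intro i j h
    have := o.symm.injective h
    simp only [Subtype.mk.injEq] at this
    exact hf this
  refine ⟨Equiv.ofBijective _ hbij, ?_⟩
  intro i j
  simp only [Equiv.ofBijective_apply, OrderIso.lt_iff_lt, Subtype.mk_lt_mk]

theorem split_mk {n : ℕ} (τ : Equiv.Perm (Fin n)) (k : ℕ) (h0 : 0 < k) (h1 : k < n)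
    (h : ∀ i j : Fin n, (i : ℕ) < k → k ≤ (j : ℕ) → τ i < τ j) : ¬ Indec τ := by
  unfold Indec
  rw [not_not]
  obtain ⟨m, hm⟩ : ∃ m, k + m = n := ⟨n - k, by omega⟩
  subst hm
  have hlow : ∀ i : Fin (k + m), (i : ℕ) < k → ((τ i : Fin (k + m)) : ℕ) < k := by
    intro i hi
    have h2 := ly (τ := τ) i
    have h3 : (Finset.univ.filter (fun u => (plt τ).y u < (plt τ).y i)) ⊆
        (Finset.univ.filter (fun u : Fin (k + m) => (u : ℕ) < k)).erase i := by
      intro u hu
      simp only [Finset.mem_filter, Finset.mem_univ, true_and, Finset.mem_erase] at hu ⊢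
      refine ⟨by rintro rfl; omega, ?_⟩
      by_contra hcon
      have := h i u hi (by omega)
      simp only [plt] at hu
      omega
    have h4 := Finset.card_le_card h3
    rw [Finset.card_erase_of_mem (by simpa using hi), cnt_lt _ _ (by omega), h2] at h4
    omega
  have hhigh : ∀ i : Fin (k + m), k ≤ (i : ℕ) → k ≤ ((τ i : Fin (k + m)) : ℕ) := by
    intro i hi
    have h2 := ly (τ := τ) i
    have h3 : (Finset.univ.filter (fun u : Fin (k + m) => (u : ℕ) < k)) ⊆
        (Finset.univ.filter (fun u => (plt τ).y u < (plt τ).y i)) := by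
      intro u hu
      simp only [Finset.mem_filter, Finset.mem_univ, true_and] at hu ⊢
      have := h u i hu hi
      simp only [plt]
      exact_mod_cast this
    have h4 := Finset.card_le_card h3
    rw [cnt_lt _ _ (by omega), h2] at h4
    exact h4
  set a : Fin k → Fin k := fun i => ⟨((τ (Fin.castAdd m i) : Fin (k + m)) : ℕ),
    hlow (Fin.castAdd m i) (by simp)⟩ with ha
  set b : Fin m → Fin m := fun i => ⟨((τ (Fin.natAdd k i) : Fin (k + m)) : ℕ) - k, by
    have := (τ (Fin.natAdd k i)).2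
    have := i.2
    omega⟩ with hb
  have ha' : Function.Bijective a := by
    apply (Fintype.bijective_iff_injective_and_card _).2
    refine ⟨?_, rfl⟩
    intro i j hij
    simp only [ha, Fin.mk.injEq] at hij
    have := τ.injective (Fin.ext hij)
    exact Fin.castAdd_injective k m this
  have hb' : Function.Bijective b := by
    apply (Fintype.bijective_iff_injective_and_card _).2
    refine ⟨?_, rfl⟩
    intro i j hij
    simp only [hb, Fin.mk.injEq] at hij
    have h5 := hhigh (Fin.natAdd k i) (by simp)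
    have h6 := hhigh (Fin.natAdd k j) (by simp)
    have := τ.injective (Fin.ext (by omega : ((τ (Fin.natAdd k i) : Fin (k + m)) : ℕ)
      = ((τ (Fin.natAdd k j) : Fin (k + m)) : ℕ)))
    exact (Fin.natAdd_inj k).1 this
  refine ⟨k, m, rfl, Equiv.ofBijective a ha', Equiv.ofBijective b hb', h0, by omega, ?_⟩
  ext i
  refine Fin.addCases (fun i => ?_) (fun i => ?_) i
  · simp [dsum, Equiv.permCongr_apply, ha]
  · have h5 := hhigh (Fin.natAdd k i) (by simp)
    simp only [dsum, Equiv.permCongr_apply, finCongr_refl, Equiv.refl_symm, Equiv.refl_apply,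
      finSumFinEquiv_symm_apply_natAdd, Equiv.sumCongr_apply, Sum.map_inr,
      Equiv.ofBijective_apply, finSumFinEquiv_apply_right, Fin.val_natAdd, hb]
    omega

theorem split_of_not {n : ℕ} {τ : Equiv.Perm (Fin n)} (h : ¬ Indec τ) :
    ∃ k, 0 < k ∧ k < n ∧ ∀ i j : Fin n, (i : ℕ) < k → k ≤ (j : ℕ) → τ i < τ j := by
  unfold Indec at h
  rw [not_not] at h
  obtain ⟨k, m, hkm, α, β, h0, h1, h2⟩ := h
  subst hkm
  refine ⟨k, h0, by omega, ?_⟩
  intro i j hi hj
  rw [← h2]
  have hi' : i = Fin.castAdd m ⟨i, hi⟩ := Fin.ext (by simp)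
  have hj' : j = Fin.natAdd k ⟨(j : ℕ) - k, by have := j.2; omega⟩ := by
    apply Fin.ext
    simp only [Fin.val_natAdd]
    omega
  rw [hi', hj']
  simp only [dsum, Equiv.permCongr_apply, finCongr_refl, Equiv.refl_symm, Equiv.refl_apply,
      finSumFinEquiv_symm_apply_natAdd, finSumFinEquiv_symm_apply_castAdd, Equiv.sumCongr_apply,
      Sum.map_inr, Sum.map_inl, finSumFinEquiv_apply_right, finSumFinEquiv_apply_left]
  rw [Fin.lt_def, Fin.val_natAdd, Fin.val_castAdd]
  have := (α ⟨i, hi⟩).2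
  omega

/-- indecomposable permutations have connected inversion graphs -/
theorem conn_of_indec {m : ℕ} {τ : Equiv.Perm (Fin m)} (h : Indec τ) :
    (plt τ).Conn Finset.univ := by
  -- it suffices to treat predicates true at the first position
  have key : ∀ p : Fin m → Prop, (∀ z : Fin m, (z : ℕ) = 0 → p z) → (∃ v, ¬ p v) →
      ∃ u v, p u ∧ ¬ p v ∧ (plt τ).Ad u v := by
    intro p hp0 hv
    by_contra hcon
    push Not at hcon
    obtain ⟨v, hv1, hv2⟩ := Finset.exists_min_image (Finset.univ.filter (fun v => ¬ p v))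
      (fun v : Fin m => (v : ℕ)) (by obtain ⟨v, hv⟩ := hv; exact ⟨v, by simpa using hv⟩)
    simp only [Finset.mem_filter, Finset.mem_univ, true_and] at hv1 hv2
    have hv0 : 0 < (v : ℕ) := by
      rcases Nat.eq_zero_or_pos (v : ℕ) with h0 | h0
      · exact absurd (hp0 v h0) hv1
      · exact h0
    have hlt : ∀ i : Fin m, (i : ℕ) < v → p i := by
      intro i hi
      by_contra h3
      have := hv2 i h3
      omega
    have hcmp : ∀ i j : Fin m, p i → ¬ p j → (plt τ).Pr i j ∨ (plt τ).Pr j i := by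
      intro i j h3 h4
      apply not_ad (P := plt τ) _ (hcon i j h3 h4)
      rintro rfl; exact h4 h3
    apply split_mk τ v hv0 v.2 _ h
    have h5 : ∀ i j : Fin m, (i : ℕ) < v → v ≤ (j : ℕ) → ¬ p j → τ i < τ j := by
      intro i j hi hj hpj
      have := hcmp i j (hlt i hi) hpj
      simp only [Pr, plt] at this
      omega
    intro i j hi hj
    by_cases hpj : p j
    · have h6 := h5 i v hi le_rfl hv1
      have h7 := hcmp j v hpj hv1
      simp only [Pr, plt] at h7
      omega
    · exact h5 i j hi hj hpj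
  rintro p ⟨u, -, hu⟩ ⟨v, -, hv⟩
  by_cases hp0 : ∀ z : Fin m, (z : ℕ) = 0 → p z
  · obtain ⟨a, b, h1, h2, h3⟩ := key p hp0 ⟨v, hv⟩
    exact ⟨a, Finset.mem_univ _, b, Finset.mem_univ _, h1, h2, h3⟩
  · push Not at hp0
    obtain ⟨z, hz, hz'⟩ := hp0
    obtain ⟨a, b, h1, h2, h3⟩ := key (fun w => ¬ p w) (by
      intro z' hz0
      have : z' = z := Fin.ext (by omega)
      rw [this]; exact hz') ⟨u, not_not.2 hu⟩
    exact ⟨b, Finset.mem_univ _, a, Finset.mem_univ _, not_not.1 h2, h1, h3.symm⟩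

/-- the pattern of `τ` on a connected set is indecomposable -/
theorem indec_of_conn {m n : ℕ} {τ : Equiv.Perm (Fin m)} {X : Finset (Fin m)}
    (hX : (plt τ).Conn X) (e : Fin n → Fin m) (he : StrictMono e) (heX : ∀ i, e i ∈ X)
    (heX' : ∀ u ∈ X, ∃ i, e i = u) (σ : Equiv.Perm (Fin n))
    (hσ : ∀ i j, (σ i < σ j ↔ τ (e i) < τ (e j))) : Indec σ := by
  by_contra hcon
  obtain ⟨k, h0, h1, h2⟩ := split_of_not hcon
  obtain ⟨u, hu, v, hv, ⟨i, hi, hi'⟩, h4, h5⟩ := hX (fun u => ∃ i : Fin n, (i : ℕ) < k ∧ e i = u)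
    ⟨e ⟨0, by omega⟩, heX _, ⟨0, by omega⟩, h0, rfl⟩
    ⟨e ⟨k, h1⟩, heX _, by
      rintro ⟨i, hi, h3⟩
      have := he.injective h3
      rw [this] at hi
      simp at hi⟩
  obtain ⟨j, hj⟩ := heX' v hv
  have hjk : k ≤ (j : ℕ) := by
    by_contra h6
    exact h4 ⟨j, by omega, hj⟩
  have h6 := (hσ i j).1 (h2 i j hi hjk)
  have h7 : e i < e j := he (show i < j from by rw [Fin.lt_def]; omega)
  rw [hi', hj] at h6 h7
  simp only [Ad, NW, plt] at h5
  omega

theorem few_of_class (C : PermClass) {n : ℕ} (hn : (C.ind n).ncard + 2 ≤ n) {m : ℕ}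
    {τ : Equiv.Perm (Fin m)} (hτ : τ ∈ C.mem m) : (plt τ).Few n := by
  intro F hF
  have hpat : ∀ i : Fin (n - 1), ∃ σ : Equiv.Perm (Fin n), σ ∈ C.ind n ∧
      ∃ e : Fin n → Fin m, StrictMono e ∧ (∀ j, e j ∈ F i) ∧ (∀ u ∈ F i, ∃ j, e j = u) ∧
        ∀ a b, (σ a < σ b ↔ τ (e a) < τ (e b)) := by
    intro i
    obtain ⟨h1, h2⟩ := hF i i.2
    set e : Fin n → Fin m := fun j => (F i).orderEmbOfFin h1 j with he
    have he1 : StrictMono e := ((F i).orderEmbOfFin h1).strictMono
    have he2 : ∀ j, e j ∈ F i := fun j => Finset.orderEmbOfFin_mem (F i) h1 j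
    have he3 : ∀ u ∈ F i, ∃ j, e j = u := by
      intro u hu
      have h3 := Finset.range_orderEmbOfFin (F i) h1
      have h4 : u ∈ Set.range ((F i).orderEmbOfFin h1) := by rw [h3]; exact hu
      exact h4
    obtain ⟨σ, hσ⟩ := std (fun j => τ (e j)) (fun a b hab => he1.injective (τ.injective hab))
    refine ⟨σ, ⟨C.closed τ σ hτ ⟨e, he1, hσ⟩, ?_⟩, e, he1, he2, he3, hσ⟩
    exact indec_of_conn h2 e he1 he2 he3 σ hσ
  choose σ hσ e he1 he2 he3 he4 using hpat
  have hni : ¬ Function.Injective (fun i : Fin (n - 1) => (⟨σ i, hσ i⟩ : C.ind n)) := by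
    intro hinj
    have h1 : Nat.card (Fin (n - 1)) ≤ (C.ind n).ncard := Nat.card_le_card_of_injective _ hinj
    rw [Nat.card_eq_fintype_card, Fintype.card_fin] at h1
    omega
  simp only [Function.Injective] at hni
  push Not at hni
  obtain ⟨i, j, hij, hne⟩ := hni
  have hij' : σ i = σ j := by simpa using hij
  have key : ∀ i j : Fin (n - 1), σ i = σ j → (plt τ).Iso (F i) (F j) := by
    intro i j hij
    obtain ⟨f, hf⟩ : ∃ f : Fin m → Fin m, ∀ a, f (e i a) = e j a := by
      refine ⟨fun u => if h : ∃ a, e i a = u then e j h.choose else u, ?_⟩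
      intro a
      have h : ∃ b, e i b = e i a := ⟨a, rfl⟩
      simp only [dif_pos h]
      congr 1
      exact (he1 i).injective h.choose_spec
    refine ⟨f, ?_, ?_, ?_, ?_⟩
    · intro u hu
      obtain ⟨a, rfl⟩ := he3 i u hu
      rw [hf]; exact he2 j a
    · intro w hw
      obtain ⟨a, rfl⟩ := he3 j w hw
      exact ⟨e i a, he2 i a, hf a⟩
    · intro u hu v hv
      obtain ⟨a, rfl⟩ := he3 i u hu
      obtain ⟨b, rfl⟩ := he3 i v hv
      rw [hf, hf]
      have h1 := (he1 i).lt_iff_lt (a := a) (b := b)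
      have h2 := (he1 j).lt_iff_lt (a := a) (b := b)
      simp only [plt]
      rw [Fin.lt_def] at h1 h2
      constructor
      · intro h; have := h2.2 (h1.1 (by exact_mod_cast h)); exact_mod_cast this
      · intro h; have := h1.2 (h2.1 (by exact_mod_cast h)); exact_mod_cast this
    · intro u hu v hv
      obtain ⟨a, rfl⟩ := he3 i u hu
      obtain ⟨b, rfl⟩ := he3 i v hv
      rw [hf, hf]
      have h1 := he4 i a b
      have h2 := he4 j a b
      rw [hij] at h1
      have h3 := h1.symm.trans h2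
      simp only [plt]
      rw [Fin.lt_def, Fin.lt_def] at h3
      exact_mod_cast h3
  rcases lt_or_gt_of_ne hne with h | h
  · exact ⟨i, j, h, j.2, key i j hij'⟩
  · exact ⟨j, i, h, i.2, key j i hij'.symm⟩

/-- If a permutation class has at most `n - 2` indecomposables of length `n`, then the numbers of
its indecomposables of all lengths are bounded by a constant that depends only on `n`. -/
theorem bounded_of_few (n : ℕ) : ∃ B : ℕ, ∀ C : PermClass, (C.ind n).ncard + 2 ≤ n →
    ∀ m, (C.ind m).ncard ≤ B := by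
  by_cases hn : 2 ≤ n
  · obtain ⟨c, hc⟩ := enc_all n hn
    refine ⟨encB c, fun C h m => ?_⟩
    exact enc_card c m (C.ind m) (fun τ hτ => hc m τ (conn_of_indec hτ.2) (few_of_class C h hτ.1))
  · exact ⟨0, fun C h => by omega⟩

theorem main_ind (C : PermClass) (hC : ∀ B : ℕ, ∃ n, B < (C.ind n).ncard) (n : ℕ) :
    n - 1 ≤ (C.ind n).ncard := by
  by_contra hcon
  obtain ⟨B, hB⟩ := bounded_of_few n
  have h1 := hB C (by omega)
  obtain ⟨m, hm⟩ := hC B
  have := h1 m
  omega

end Pool.Agent.H175
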