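import Pool.Agent.H175.Fam2

/-! Middle parts of maximal cliques and chains are intervals. -/

namespace Pool.Agent.H175

open Classical

namespace Plot

variable {V : Type} {P : Plot V}

/-- Erdos-Szekeres type bound -/
theorem es (a b : ℕ) : ∀ (S : Finset V), (∀ C ⊆ S, P.Chain C → C.card ≤ a) →
    (∀ Q ⊆ S, P.Clique Q → Q.card ≤ b) → S.card ≤ a * b := by
  induction a with
  | zero =>
    intro S hc _
    rw [Nat.zero_mul, Nat.le_zero, Finset.card_eq_zero, Finset.eq_empty_iff_forall_notMem]
    intro u hu
    have := hc {u} (by simpa using hu) (by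
      intro p hp q hq hne
      simp only [Finset.mem_singleton] at hp hq
      exact absurd (hp.trans hq.symm) hne)
    simp at this
  | succ a ih =>
    intro S hc hq
    set M := S.filter (fun u => ∀ w ∈ S, ¬ P.Pr w u) with hM
    have h1 : M.card ≤ b := by
      apply hq M (Finset.filter_subset _ _)
      intro u hu v hv hne
      simp only [hM, Finset.mem_filter] at hu hv
      by_contra hcon
      rcases not_ad hne hcon with h | h
      · exact hv.2 u hu.1 h
      · exact hu.2 v hv.1 h
    have h2 : (S \ M).card ≤ a * b := by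
      apply ih
      · intro C hC hch
        by_cases hCe : C.Nonempty
        · obtain ⟨u0, hu0, hmin⟩ := Finset.exists_min_image C P.x hCe
          have hu1 := Finset.mem_sdiff.1 (hC hu0)
          have : ∃ w ∈ S, P.Pr w u0 := by
            by_contra hcon
            push Not at hcon
            exact hu1.2 (by simp only [hM, Finset.mem_filter]; exact ⟨hu1.1, hcon⟩)
          obtain ⟨w, hw, hwu⟩ := this
          have hwC : w ∉ C := by
            intro h
            have := hmin w h
            have := hwu.1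
            omega
          have hall : ∀ v ∈ C, P.Pr w v := by
            intro v hv
            by_cases hvu : v = u0
            · rw [hvu]; exact hwu
            · have h3 := hmin v hv
              have h4 := hch v hv u0 hu0 hvu
              simp only [Pr] at *; omega
          have h5 := hc (insert w C) (by
            intro z hz
            rcases Finset.mem_insert.1 hz with h | h
            · rw [h]; exact hw
            · exact (Finset.mem_sdiff.1 (hC h)).1) (by
            intro p hp q hq hne
            rcases Finset.mem_insert.1 hp with h | h <;> rcases Finset.mem_insert.1 hq with h' | h'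
            · exact absurd (h.trans h'.symm) hne
            · subst h; left; exact hall q h'
            · subst h'; right; exact hall p h
            · exact hch p h q h' hne)
          rw [Finset.card_insert_of_notMem hwC] at h5
          omega
        · rw [Finset.not_nonempty_iff_eq_empty] at hCe
          simp [hCe]
      · intro Q hQ
        exact hq Q (hQ.trans Finset.sdiff_subset)
    have h3 : S.card = M.card + (S \ M).card := by
      have := Finset.card_sdiff_add_card_eq_card (Finset.filter_subset (fun u => ∀ w ∈ S, ¬ P.Pr w u) S)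
      rw [← this]
      rw [Nat.add_comm]
    rw [h3, Nat.succ_mul]
    omega

theorem lc_lt {J : Finset V} {u v : V} (hu : u ∈ J) (h : P.x u < P.x v) :
    P.lc J u < P.lc J v := by
  unfold lc
  apply Finset.card_lt_card
  rw [Finset.ssubset_iff_of_subset]
  · exact ⟨u, by simp only [Finset.mem_filter]; exact ⟨hu, h⟩, by simp⟩
  · intro w hw
    simp only [Finset.mem_filter] at hw ⊢
    exact ⟨hw.1, by omega⟩

noncomputable def rc (P : Plot V) (X : Finset V) (u : V) : ℕ :=
  (X.filter (fun w => P.x u < P.x w)).card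

theorem rc_lt {J : Finset V} {u v : V} (hu : u ∈ J) (h : P.x v < P.x u) :
    P.rc J u < P.rc J v := by
  unfold rc
  apply Finset.card_lt_card
  rw [Finset.ssubset_iff_of_subset]
  · exact ⟨u, by simp only [Finset.mem_filter]; exact ⟨hu, h⟩, by simp⟩
  · intro w hw
    simp only [Finset.mem_filter] at hw ⊢
    exact ⟨hw.1, by omega⟩

theorem lc_card (J : Finset V) (k : ℕ) : (J.filter (fun j => P.lc J j < k)).card ≤ k := by
  have := Finset.card_le_card_of_injOn (s := J.filter (fun j => P.lc J j < k))
    (t := Finset.range k) (P.lc J) (by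
      intro u hu
      simp only [Finset.coe_filter, Set.mem_ofPred_eq] at hu
      simp only [Finset.coe_range, Set.mem_Iio]
      exact hu.2) (by
      intro u hu v hv e
      simp only [Finset.coe_filter, Set.mem_ofPred_eq] at hu hv
      by_contra hne
      rcases lt_or_gt_of_ne (nex (P := P) hne) with h | h
      · have := lc_lt hu.1 h; omega
      · have := lc_lt hv.1 h; omega)
  simpa using this

theorem rc_card (J : Finset V) (k : ℕ) : (J.filter (fun j => P.rc J j < k)).card ≤ k := by
  have := Finset.card_le_card_of_injOn (s := J.filter (fun j => P.rc J j < k))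
    (t := Finset.range k) (P.rc J) (by
      intro u hu
      simp only [Finset.coe_filter, Set.mem_ofPred_eq] at hu
      simp only [Finset.coe_range, Set.mem_Iio]
      exact hu.2) (by
      intro u hu v hv e
      simp only [Finset.coe_filter, Set.mem_ofPred_eq] at hu hv
      by_contra hne
      rcases lt_or_gt_of_ne (nex (P := P) hne) with h | h
      · have := rc_lt hv.1 h; omega
      · have := rc_lt hu.1 h; omega)
  simpa using this

noncomputable def mid (P : Plot V) (k : ℕ) (J : Finset V) : Finset V :=
  J.filter (fun j => k ≤ P.lc J j ∧ k ≤ P.rc J j)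

theorem mid_sub (k : ℕ) (J : Finset V) : P.mid k J ⊆ J := Finset.filter_subset _ _

theorem mid_card (k : ℕ) (J : Finset V) : J.card ≤ (P.mid k J).card + 2 * k := by
  have h1 := lc_card (P := P) J k
  have h2 := rc_card (P := P) J k
  have : J ⊆ P.mid k J ∪ (J.filter (fun j => P.lc J j < k) ∪ J.filter (fun j => P.rc J j < k)) := by
    intro j hj
    simp only [mid, Finset.mem_union, Finset.mem_filter]
    by_cases h3 : P.lc J j < k
    · right; left; exact ⟨hj, h3⟩
    · by_cases h4 : P.rc J j < k
      · right; right; exact ⟨hj, h4⟩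
      · left; exact ⟨hj, by omega, by omega⟩
  have h3 := Finset.card_le_card this
  have h4 := Finset.card_union_le (P.mid k J)
    (J.filter (fun j => P.lc J j < k) ∪ J.filter (fun j => P.rc J j < k))
  have h5 := Finset.card_union_le (J.filter (fun j => P.lc J j < k))
    (J.filter (fun j => P.rc J j < k))
  omega

theorem card_sdiff_ge (A B : Finset V) : A.card ≤ (A \ B).card + B.card := by
  have := Finset.card_le_card (show A ⊆ (A \ B) ∪ B by
    intro u hu
    simp only [Finset.mem_union, Finset.mem_sdiff]
    tauto)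
  have h2 := Finset.card_union_le (A \ B) B
  omega

theorem clique_x {n : ℕ} (hn : 4 ≤ n) (hF : P.Few n) {J : Finset V} (hJ : P.Clique J)
    (hmax : ∀ v, v ∉ J → ¬ P.Clique (insert v J)) {v : V} (hv : v ∉ J)
    (hL : 2 * n ≤ (J.filter (fun j => P.x j < P.x v)).card)
    (hR : 2 * n ≤ (J.filter (fun j => P.x v < P.x j)).card) : False := by
  set L := J.filter (fun j => P.x j < P.x v) with hLd
  set R := J.filter (fun j => P.x v < P.x j) with hRd
  set B := J.filter (fun j => ¬ P.Ad v j) with hBd
  set A := J.filter (fun j => P.Ad v j) with hAd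
  have hLm : ∀ u, u ∈ L ↔ u ∈ J ∧ P.x u < P.x v := by intro u; simp [hLd]
  have hRm : ∀ u, u ∈ R ↔ u ∈ J ∧ P.x v < P.x u := by intro u; simp [hRd]
  have hBm : ∀ u, u ∈ B ↔ u ∈ J ∧ ¬ P.Ad v u := by intro u; simp [hBd]
  have hAm : ∀ u, u ∈ A ↔ u ∈ J ∧ P.Ad v u := by intro u; simp [hAd]
  have hBne : ∃ w, w ∈ J ∧ ¬ P.Ad v w := by
    by_contra hcon
    push Not at hcon
    apply hmax v hv
    intro p hp q hq hne
    rcases Finset.mem_insert.1 hp with h | h <;> rcases Finset.mem_insert.1 hq with h' | h'
    · exact absurd (h.trans h'.symm) hne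
    · subst h; exact hcon q h'
    · subst h'; exact (hcon p h).symm
    · exact hJ p h q h' hne
  obtain ⟨w, hwJ, hvw⟩ := hBne
  have hvw' : v ≠ w := by rintro rfl; exact hv hwJ
  have hA1 : A ⊆ J := fun u hu => ((hAm u).1 hu).1
  have hB1 : B ⊆ J := fun u hu => ((hBm u).1 hu).1
  rcases not_ad hvw' hvw with hpr | hpr
  · -- Pr v w
    have hLw : ∀ l ∈ L, P.NW l v ∧ P.NW l w := by
      intro l hl
      obtain ⟨h1, h2⟩ := (hLm l).1 hl
      have hne : l ≠ w := by rintro rfl; simp only [Pr] at hpr; omega
      have h3 := hJ l h1 w hwJ hne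
      simp only [Ad, NW, Pr] at *; omega
    by_cases hBc : n - 2 ≤ B.card
    · apply fam_clB hn hF hJ hA1 hB1 hv (fun a ha => ((hAm a).1 ha).2)
        (fun b hb => ((hBm b).1 hb).2) _ hBc
      have : L ⊆ A := fun l hl => (hAm l).2 ⟨((hLm l).1 hl).1, (hLw l hl).1.ad'⟩
      have := Finset.card_le_card this
      omega
    · have hRc := card_sdiff_ge R B
      refine fam_clA hn hF (A := L) (B := R \ B) hJ (fun u hu => ((hLm u).1 hu).1)
        (fun u hu => ((hRm u).1 (Finset.mem_sdiff.1 hu).1).1) hpr hLw ?_ (by omega) (by omega)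
      intro r hr
      obtain ⟨h0, h3⟩ := Finset.mem_sdiff.1 hr
      obtain ⟨h1, h2⟩ := (hRm r).1 h0
      have h4 : P.Ad v r := by
        by_contra h5
        exact h3 ((hBm r).2 ⟨h1, h5⟩)
      have hne : r ≠ w := by rintro rfl; exact hvw h4
      have h5 := hJ r h1 w hwJ hne
      simp only [Ad, NW, Pr] at *; omega
  · -- Pr w v
    have hRw : ∀ r ∈ R, P.NW w r ∧ P.NW v r := by
      intro r hr
      obtain ⟨h1, h2⟩ := (hRm r).1 hr
      have hne : r ≠ w := by rintro rfl; simp only [Pr] at hpr; omega
      have h3 := hJ r h1 w hwJ hne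
      simp only [Ad, NW, Pr] at *; omega
    by_cases hBc : n - 2 ≤ B.card
    · apply fam_clB hn hF hJ hA1 hB1 hv (fun a ha => ((hAm a).1 ha).2)
        (fun b hb => ((hBm b).1 hb).2) _ hBc
      have : R ⊆ A := fun l hl => (hAm l).2 ⟨((hRm l).1 hl).1, (hRw l hl).2.ad⟩
      have := Finset.card_le_card this
      omega
    · have hLc := card_sdiff_ge L B
      refine fam_clA hn hF (A := L \ B) (B := R) hJ
        (fun u hu => ((hLm u).1 (Finset.mem_sdiff.1 hu).1).1)
        (fun u hu => ((hRm u).1 hu).1) hpr ?_ hRw (by omega) (by omega)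
      intro r hr
      obtain ⟨h0, h3⟩ := Finset.mem_sdiff.1 hr
      obtain ⟨h1, h2⟩ := (hLm r).1 h0
      have h4 : P.Ad v r := by
        by_contra h5
        exact h3 ((hBm r).2 ⟨h1, h5⟩)
      have hne : r ≠ w := by rintro rfl; exact hvw h4
      have h5 := hJ r h1 w hwJ hne
      simp only [Ad, NW, Pr] at *; omega

theorem chain_x {n : ℕ} (hn : 4 ≤ n) (hF : P.Few n) {J : Finset V} {c : V} (hJ : P.Chain J)
    (hc : ∀ j ∈ J, P.NW j c) (hmax : ∀ v, v ∉ J → P.NW v c → ¬ P.Chain (insert v J))
    {v : V} (hv : v ∉ J) (hvc : v ≠ c)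
    (hL : 2 * n ≤ (J.filter (fun j => P.x j < P.x v)).card)
    (hR : 2 * n ≤ (J.filter (fun j => P.x v < P.x j)).card) : False := by
  set L := J.filter (fun j => P.x j < P.x v) with hLd
  set R := J.filter (fun j => P.x v < P.x j) with hRd
  set B := J.filter (fun j => ¬ P.Ad v j) with hBd
  set A := J.filter (fun j => P.Ad v j) with hAd
  have hLm : ∀ u, u ∈ L ↔ u ∈ J ∧ P.x u < P.x v := by intro u; simp [hLd]
  have hRm : ∀ u, u ∈ R ↔ u ∈ J ∧ P.x v < P.x u := by intro u; simp [hRd]
  have hBm : ∀ u, u ∈ B ↔ u ∈ J ∧ ¬ P.Ad v u := by intro u; simp [hBd]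
  have hAm : ∀ u, u ∈ A ↔ u ∈ J ∧ P.Ad v u := by intro u; simp [hAd]
  have hA1 : A ⊆ J := fun u hu => ((hAm u).1 hu).1
  have hB1 : B ⊆ J := fun u hu => ((hBm u).1 hu).1
  have hca : ∀ j ∈ J, P.Ad c j := fun j hj => (hc j hj).ad'
  have hLJ : L ⊆ J := fun u hu => ((hLm u).1 hu).1
  have hRJ : R ⊆ J := fun u hu => ((hRm u).1 hu).1
  have hJc : n - 1 ≤ J.card := by
    have := Finset.card_le_card hLJ; omega
  have hxv : P.x v < P.x c := by
    obtain ⟨r, hr⟩ : R.Nonempty := by rw [← Finset.card_pos]; omega
    obtain ⟨h1, h2⟩ := (hRm r).1 hr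
    have := (hc r h1).1
    omega
  have hyne := ney (P := P) hvc
  by_cases hyv : P.y c < P.y v
  · have hvad : P.Ad v c := Or.inl ⟨hxv, hyv⟩
    have hAne : ∃ w, w ∈ J ∧ P.Ad v w := by
      by_contra hcon
      push Not at hcon
      apply hmax v hv ⟨hxv, hyv⟩
      intro p hp q hq hne
      rcases Finset.mem_insert.1 hp with h | h <;> rcases Finset.mem_insert.1 hq with h' | h'
      · exact absurd (h.trans h'.symm) hne
      · subst h; exact not_ad hne (hcon q h')
      · subst h'; exact (not_ad hne.symm (hcon p h)).symm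
      · exact hJ p h q h' hne
    obtain ⟨w, hwJ, hvw⟩ := hAne
    rcases hvw with hnw | hnw
    · -- NW v w : w right and below
      have hLw : ∀ l ∈ L, P.Pr l v ∧ P.Pr l w := by
        intro l hl
        obtain ⟨h1, h2⟩ := (hLm l).1 hl
        have hne : l ≠ w := by rintro rfl; simp only [NW] at hnw; omega
        have h3 := hJ l h1 w hwJ hne
        simp only [NW, Pr] at *; omega
      by_cases hAc : n - 2 ≤ A.card
      · apply fam_chA hn hF hJ hca hv hvad hA1 hB1 (fun a ha => ((hAm a).1 ha).2)
          (fun b hb => ((hBm b).1 hb).2) hAc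
        have : L ⊆ B := fun l hl => (hBm l).2 ⟨((hLm l).1 hl).1, (hLw l hl).1.nad'⟩
        have := Finset.card_le_card this
        omega
      · have hRc := card_sdiff_ge R A
        refine fam_chC hn hF (A := L) (B := R \ A) hJ hca hv hvad hwJ hnw.ad hLJ
          (fun u hu => hRJ (Finset.mem_sdiff.1 hu).1) hLw ?_ (by omega) (by omega) hJc
        intro r hr
        obtain ⟨h0, h3⟩ := Finset.mem_sdiff.1 hr
        obtain ⟨h1, h2⟩ := (hRm r).1 h0
        have h4 : ¬ P.Ad v r := fun h5 => h3 ((hAm r).2 ⟨h1, h5⟩)
        have hne : r ≠ w := by rintro rfl; exact h4 hnw.ad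
        have hne' : v ≠ r := by rintro rfl; exact hv h1
        have h5 := hJ r h1 w hwJ hne
        have h6 := not_ad hne' h4
        simp only [NW, Pr] at *; omega
    · -- NW w v : w left and above
      have hRw : ∀ r ∈ R, P.Pr v r ∧ P.Pr w r := by
        intro l hl
        obtain ⟨h1, h2⟩ := (hRm l).1 hl
        have hne : l ≠ w := by rintro rfl; simp only [NW] at hnw; omega
        have h3 := hJ l h1 w hwJ hne
        simp only [NW, Pr] at *; omega
      by_cases hAc : n - 2 ≤ A.card
      · apply fam_chA hn hF hJ hca hv hvad hA1 hB1 (fun a ha => ((hAm a).1 ha).2)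
          (fun b hb => ((hBm b).1 hb).2) hAc
        have : R ⊆ B := fun l hl => (hBm l).2 ⟨((hRm l).1 hl).1, (hRw l hl).1.nad⟩
        have := Finset.card_le_card this
        omega
      · have hLc := card_sdiff_ge L A
        refine fam_chC hn hF (A := L \ A) (B := R) hJ hca hv hvad hwJ hnw.ad'
          (fun u hu => hLJ (Finset.mem_sdiff.1 hu).1) hRJ ?_ hRw (by omega) (by omega) hJc
        intro r hr
        obtain ⟨h0, h3⟩ := Finset.mem_sdiff.1 hr
        obtain ⟨h1, h2⟩ := (hLm r).1 h0
        have h4 : ¬ P.Ad v r := fun h5 => h3 ((hAm r).2 ⟨h1, h5⟩)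
        have hne : r ≠ w := by rintro rfl; exact h4 hnw.ad'
        have hne' : v ≠ r := by rintro rfl; exact hv h1
        have h5 := hJ r h1 w hwJ hne
        have h6 := not_ad hne' h4
        simp only [NW, Pr] at *; omega
  · have hprv : P.Pr v c := ⟨hxv, by omega⟩
    have h1 : L ⊆ A := by
      intro l hl
      obtain ⟨h1, h2⟩ := (hLm l).1 hl
      have h3 := hc l h1
      refine (hAm l).2 ⟨h1, Or.inr ?_⟩
      simp only [NW] at *; omega
    have h2 : R ⊆ B := by
      intro l hl
      obtain ⟨h1, h2⟩ := (hRm l).1 hl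
      have h3 := hc l h1
      refine (hBm l).2 ⟨h1, ?_⟩
      have : P.Pr v l := by simp only [NW, Pr] at *; omega
      exact this.nad
    have h3 := Finset.card_le_card h1
    have h4 := Finset.card_le_card h2
    exact fam_chB hn hF hJ hca hv hprv.nad hvc hA1 hB1 (fun a ha => ((hAm a).1 ha).2)
      (fun b hb => ((hBm b).1 hb).2) (by omega) (by omega) hJc

theorem mid_intv_clique {n : ℕ} (hn : 4 ≤ n) (hF : P.Few n) {J : Finset V} (hJ : P.Clique J)
    (hmax : ∀ v, v ∉ J → ¬ P.Clique (insert v J)) : P.Intv (P.mid (2 * n) J) := by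
  intro v hv j hj j' hj'
  have hjm := hj
  have hjm' := hj'
  simp only [mid, Finset.mem_filter] at hj hj'
  obtain ⟨a1, a2, a3⟩ := hj
  obtain ⟨b1, b2, b3⟩ := hj'
  have hvj : v ≠ j := by rintro rfl; exact hv hjm
  have hvj' : v ≠ j' := by rintro rfl; exact hv hjm'
  have n1 := nex (P := P) hvj'
  have n2 := ney (P := P) hvj'
  constructor
  · intro h1
    by_contra h2
    have h3 : P.x j' < P.x v := by omega
    have hL : P.lc J j' ≤ P.lc J v := by
      apply Finset.card_le_card
      intro u hu
      simp only [Finset.mem_filter] at hu ⊢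
      exact ⟨hu.1, by omega⟩
    have hR : P.rc J j ≤ P.rc J v := by
      apply Finset.card_le_card
      intro u hu
      simp only [Finset.mem_filter] at hu ⊢
      exact ⟨hu.1, by omega⟩
    by_cases hvJ : v ∈ J
    · apply hv
      simp only [mid, Finset.mem_filter]
      exact ⟨hvJ, by omega, by omega⟩
    · exact clique_x hn hF hJ hmax hvJ (by unfold lc at *; omega) (by unfold rc at *; omega)
  · intro h1
    by_contra h2
    have h3 : P.y j' < P.y v := by omega
    have hL : P.lc J j ≤ (J.filter (fun u => P.y v < P.y u)).card := by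
      apply Finset.card_le_card
      intro u hu
      simp only [Finset.mem_filter] at hu ⊢
      refine ⟨hu.1, ?_⟩
      have hne : u ≠ j := by rintro rfl; omega
      have := hJ u hu.1 j a1 hne
      simp only [Ad, NW] at this; omega
    have hR : P.rc J j' ≤ (J.filter (fun u => P.y u < P.y v)).card := by
      apply Finset.card_le_card
      intro u hu
      simp only [Finset.mem_filter] at hu ⊢
      refine ⟨hu.1, ?_⟩
      have hne : u ≠ j' := by rintro rfl; omega
      have := hJ u hu.1 j' b1 hne
      simp only [Ad, NW] at this; omega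
    by_cases hvJ : v ∈ J
    · apply hv
      simp only [mid, Finset.mem_filter]
      have c1 : P.x j < P.x v := by
        have := hJ v hvJ j a1 hvj
        simp only [Ad, NW] at this; omega
      have c2 : P.x v < P.x j' := by
        have := hJ v hvJ j' b1 hvj'
        simp only [Ad, NW] at this; omega
      have := lc_lt a1 c1
      have := rc_lt b1 c2
      exact ⟨hvJ, by omega, by omega⟩
    · refine clique_x (P := P.swap) hn (swap_few.2 hF) (swap_clique.2 hJ)
        (fun v hv h => hmax v hv (swap_clique.1 h)) hvJ ?_ ?_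
      · have : (J.filter (fun j => P.swap.x j < P.swap.x v)).card
          = (J.filter (fun u => P.y u < P.y v)).card := rfl
        omega
      · have : (J.filter (fun j => P.swap.x v < P.swap.x j)).card
          = (J.filter (fun u => P.y v < P.y u)).card := rfl
        omega

theorem mid_intv_chain {n : ℕ} (hn : 4 ≤ n) (hF : P.Few n) {J : Finset V} {c : V}
    (hJ : P.Chain J) (hc : ∀ j ∈ J, P.NW j c)
    (hmax : ∀ v, v ∉ J → P.NW v c → ¬ P.Chain (insert v J)) : P.Intv (P.mid (2 * n) J) := by
  intro v hv j hj j' hj'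
  have hjm := hj
  have hjm' := hj'
  simp only [mid, Finset.mem_filter] at hj hj'
  obtain ⟨a1, a2, a3⟩ := hj
  obtain ⟨b1, b2, b3⟩ := hj'
  have hvj : v ≠ j := by rintro rfl; exact hv hjm
  have hvj' : v ≠ j' := by rintro rfl; exact hv hjm'
  have n1 := nex (P := P) hvj'
  have n2 := ney (P := P) hvj'
  by_cases hvc : v = c
  · subst hvc
    have h1 := hc j a1
    have h2 := hc j' b1
    simp only [NW] at *; omega
  constructor
  · intro h1
    by_contra h2
    have h3 : P.x j' < P.x v := by omega
    have hL : P.lc J j' ≤ P.lc J v := by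
      apply Finset.card_le_card
      intro u hu
      simp only [Finset.mem_filter] at hu ⊢
      exact ⟨hu.1, by omega⟩
    have hR : P.rc J j ≤ P.rc J v := by
      apply Finset.card_le_card
      intro u hu
      simp only [Finset.mem_filter] at hu ⊢
      exact ⟨hu.1, by omega⟩
    by_cases hvJ : v ∈ J
    · apply hv
      simp only [mid, Finset.mem_filter]
      exact ⟨hvJ, by omega, by omega⟩
    · exact chain_x hn hF hJ hc hmax hvJ hvc (by unfold lc at *; omega) (by unfold rc at *; omega)
  · intro h1
    by_contra h2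
    have h3 : P.y j' < P.y v := by omega
    have hL : P.lc J j' ≤ (J.filter (fun u => P.y u < P.y v)).card := by
      apply Finset.card_le_card
      intro u hu
      simp only [Finset.mem_filter] at hu ⊢
      refine ⟨hu.1, ?_⟩
      have hne : u ≠ j' := by rintro rfl; omega
      have := hJ u hu.1 j' b1 hne
      simp only [Pr] at this; omega
    have hR : P.rc J j ≤ (J.filter (fun u => P.y v < P.y u)).card := by
      apply Finset.card_le_card
      intro u hu
      simp only [Finset.mem_filter] at hu ⊢
      refine ⟨hu.1, ?_⟩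
      have hne : u ≠ j := by rintro rfl; omega
      have := hJ u hu.1 j a1 hne
      simp only [Pr] at this; omega
    by_cases hvJ : v ∈ J
    · apply hv
      simp only [mid, Finset.mem_filter]
      have c1 : P.x v < P.x j := by
        have := hJ v hvJ j a1 hvj
        simp only [Pr] at this; omega
      have c2 : P.x j' < P.x v := by
        have := hJ v hvJ j' b1 hvj'
        simp only [Pr] at this; omega
      have := rc_lt a1 c1
      have := lc_lt b1 c2
      exact ⟨hvJ, by omega, by omega⟩
    · refine chain_x (P := P.anti) hn (anti_few.2 hF) (anti_chain.2 hJ)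
        (fun j hj => (anti_nw j c).2 (hc j hj))
        (fun v hv h0 h => hmax v hv ((anti_nw v c).1 h0) (anti_chain.1 h)) hvJ hvc ?_ ?_
      · have : (J.filter (fun j => P.anti.x j < P.anti.x v))
          = (J.filter (fun u => P.y v < P.y u)) := by
          ext u; simp [anti]
        rw [this]; omega
      · have : (J.filter (fun j => P.anti.x v < P.anti.x j))
          = (J.filter (fun u => P.y u < P.y v)) := by
          ext u; simp [anti]
        rw [this]; omega

variable [Fintype V]

theorem ext_clique {n : ℕ} (hn : 4 ≤ n) (hF : P.Few n) {Q : Finset V} (hQ : P.Clique Q) :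
    ∃ J M : Finset V, Q ⊆ J ∧ M ⊆ J ∧ P.Clique J ∧ P.Intv M ∧ J.card ≤ M.card + 4 * n := by
  obtain ⟨J, hJ, hmax⟩ := Finset.exists_max_image
    (Finset.univ.filter (fun J : Finset V => Q ⊆ J ∧ P.Clique J)) Finset.card
    ⟨Q, by simp only [Finset.mem_filter, Finset.mem_univ, true_and]; exact ⟨subset_rfl, hQ⟩⟩
  simp only [Finset.mem_filter, Finset.mem_univ, true_and] at hJ hmax
  refine ⟨J, P.mid (2 * n) J, hJ.1, mid_sub _ _, hJ.2, mid_intv_clique hn hF hJ.2 ?_, ?_⟩
  · intro v hv hcl
    have := hmax (insert v J) ⟨hJ.1.trans (Finset.subset_insert _ _), hcl⟩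
    rw [Finset.card_insert_of_notMem hv] at this
    omega
  · have := mid_card (P := P) (2 * n) J
    omega

theorem ext_chain {n : ℕ} (hn : 4 ≤ n) (hF : P.Few n) {Q : Finset V} (hQ : P.Chain Q) {c : V}
    (hc : ∀ j ∈ Q, P.NW j c) :
    ∃ J M : Finset V, Q ⊆ J ∧ M ⊆ J ∧ P.Chain J ∧ P.Intv M ∧ J.card ≤ M.card + 4 * n := by
  obtain ⟨J, hJ, hmax⟩ := Finset.exists_max_image
    (Finset.univ.filter (fun J : Finset V => Q ⊆ J ∧ P.Chain J ∧ ∀ j ∈ J, P.NW j c)) Finset.card
    ⟨Q, by simp only [Finset.mem_filter, Finset.mem_univ, true_and]; exact ⟨subset_rfl, hQ, hc⟩⟩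
  simp only [Finset.mem_filter, Finset.mem_univ, true_and] at hJ hmax
  refine ⟨J, P.mid (2 * n) J, hJ.1, mid_sub _ _, hJ.2.1,
    mid_intv_chain hn hF hJ.2.1 hJ.2.2 ?_, ?_⟩
  · intro v hv hvc hcl
    have := hmax (insert v J) ⟨hJ.1.trans (Finset.subset_insert _ _), hcl, by
      intro j hj
      rcases Finset.mem_insert.1 hj with h | h
      · rw [h]; exact hvc
      · exact hJ.2.2 j h⟩
    rw [Finset.card_insert_of_notMem hv] at this
    omega
  · have := mid_card (P := P) (2 * n) J
    omega

theorem ext_chain' {n : ℕ} (hn : 4 ≤ n) (hF : P.Few n) {Q : Finset V} (hQ : P.Chain Q) {c : V}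
    (hc : ∀ j ∈ Q, P.NW c j) :
    ∃ J M : Finset V, Q ⊆ J ∧ M ⊆ J ∧ P.Chain J ∧ P.Intv M ∧ J.card ≤ M.card + 4 * n := by
  obtain ⟨J, M, h1, h2, h3, h4, h5⟩ := ext_chain (P := P.dual) hn (dual_few.2 hF)
    (dual_chain.2 hQ) (c := c) (fun j hj => (dual_nw j c).2 (hc j hj))
  exact ⟨J, M, h1, h2, dual_chain.1 h3, dual_intv.1 h4, h5⟩

end Plot

end Pool.Agent.H175
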