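import Pool.Agent.H175.Fam2

/-! Long induced paths. -/

namespace Pool.Agent.H175

open Classical

namespace Plot

variable {V : Type} {P : Plot V}

/-- an induced path oriented to the north east -/
structure IPath (P : Plot V) (p : ℕ → V) (L : ℕ) : Prop where
  ad : ∀ i < L, P.Ad (p i) (p (i + 1))
  pr : ∀ i j, i + 2 ≤ j → j ≤ L → P.Pr (p i) (p j)

theorem IPath.inj {p : ℕ → V} {L : ℕ} (h : IPath P p L) {i j : ℕ} (hi : i ≤ L) (hj : j ≤ L)
    (e : p i = p j) : i = j := by
  by_contra hne
  rcases lt_or_gt_of_ne hne with h1 | h1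
  · by_cases h2 : i + 2 ≤ j
    · exact (h.pr i j h2 hj).ne e
    · have : j = i + 1 := by omega
      subst this
      exact (h.ad i (by omega)).ne e
  · by_cases h2 : j + 2 ≤ i
    · exact (h.pr j i h2 hi).ne e.symm
    · have : i = j + 1 := by omega
      subst this
      exact (h.ad j (by omega)).ne e.symm

theorem IPath.adj {p : ℕ → V} {L : ℕ} (h : IPath P p L) {i j : ℕ} (hi : i ≤ L) (hj : j ≤ L)
    (e : P.Ad (p i) (p j)) : j = i + 1 ∨ i = j + 1 := by
  by_contra hne
  rcases lt_trichotomy i j with h1 | h1 | h1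
  · exact (h.pr i j (by omega) hj).nad e
  · subst h1; exact e.ne rfl
  · exact (h.pr j i (by omega) hi).nad' e

noncomputable def win (p : ℕ → V) (k m : ℕ) : Finset V := (Finset.range m).image (fun i => p (k + i))

theorem mem_win {p : ℕ → V} {k m : ℕ} {u : V} : u ∈ win p k m ↔ ∃ i, k ≤ i ∧ i < k + m ∧ u = p i := by
  simp only [win, Finset.mem_image, Finset.mem_range]
  constructor
  · rintro ⟨i, hi, rfl⟩; exact ⟨k + i, by omega, by omega, rfl⟩
  · rintro ⟨i, h1, h2, rfl⟩; exact ⟨i - k, by omega, by congr 1; omega⟩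

theorem IPath.win_card {p : ℕ → V} {L : ℕ} (h : IPath P p L) {k m : ℕ} (hk : k + m ≤ L + 1) :
    (win p k m).card = m := by
  unfold win
  rw [Finset.card_image_of_injOn, Finset.card_range]
  intro i hi j hj e
  simp only [Finset.coe_range, Set.mem_Iio] at hi hj
  have := h.inj (i := k + i) (j := k + j) (by omega) (by omega) e
  omega

theorem IPath.win_conn {p : ℕ → V} {L : ℕ} (h : IPath P p L) (k : ℕ) : ∀ m, k + m ≤ L →
    P.Conn (win p k (m + 1)) := by
  intro m
  induction m with
  | zero =>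
    intro _
    have : win p k (0 + 1) = {p k} := by
      ext u; rw [mem_win, Finset.mem_singleton]
      constructor
      · rintro ⟨i, h1, h2, rfl⟩; congr 1; omega
      · rintro rfl; exact ⟨k, le_rfl, by omega, rfl⟩
    rw [this]; exact conn_singleton _
  | succ m ih =>
    intro hm
    have h1 := ih (by omega)
    have : win p k (m + 1 + 1) = insert (p (k + m + 1)) (win p k (m + 1)) := by
      ext u; rw [mem_win, Finset.mem_insert, mem_win]
      constructor
      · rintro ⟨i, h1, h2, rfl⟩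
        by_cases h3 : i = k + m + 1
        · left; rw [h3]
        · right; exact ⟨i, h1, by omega, rfl⟩
      · rintro (rfl | ⟨i, h1, h2, rfl⟩)
        · exact ⟨k + m + 1, by omega, by omega, rfl⟩
        · exact ⟨i, h1, by omega, rfl⟩
    rw [this]
    exact conn_insert h1 (u := p (k + m)) (mem_win.2 ⟨k + m, by omega, by omega, rfl⟩)
      (h.ad (k + m) (by omega))

/-- degree at least three -/
def T3 (P : Plot V) (F : Finset V) (u : V) : Prop :=
  ∃ a ∈ F, ∃ b ∈ F, ∃ c ∈ F, a ≠ b ∧ a ≠ c ∧ b ≠ c ∧ P.Ad u a ∧ P.Ad u b ∧ P.Ad u c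

theorem IsoF.t3 {X Y : Finset V} {f : V → V} (h : P.IsoF X Y f) {u : V} (hu : u ∈ X) :
    P.T3 X u ↔ P.T3 Y (f u) := by
  have hne : ∀ a ∈ X, ∀ b ∈ X, (a ≠ b ↔ f a ≠ f b) := fun a ha b hb =>
    not_congr ⟨fun e => congrArg f e, h.inj ha hb⟩
  exact h.ex _ _ (fun a ha => h.ex _ _ (fun b hb => h.ex _ _ (fun c hc =>
    and_congr (hne a ha b hb) (and_congr (hne a ha c hc) (and_congr (hne b hb c hc)
      (and_congr (h.ad hu ha) (and_congr (h.ad hu hb) (h.ad hu hc))))))))

/-- the leftmost vertex has degree at least two -/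
def D2 (P : Plot V) (F : Finset V) : Prop :=
  ∃ a ∈ F, (∀ w ∈ F, ¬ P.x w < P.x a) ∧ ∃ b ∈ F, ∃ c ∈ F, P.x b < P.x c ∧ P.Ad a b ∧ P.Ad a c

theorem IsoF.d2 {X Y : Finset V} {f : V → V} (h : P.IsoF X Y f) : P.D2 X ↔ P.D2 Y :=
  h.ex _ _ (fun a ha => and_congr (h.all _ _ (fun w hw => not_congr (h.px w hw a ha)))
    (h.ex _ _ (fun b hb => h.ex _ _ (fun c hc => and_congr (h.px b hb c hc)
      (and_congr (h.ad ha hb) (h.ad ha hc))))))

theorem IPath.d2 {p : ℕ → V} {L : ℕ} (h : IPath P p L) {k m : ℕ} (hm : 3 ≤ m)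
    (hk : k + m ≤ L + 1) : P.D2 (win p k m) ↔ P.NW (p (k + 1)) (p k) := by
  have e0 := h.ad k (by omega)
  have e1 : P.Ad (p (k + 1)) (p (k + 2)) := h.ad (k + 1) (by omega)
  have e2 := h.pr k (k + 2) (by omega) (by omega)
  constructor
  · rintro ⟨a, ha, h1, b, hb, c, hc, h2, h3, h4⟩
    by_contra hcon
    have hnw : P.NW (p k) (p (k + 1)) := by
      rcases e0 with h | h
      · exact h
      · exact absurd h hcon
    obtain ⟨i, hi1, hi2, rfl⟩ := mem_win.1 ha
    have hik : i = k := by
      by_contra hne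
      apply h1 (p k) (mem_win.2 ⟨k, le_rfl, by omega, rfl⟩)
      by_cases h5 : i = k + 1
      · subst h5; exact hnw.1
      · exact (h.pr k i (by omega) (by omega)).1
    subst hik
    obtain ⟨b', hb1, hb2, rfl⟩ := mem_win.1 hb
    obtain ⟨c', hc1, hc2, rfl⟩ := mem_win.1 hc
    have h5 := h.adj (by omega) (by omega) h3
    have h6 := h.adj (by omega) (by omega) h4
    have h7 : b' = c' := by omega
    subst h7
    omega
  · intro hnw
    have hnw2 : P.NW (p (k + 1)) (p (k + 2)) := by
      simp only [Pr, Ad, NW] at *; omega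
    refine ⟨p (k + 1), mem_win.2 ⟨k + 1, by omega, by omega, rfl⟩, ?_, ?_⟩
    · intro w hw
      obtain ⟨i, hi1, hi2, rfl⟩ := mem_win.1 hw
      by_cases h5 : i = k
      · subst h5; have := hnw.1; omega
      · by_cases h6 : i = k + 1
        · subst h6; omega
        · by_cases h7 : i = k + 2
          · subst h7; have := hnw2.1; omega
          · have := (h.pr (k + 1) i (by omega) (by omega)).1; omega
    · have m1 : p k ∈ win p k m := mem_win.2 ⟨k, by omega, by omega, rfl⟩
      have m2 : p (k + 2) ∈ win p k m := mem_win.2 ⟨k + 2, by omega, by omega, rfl⟩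
      exact ⟨p k, m1, p (k + 2), m2, e2.1, hnw.ad, hnw2.ad⟩

theorem IPath.no_t3 {p : ℕ → V} {L : ℕ} (h : IPath P p L) {F : Finset V} {j : ℕ} (hj : j ≤ L)
    (hF : ∀ u ∈ F, P.Ad (p j) u → ∃ i ≤ L, u = p i) : ¬ P.T3 F (p j) := by
  rintro ⟨a, ha, b, hb, c, hc, h1, h2, h3, h4, h5, h6⟩
  obtain ⟨a', ha1, rfl⟩ := hF a ha h4
  obtain ⟨b', hb1, rfl⟩ := hF b hb h5
  obtain ⟨c', hc1, rfl⟩ := hF c hc h6
  have k1 := h.adj hj ha1 h4
  have k2 := h.adj hj hb1 h5
  have k3 := h.adj hj hc1 h6
  have k4 : a' ≠ b' := fun e => h1 (by rw [e])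
  have k5 : a' ≠ c' := fun e => h2 (by rw [e])
  have k6 : b' ≠ c' := fun e => h3 (by rw [e])
  omega

/-- L3 -/
theorem fam_path {n : ℕ} (hn : 4 ≤ n) (hF : P.Few n) {p : ℕ → V} {L : ℕ} (h : IPath P p L)
    {v : V} (hvP : ∀ i ≤ L, v ≠ p i) {t : ℕ} (ht1 : n - 3 ≤ t) (ht2 : 2 ≤ t)
    (ht3 : t + n - 3 ≤ L) (hL : n ≤ L) (hvt : P.Ad v (p t)) (hv : ∀ i < t, ¬ P.Ad v (p i)) :
    False := by
  -- all earlier path vertices precede `v`
  have hcmp : ∀ i < t, P.Pr (p i) v ∨ P.Pr v (p i) := by
    intro i hi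
    exact (not_ad (hvP i (by omega)) (hv i hi)).symm
  have hpv : ∀ i < t, P.Pr (p i) v := by
    intro i hi
    by_contra hcon
    have h1 : P.Pr v (p i) := (hcmp i hi).resolve_left hcon
    have h2 : ∀ k ≤ i, P.Pr v (p (i - k)) := by
      intro k
      induction k with
      | zero => intro _; exact h1
      | succ k ih =>
        intro hk
        have h3 := ih (by omega)
        rcases hcmp (i - (k + 1)) (by omega) with h4 | h4
        · exfalso
          have h5 := h.ad (i - (k + 1)) (by omega)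
          have h6 : i - (k + 1) + 1 = i - k := by omega
          rw [h6] at h5
          simp only [Pr, Ad, NW] at *; omega
        · exact h4
    have h3 := h2 i le_rfl
    rw [Nat.sub_self] at h3
    have h4 := h.pr 0 t (by omega) (by omega)
    simp only [Pr, Ad, NW] at *; omega
  set F : ℕ → Finset V := fun i => if i = 0 then win p 0 n else if i = 1 then win p 1 n else
    insert v (win p (t + 1 - i) (n - 1)) with hFdef
  have hF0 : F 0 = win p 0 n := by simp [hFdef]
  have hF1 : F 1 = win p 1 n := by simp [hFdef]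
  have hF2 : ∀ i, 2 ≤ i → F i = insert v (win p (t + 1 - i) (n - 1)) := by
    intro i hi
    simp only [hFdef]
    rw [if_neg (by omega), if_neg (by omega)]
  have hmem : ∀ i, 2 ≤ i → ∀ u, u ∈ F i ↔ u = v ∨ ∃ l, t + 1 - i ≤ l ∧ l < t + 1 - i + (n - 1) ∧
      u = p l := by
    intro i hi u
    rw [hF2 i hi, Finset.mem_insert, mem_win]
  have hnot : ∀ k m, k + m ≤ L + 1 → v ∉ win p k m := by
    intro k m hkm hv'
    obtain ⟨i, h1, h2, h3⟩ := mem_win.1 hv'
    exact hvP i (by omega) h3
  obtain ⟨i, j, hij, hj, f, hf⟩ := hF F (by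
    intro i hi
    by_cases h0 : i = 0
    · subst h0; rw [hF0]
      refine ⟨h.win_card (by omega), ?_⟩
      have := h.win_conn 0 (n - 1) (by omega)
      rwa [show n - 1 + 1 = n by omega] at this
    by_cases h1 : i = 1
    · subst h1; rw [hF1]
      refine ⟨h.win_card (by omega), ?_⟩
      have := h.win_conn 1 (n - 1) (by omega)
      rwa [show n - 1 + 1 = n by omega] at this
    rw [hF2 i (by omega)]
    refine ⟨?_, ?_⟩
    · rw [Finset.card_insert_of_notMem (hnot _ _ (by omega)), h.win_card (by omega)]; omega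
    · have := h.win_conn (t + 1 - i) (n - 2) (by omega)
      rw [show n - 2 + 1 = n - 1 by omega] at this
      exact conn_insert this (u := p t) (mem_win.2 ⟨t, by omega, by omega, rfl⟩) hvt.symm)
  have htT : ∀ i, 2 ≤ i → i < n - 1 → p t ∈ F i ∧ P.T3 (F i) (p t) := by
    intro i hi hi'
    have m0 : p t ∈ F i := (hmem i hi _).2 (Or.inr ⟨t, by omega, by omega, rfl⟩)
    have m1 : p (t - 1) ∈ F i := (hmem i hi _).2 (Or.inr ⟨t - 1, by omega, by omega, rfl⟩)
    have m2 : p (t + 1) ∈ F i := (hmem i hi _).2 (Or.inr ⟨t + 1, by omega, by omega, rfl⟩)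
    have m3 : v ∈ F i := (hmem i hi _).2 (Or.inl rfl)
    refine ⟨m0, p (t - 1), m1, p (t + 1), m2, v, m3, ?_, ?_, ?_, ?_, ?_, hvt.symm⟩
    · exact (h.pr (t - 1) (t + 1) (by omega) (by omega)).ne
    · exact (hvP (t - 1) (by omega)).symm
    · exact (hvP (t + 1) (by omega)).symm
    · have := h.ad (t - 1) (by omega)
      rw [show t - 1 + 1 = t by omega] at this
      exact this.symm
    · exact h.ad t (by omega)
  have hwinT : ∀ k m, k + m ≤ L + 1 → ∀ u ∈ win p k m, ¬ P.T3 (win p k m) u := by
    intro k m hkm u hu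
    obtain ⟨i, h1, h2, rfl⟩ := mem_win.1 hu
    apply h.no_t3 (by omega)
    intro w hw _
    obtain ⟨i', h1', h2', rfl⟩ := mem_win.1 hw
    exact ⟨i', by omega, rfl⟩
  by_cases hj1 : j = 1
  · have hi0 : i = 0 := by omega
    subst hj1; subst hi0
    have h1 := hf.d2
    rw [hF0, hF1, h.d2 (by omega) (by omega), h.d2 (by omega) (by omega)] at h1
    have e0 := h.ad 0 (by omega)
    have e1 := h.ad 1 (by omega)
    have e2 := h.pr 0 2 (by omega) (by omega)
    simp only [Nat.zero_add] at h1 e0 e1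
    have h2 : (1 : ℕ) + 1 = 2 := rfl
    rw [h2] at h1 e1
    simp only [Pr, Ad, NW] at *; omega
  · have hj2 : 2 ≤ j := by omega
    by_cases hi1 : i < 2
    · -- no T3 in F i
      have h1 : ∃ u ∈ F j, P.T3 (F j) u := ⟨p t, htT j hj2 hj⟩
      have h2 : ∃ u ∈ F i, P.T3 (F i) u := (hf.ex _ _ (fun u hu => hf.t3 hu)).2 h1
      obtain ⟨u, hu, h3⟩ := h2
      have : i = 0 ∨ i = 1 := by omega
      rcases this with h0 | h0
      · subst h0; rw [hF0] at hu h3
        exact hwinT 0 n (by omega) u hu h3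
      · subst h0; rw [hF1] at hu h3
        exact hwinT 1 n (by omega) u hu h3
    · have hi2 : 2 ≤ i := by omega
      obtain ⟨m0, m1⟩ := htT i hi2 (by omega)
      have hpc : P.pc (F i) (p t) = i - 2 := by
        have : (F i).filter (fun u => P.Pr u (p t)) = win p (t + 1 - i) (i - 2) := by
          ext u
          rw [Finset.mem_filter, hmem i hi2, mem_win]
          constructor
          · rintro ⟨h1 | ⟨l, h1, h2, rfl⟩, h3⟩
            · subst h1; exact absurd hvt h3.nad
            · refine ⟨l, h1, ?_, rfl⟩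
              by_contra hcon
              by_cases h4 : l + 1 = t
              · subst h4
                exact h3.nad (h.ad l (by omega))
              · by_cases h5 : l = t
                · subst h5; exact h3.ne rfl
                · by_cases h6 : l = t + 1
                  · subst h6; exact h3.nad' (h.ad t (by omega))
                  · have h7 := h.pr t l (by omega) (by omega)
                    simp only [Pr] at *; omega
          · rintro ⟨l, h1, h2, rfl⟩
            exact ⟨Or.inr ⟨l, h1, by omega, rfl⟩, h.pr l t (by omega) (by omega)⟩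
        unfold pc
        rw [this, h.win_card (by omega)]
      have hpc' := hf.pc m0
      rw [hpc] at hpc'
      have hT' := (hf.t3 m0).1 m1
      have hm' := hf.maps _ m0
      have hlow : win p (t + 1 - j) (j - 2) ⊆ (F j).filter (fun u => P.Pr u (f (p t))) := by
        intro u hu
        obtain ⟨l, h1, h2, rfl⟩ := mem_win.1 hu
        rw [Finset.mem_filter]
        refine ⟨(hmem j hj2 _).2 (Or.inr ⟨l, h1, by omega, rfl⟩), ?_⟩
        rcases (hmem j hj2 _).1 hm' with h3 | ⟨r, h3, h4, h5⟩
        · rw [h3]; exact hpv l (by omega)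
        · rw [h5]
          rw [h5] at hT'
          have hr : t ≤ r := by
            by_contra hcon
            refine h.no_t3 (by omega) ?_ hT'
            intro w hw hadw
            rcases (hmem j hj2 w).1 hw with h6 | ⟨s, h6, h7, h8⟩
            · subst h6; exact absurd hadw.symm (hv r (by omega))
            · exact ⟨s, by omega, h8⟩
          exact h.pr l r (by omega) (by omega)
      have h3 := Finset.card_le_card hlow
      rw [h.win_card (by omega)] at h3
      have h4 : P.pc (F j) (f (p t)) = ((F j).filter (fun u => P.Pr u (f (p t)))).card := rfl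
      omega

end Plot

end Pool.Agent.H175
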