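import Pool.Agent.H175.Code

/-! The cases `n = 2` and `n = 3`, and the combined structure theorem. -/

namespace Pool.Agent.H175

open Classical

namespace Plot

variable {V : Type} [Fintype V] {P : Plot V}

omit [Fintype V] in
theorem few3 (hF : P.Few 3) {X Y : Finset V} (hX : X.card = 3) (hX' : P.Conn X)
    (hY : Y.card = 3) (hY' : P.Conn Y) : P.Iso X Y := by
  obtain ⟨i, j, hij, hj, h⟩ := hF (fun i => if i = 0 then X else Y) (by
    intro i _
    by_cases h : i = 0
    · simp only [if_pos h]; exact ⟨hX, hX'⟩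
    · simp only [if_neg h]; exact ⟨hY, hY'⟩)
  have h0 : i = 0 := by omega
  have h1 : j ≠ 0 := by omega
  simp only [if_pos h0, if_neg h1] at h
  exact h

omit [Fintype V] in
theorem tri_conn {u v w : V} (h1 : P.Ad u v) (h2 : P.Ad v w) (hne : u ≠ w) :
    ({u, v, w} : Finset V).card = 3 ∧ P.Conn {u, v, w} := by
  refine ⟨Finset.card_eq_three.2 ⟨u, v, w, h1.ne, hne, h2.ne, rfl⟩, ?_⟩
  apply conn_star (c := v) (by simp)
  intro a ha hav
  simp only [Finset.mem_insert, Finset.mem_singleton] at ha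
  rcases ha with h | h | h
  · rw [h]; exact h1.symm
  · exact absurd h hav
  · rw [h]; exact h2

theorem clique_univ (hcon : P.Conn Finset.univ)
    (H : ∀ u v w, P.Ad u v → P.Ad v w → u ≠ w → P.Ad u w) : P.Clique Finset.univ := by
  intro u _ w _ huw
  by_contra hcon'
  obtain ⟨a, -, b, -, h1, h2, h3⟩ := hcon (fun v => v = u ∨ P.Ad u v) ⟨u, Finset.mem_univ _, Or.inl rfl⟩
    ⟨w, Finset.mem_univ _, by
      rintro (h | h)
      · exact huw h.symm
      · exact hcon' h⟩
  simp only [not_or] at h2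
  rcases h1 with h1 | h1
  · rw [h1] at h3; exact h2.2 h3
  · exact h2.2 (H u a b h1 h3 (fun e => h2.1 e.symm))

theorem star_struct (hF : P.Few 3) (hcon : P.Conn Finset.univ)
    (hnt : ∀ a b c, P.Ad a b → P.Ad b c → a ≠ c → ¬ P.Ad a c) {u0 v0 w0 : V}
    (h0 : P.NW u0 v0) (h0' : P.NW w0 v0) (hne0 : u0 ≠ w0) :
    ∃ J : Finset V, (Finset.univ \ J).card ≤ 1 ∧ P.Intv J ∧ P.Chain J := by
  have hX := tri_conn h0.ad h0'.ad' hne0
  -- every centre of a path is south east of both ends
  have hse : ∀ u v w, P.Ad u v → P.Ad v w → u ≠ w → P.NW u v ∧ P.NW w v := by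
    intro u v w h1 h2 hne
    have hY := tri_conn h1 h2 hne
    obtain ⟨f, hf⟩ := few3 hF hX.1 hX.2 hY.1 hY.2
    have m1 : u0 ∈ ({u0, v0, w0} : Finset V) := by simp
    have m2 : v0 ∈ ({u0, v0, w0} : Finset V) := by simp
    have m3 : w0 ∈ ({u0, v0, w0} : Finset V) := by simp
    have a1 := (hf.nw m1 m2).1 h0
    have a2 := (hf.nw m3 m2).1 h0'
    have a3 : f u0 ≠ f w0 := fun e => hne0 (hf.inj m1 m3 e)
    have b1 := hf.maps _ m1
    have b2 := hf.maps _ m2
    have b3 := hf.maps _ m3
    have hnad := hnt u v w h1 h2 hne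
    simp only [Finset.mem_insert, Finset.mem_singleton] at b1 b2 b3
    have c2 : f v0 = v := by
      rcases b2 with b2 | b2 | b2
      · exfalso
        rw [b2] at a1 a2
        rcases b1 with b1 | b1 | b1
        · rw [b1] at a1; exact a1.ne rfl
        · rcases b3 with b3 | b3 | b3
          · rw [b3] at a2; exact a2.ne rfl
          · exact a3 (b1.trans b3.symm)
          · rw [b3] at a2; exact hnad a2.ad'
        · rw [b1] at a1; exact hnad a1.ad'
      · exact b2
      · exfalso
        rw [b2] at a1 a2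
        rcases b1 with b1 | b1 | b1
        · rw [b1] at a1; exact hnad a1.ad
        · rcases b3 with b3 | b3 | b3
          · rw [b3] at a2; exact hnad a2.ad
          · exact a3 (b1.trans b3.symm)
          · rw [b3] at a2; exact a2.ne rfl
        · rw [b1] at a1; exact a1.ne rfl
    rw [c2] at a1 a2
    rcases b1 with b1 | b1 | b1
    · rw [b1] at a1
      rcases b3 with b3 | b3 | b3
      · exact absurd (b1.trans b3.symm) a3
      · rw [b3] at a2; exact absurd rfl a2.ne
      · rw [b3] at a2; exact ⟨a1, a2⟩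
    · rw [b1] at a1; exact absurd rfl a1.ne
    · rw [b1] at a1
      rcases b3 with b3 | b3 | b3
      · rw [b3] at a2; exact ⟨a2, a1⟩
      · rw [b3] at a2; exact absurd rfl a2.ne
      · exact absurd (b1.trans b3.symm) a3
  have hall : ∀ w, w ≠ v0 → P.NW w v0 := by
    intro w hw
    by_contra hcon'
    obtain ⟨a, -, b, -, h1, h2, h3⟩ := hcon (fun v => v = v0 ∨ P.NW v v0)
      ⟨v0, Finset.mem_univ _, Or.inl rfl⟩ ⟨w, Finset.mem_univ _, by
        rintro (h | h)
        · exact hw h
        · exact hcon' h⟩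
    simp only [not_or] at h2
    rcases h1 with h1 | h1
    · rw [h1] at h3
      by_cases hbu : u0 = b
      · rw [hbu] at h0; exact h2.2 h0
      · exact h2.2 (hse u0 v0 b h0.ad h3 hbu).2
    · have h4 := (hse v0 a b h1.ad' h3 (fun e => h2.1 e.symm)).1
      simp only [NW] at *; omega
  refine ⟨Finset.univ.erase v0, ?_, ?_, ?_⟩
  · have : Finset.univ \ (Finset.univ.erase v0) ⊆ {v0} := by
      intro u hu
      simpa using hu
    simpa using Finset.card_le_card this
  · intro v hv j hj j' hj'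
    have hv' : v = v0 := by simpa using hv
    simp only [Finset.mem_erase, Finset.mem_univ, and_true] at hj hj'
    rw [hv']
    have h1 := hall j hj
    have h2 := hall j' hj'
    simp only [NW] at *; omega
  · intro u hu v hv hne
    simp only [Finset.mem_erase, Finset.mem_univ, and_true] at hu hv
    apply not_ad hne
    exact hnt u v0 v (hall u hu).ad (hall v hv).ad' hne

theorem struct3 (hF : P.Few 3) (hcon : P.Conn Finset.univ) :
    ∃ J : Finset V, (Finset.univ \ J).card ≤ 1 ∧ P.Intv J ∧ (P.Clique J ∨ P.Chain J) := by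
  by_cases H : ∀ u v w, P.Ad u v → P.Ad v w → u ≠ w → P.Ad u w
  · exact ⟨Finset.univ, by simp, fun v hv => absurd (Finset.mem_univ v) hv,
      Or.inl (clique_univ hcon H)⟩
  · push Not at H
    obtain ⟨u0, v0, w0, h1, h2, hne, hnad⟩ := H
    have hX := tri_conn h1 h2 hne
    have hnt : ∀ a b c, P.Ad a b → P.Ad b c → a ≠ c → ¬ P.Ad a c := by
      intro a b c k1 k2 k3 k4
      have hY := tri_conn k1 k2 k3
      obtain ⟨f, hf⟩ := few3 hF hX.1 hX.2 hY.1 hY.2
      have m1 : u0 ∈ ({u0, v0, w0} : Finset V) := by simp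
      have m3 : w0 ∈ ({u0, v0, w0} : Finset V) := by simp
      have a3 : f u0 ≠ f w0 := fun e => hne (hf.inj m1 m3 e)
      have b1 := hf.maps _ m1
      have b3 := hf.maps _ m3
      apply hnad
      rw [hf.ad m1 m3]
      simp only [Finset.mem_insert, Finset.mem_singleton] at b1 b3
      rcases b1 with b1 | b1 | b1 <;> rcases b3 with b3 | b3 | b3 <;> rw [b1, b3] at a3 ⊢
      · exact absurd rfl a3
      · exact k1
      · exact k4
      · exact k1.symm
      · exact absurd rfl a3
      · exact k2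
      · exact k4.symm
      · exact k2.symm
      · exact absurd rfl a3
    have hcases : (P.NW u0 v0 ∧ P.NW w0 v0) ∨ (P.NW v0 u0 ∧ P.NW v0 w0) := by
      simp only [Ad, NW] at *; omega
    rcases hcases with ⟨c1, c2⟩ | ⟨c1, c2⟩
    · obtain ⟨J, k1, k2, k3⟩ := star_struct hF hcon hnt c1 c2 hne
      exact ⟨J, k1, k2, Or.inr k3⟩
    · obtain ⟨J, k1, k2, k3⟩ := star_struct (P := P.dual) (dual_few.2 hF) (dual_conn.2 hcon)
        (fun a b c a1 a2 a3 a4 => hnt a b c ((dual_ad _ _).1 a1) ((dual_ad _ _).1 a2) a3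
          ((dual_ad _ _).1 a4)) ((dual_nw _ _).2 c1) ((dual_nw _ _).2 c2) hne
      exact ⟨J, k1, dual_intv.1 k2, Or.inr (dual_chain.1 k3)⟩

theorem struct2 (hF : P.Few 2) (hcon : P.Conn Finset.univ) : P.Clique Finset.univ := by
  intro u _ v _ hne
  exfalso
  obtain ⟨a, -, b, -, -, -, h3⟩ := hcon (fun w => w = u) ⟨u, Finset.mem_univ _, rfl⟩
    ⟨v, Finset.mem_univ _, hne.symm⟩
  obtain ⟨i, j, hij, hj, -⟩ := hF (fun _ => {a, b}) (by
    intro i _
    refine ⟨Finset.card_pair h3.ne, ?_⟩
    apply conn_star (c := a) (by simp)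
    intro w hw hwa
    simp only [Finset.mem_insert, Finset.mem_singleton] at hw
    rcases hw with h | h
    · exact absurd h hwa
    · rw [h]; exact h3)
  omega

theorem card_le_of_sdiff {J : Finset V} {c : ℕ} (h : (Finset.univ \ J).card ≤ c) :
    Fintype.card V ≤ J.card + c := by
  have := Finset.card_sdiff_add_card_eq_card (Finset.subset_univ J)
  rw [Finset.card_univ] at this
  omega

theorem OscM.mono {c c' : ℕ} {M : Finset V} (h : OscM P c M) (hc : c ≤ c') : OscM P c' M :=
  ⟨h.dis, fun v hv => (h.xx v hv).imp (fun h => by omega) (fun h => by omega),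
    fun v hv => (h.yy v hv).imp (fun h => by omega) (fun h => by omega)⟩

end Plot

open Plot

/-- For every `n ≥ 2` the connected plots with few connected `n`-patterns have bounded
descriptions. -/
theorem enc_all (n : ℕ) (hn : 2 ≤ n) : ∃ c, ∀ (m : ℕ) (τ : Equiv.Perm (Fin m)),
    (plt τ).Conn Finset.univ → (plt τ).Few n → Enc c τ := by
  by_cases h2 : n = 2
  · subst h2
    refine ⟨0, fun m τ hcon hF => ?_⟩
    exact enc_intv (J := Finset.univ) (fun v hv => absurd (Finset.mem_univ v) hv) (by simp)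
      (Or.inl (struct2 hF hcon))
  by_cases h3 : n = 3
  · subst h3
    refine ⟨1, fun m τ hcon hF => ?_⟩
    obtain ⟨J, k1, k2, k3⟩ := struct3 hF hcon
    have hb := card_le_of_sdiff k1
    rw [Fintype.card_fin] at hb
    exact enc_intv k2 hb k3
  have hn4 : 4 ≤ n := by omega
  set b1 := 2 * ((n - 2) * (4 * n)) + 2 * ((2 * ((n - 2) * (4 * n))) * (n - 2)) with hb1
  set K := 8 * n with hK
  set b2 := 2 * ((n - 2) * K) + 2 * (((2 * ((n - 2) * K)) * ((4 * n) * K)) * (n - 2)) with hb2
  set Δ := 2 * ((8 * n) * (8 * n)) with hΔ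
  set b3 := 2 * (Δ + 1) ^ (n + 2) + 2 * n + 5 + (Δ + 1) ^ (2 * n + 12) with hb3
  refine ⟨(b1 + b2 + b3) + Δ + 2, fun m τ hcon hF => ?_⟩
  rcases trichotomy hn4 hF hcon with ⟨J, hJ⟩ | ⟨J, hJ⟩ | hdeg
  · have hb := card_le_of_sdiff hJ.bound
    rw [Fintype.card_fin, ← hb1] at hb
    exact enc_intv hJ.iv (by omega) (Or.inl hJ.cl)
  · have hb := card_le_of_sdiff hJ.bound
    rw [Fintype.card_fin] at hb
    have hb' : m ≤ J.card + b2 := hb
    exact enc_intv hJ.iv (by omega) (Or.inr hJ.ch)
  · obtain ⟨M, hM⟩ := osc_main hn4 hF hcon (Δ := Δ) hdeg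
    exact enc_osc (hM.mono (by omega)) hdeg

end Pool.Agent.H175
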