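import Pool.Agent.H175.Mid

/-! Large interval cliques or chains: everything else is bounded. -/

namespace Pool.Agent.H175

open Classical

namespace Plot

variable {V : Type} [Fintype V] {P : Plot V}

noncomputable def sNW (P : Plot V) (J : Finset V) : Finset V :=
  Finset.univ.filter (fun v => ∀ j ∈ J, P.NW v j)
noncomputable def sSE (P : Plot V) (J : Finset V) : Finset V :=
  Finset.univ.filter (fun v => ∀ j ∈ J, P.NW j v)
noncomputable def sNE (P : Plot V) (J : Finset V) : Finset V :=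
  Finset.univ.filter (fun v => ∀ j ∈ J, P.Pr j v)
noncomputable def sSW (P : Plot V) (J : Finset V) : Finset V :=
  Finset.univ.filter (fun v => ∀ j ∈ J, P.Pr v j)

theorem mem_sNW {J : Finset V} {v : V} : v ∈ P.sNW J ↔ ∀ j ∈ J, P.NW v j := by simp [sNW]
theorem mem_sSE {J : Finset V} {v : V} : v ∈ P.sSE J ↔ ∀ j ∈ J, P.NW j v := by simp [sSE]
theorem mem_sNE {J : Finset V} {v : V} : v ∈ P.sNE J ↔ ∀ j ∈ J, P.Pr j v := by simp [sNE]
theorem mem_sSW {J : Finset V} {v : V} : v ∈ P.sSW J ↔ ∀ j ∈ J, P.Pr v j := by simp [sSW]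

theorem swap_sNW {J : Finset V} : P.swap.sNW J = P.sSE J := by
  ext v; simp only [mem_sNW, mem_sSE, swap_nw]
theorem swap_sSE {J : Finset V} : P.swap.sSE J = P.sNW J := by
  ext v; simp only [mem_sNW, mem_sSE, swap_nw]
theorem swap_sNE {J : Finset V} : P.swap.sNE J = P.sNE J := by
  ext v; simp only [mem_sNE, swap_pr]
theorem dual_sNW {J : Finset V} : P.dual.sNW J = P.sSE J := by
  ext v; simp only [mem_sNW, mem_sSE, dual_nw]
theorem dual_sSE {J : Finset V} : P.dual.sSE J = P.sNW J := by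
  ext v; simp only [mem_sNW, mem_sSE, dual_nw]
theorem dual_sNE {J : Finset V} : P.dual.sNE J = P.sSW J := by
  ext v; simp only [mem_sNE, mem_sSW, dual_pr]

theorem side_cover {J : Finset V} (hJ : J.Nonempty) (hI : P.Intv J) (v : V) :
    v ∈ J ∨ v ∈ P.sNW J ∨ v ∈ P.sSE J ∨ v ∈ P.sNE J ∨ v ∈ P.sSW J := by
  by_cases hv : v ∈ J
  · exact Or.inl hv
  right
  obtain ⟨j0, hj0⟩ := hJ
  have hne : ∀ j ∈ J, v ≠ j := by rintro j hj rfl; exact hv hj
  have h1 := fun j hj => hI v hv j0 hj0 j hj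
  have h2 := fun j hj => hI v hv j hj j0 hj0
  rcases tri (P := P) (hne j0 hj0) with h | h | h | h
  · right; right; right
    rw [mem_sSW]; intro j hj
    have := h1 j hj
    simp only [Pr] at *; omega
  · right; right; left
    rw [mem_sNE]; intro j hj
    have := h2 j hj
    have a1 := nex (P := P) (hne j hj)
    have a2 := ney (P := P) (hne j hj)
    simp only [Pr] at *; omega
  · left
    rw [mem_sNW]; intro j hj
    have := h1 j hj
    have := h2 j hj
    have a1 := nex (P := P) (hne j hj)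
    have a2 := ney (P := P) (hne j hj)
    simp only [NW] at *; omega
  · right; left
    rw [mem_sSE]; intro j hj
    have := h1 j hj
    have := h2 j hj
    have a1 := nex (P := P) (hne j hj)
    have a2 := ney (P := P) (hne j hj)
    simp only [NW] at *; omega

omit [Fintype V] in
theorem Intv.union {J M : Finset V} (hJ : P.Intv J) (hM : P.Intv M) {w : V} (hw : w ∈ J)
    (hw' : w ∈ M) : P.Intv (J ∪ M) := by
  intro v hv j hj j' hj'
  simp only [Finset.mem_union, not_or] at hv hj hj'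
  have aux : ∀ k, k ∈ J ∨ k ∈ M →
      ((P.x v < P.x k → P.x v < P.x w) ∧ (P.y v < P.y k → P.y v < P.y w)) ∧
      ((P.x v < P.x w → P.x v < P.x k) ∧ (P.y v < P.y w → P.y v < P.y k)) := by
    rintro k (hk | hk)
    · exact ⟨hJ v hv.1 k hk w hw, hJ v hv.1 w hw k hk⟩
    · exact ⟨hM v hv.2 k hk w hw', hM v hv.2 w hw' k hk⟩
  have h1 := aux j hj
  have h2 := aux j' hj'
  exact ⟨fun h => h2.2.1 (h1.1.1 h), fun h => h2.2.2 (h1.1.2 h)⟩

omit [Fintype V] in
theorem absorb {J A M : Finset V} {k : ℕ} (hA : A ⊆ J) (hM : M ⊆ J) (h : J.card ≤ M.card + k)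
    (hk : k < A.card) : ∃ w, w ∈ A ∧ w ∈ M := by
  by_contra hcon
  push Not at hcon
  have h1 : Disjoint A M := by
    rw [Finset.disjoint_left]; exact hcon
  have h2 := Finset.card_le_card (Finset.union_subset hA hM)
  rw [Finset.card_union_of_disjoint h1] at h2
  omega

theorem comp_ex (P : Plot V) (U : Finset V) (z : V) : ∃ C : Finset V, P.Conn C ∧ z ∈ C ∧
    C ⊆ insert z U ∧ ∀ u ∈ U, ∀ v ∈ C, P.Ad u v → u ∈ C := by
  obtain ⟨C, hC, hmax⟩ := Finset.exists_max_image
    (Finset.univ.filter (fun C : Finset V => P.Conn C ∧ z ∈ C ∧ C ⊆ insert z U)) Finset.card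
    ⟨{z}, by
      simp only [Finset.mem_filter, Finset.mem_univ, true_and]
      exact ⟨conn_singleton z, by simp, by simp⟩⟩
  simp only [Finset.mem_filter, Finset.mem_univ, true_and] at hC hmax
  refine ⟨C, hC.1, hC.2.1, hC.2.2, ?_⟩
  intro u hu v hv huv
  by_contra hcon
  have := hmax (insert u C) ⟨conn_insert hC.1 hv huv.symm, Finset.mem_insert_of_mem hC.2.1, by
    intro w hw
    rcases Finset.mem_insert.1 hw with h | h
    · rw [h]; exact Finset.mem_insert_of_mem hu
    · exact hC.2.2 h⟩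
  rw [Finset.card_insert_of_notMem hcon] at this
  omega

theorem cover1 (hcon : P.Conn Finset.univ) {J : Finset V} (hJ : J.Nonempty) (hI : P.Intv J)
    (C : V → Finset V) (hC1 : ∀ z, z ∈ C z)
    (hC2 : ∀ z, ∀ u ∈ P.sNE J, ∀ v ∈ C z, P.Ad u v → u ∈ C z) :
    P.sNE J ⊆ (P.sNW J ∪ P.sSE J).biUnion C := by
  by_contra hcon'
  rw [Finset.not_subset] at hcon'
  obtain ⟨u0, hu0, hu0'⟩ := hcon'
  obtain ⟨j0, hj0⟩ := hJ
  obtain ⟨u, -, v, -, ⟨h1, h1'⟩, h2, h3⟩ := hcon
    (fun v => v ∈ P.sNE J ∧ v ∉ (P.sNW J ∪ P.sSE J).biUnion C)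
    ⟨u0, Finset.mem_univ _, hu0, hu0'⟩ ⟨j0, Finset.mem_univ _, by
      rintro ⟨h, -⟩
      exact (mem_sNE.1 h j0 hj0).ne rfl⟩
  rcases side_cover ⟨j0, hj0⟩ hI v with h | h | h | h | h
  · exact (mem_sNE.1 h1 v h).nad' h3
  · exact h1' (Finset.mem_biUnion.2 ⟨v, Finset.mem_union_left _ h, hC2 v u h1 v (hC1 v) h3⟩)
  · exact h1' (Finset.mem_biUnion.2 ⟨v, Finset.mem_union_right _ h, hC2 v u h1 v (hC1 v) h3⟩)
  · by_cases h4 : v ∈ (P.sNW J ∪ P.sSE J).biUnion C
    · obtain ⟨z, hz, h5⟩ := Finset.mem_biUnion.1 h4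
      exact h1' (Finset.mem_biUnion.2 ⟨z, hz, hC2 z u h1 v h5 h3⟩)
    · exact h2 ⟨h, h4⟩
  · have a1 := mem_sSW.1 h j0 hj0
    have a2 := mem_sNE.1 h1 j0 hj0
    simp only [Pr, Ad, NW] at *; omega

theorem cover2 (hcon : P.Conn Finset.univ) {J : Finset V} (hJ : J.Nonempty) (hI : P.Intv J)
    (C : V → Finset V) (hC1 : ∀ z, z ∈ C z)
    (hC2 : ∀ z, ∀ u ∈ P.sNE J, ∀ v ∈ C z, P.Ad u v → u ∈ C z) :
    P.sNE J ⊆ ((P.sNW J ∪ P.sSE J).biUnion (fun z => (P.sNE J).filter (fun w => P.Ad z w))).biUnion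
      C := by
  by_contra hcon'
  rw [Finset.not_subset] at hcon'
  obtain ⟨u0, hu0, hu0'⟩ := hcon'
  obtain ⟨j0, hj0⟩ := hJ
  set W := (P.sNW J ∪ P.sSE J).biUnion (fun z => (P.sNE J).filter (fun w => P.Ad z w)) with hW
  obtain ⟨u, -, v, -, ⟨h1, h1'⟩, h2, h3⟩ := hcon
    (fun v => v ∈ P.sNE J ∧ v ∉ W.biUnion C)
    ⟨u0, Finset.mem_univ _, hu0, hu0'⟩ ⟨j0, Finset.mem_univ _, by
      rintro ⟨h, -⟩
      exact (mem_sNE.1 h j0 hj0).ne rfl⟩
  have key : v ∈ P.sNW J ∪ P.sSE J → u ∈ W.biUnion C := by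
    intro hv
    refine Finset.mem_biUnion.2 ⟨u, ?_, hC1 u⟩
    rw [hW, Finset.mem_biUnion]
    exact ⟨v, hv, by simp only [Finset.mem_filter]; exact ⟨h1, h3.symm⟩⟩
  rcases side_cover ⟨j0, hj0⟩ hI v with h | h | h | h | h
  · exact (mem_sNE.1 h1 v h).nad' h3
  · exact h1' (key (Finset.mem_union_left _ h))
  · exact h1' (key (Finset.mem_union_right _ h))
  · by_cases h4 : v ∈ W.biUnion C
    · obtain ⟨z, hz, h5⟩ := Finset.mem_biUnion.1 h4
      exact h1' (Finset.mem_biUnion.2 ⟨z, hz, hC2 z u h1 v h5 h3⟩)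
    · exact h2 ⟨h, h4⟩
  · have a1 := mem_sSW.1 h j0 hj0
    have a2 := mem_sNE.1 h1 j0 hj0
    simp only [Pr, Ad, NW] at *; omega

structure TyI (P : Plot V) (n : ℕ) (J : Finset V) : Prop where
  hn : 4 ≤ n
  few : P.Few n
  con : P.Conn Finset.univ
  cl : P.Clique J
  iv : P.Intv J
  mx : ∀ J', P.Clique J' → P.Intv J' → J'.card ≤ J.card
  big : 4 * n < J.card

theorem TyI.swap {n : ℕ} {J : Finset V} (h : TyI P n J) : TyI P.swap n J :=
  ⟨h.hn, swap_few.2 h.few, swap_conn.2 h.con, swap_clique.2 h.cl, swap_intv.2 h.iv,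
    fun J' h1 h2 => h.mx J' (swap_clique.1 h1) (swap_intv.1 h2), h.big⟩

theorem TyI.dual {n : ℕ} {J : Finset V} (h : TyI P n J) : TyI P.dual n J :=
  ⟨h.hn, dual_few.2 h.few, dual_conn.2 h.con, dual_clique.2 h.cl, dual_intv.2 h.iv,
    fun J' h1 h2 => h.mx J' (dual_clique.1 h1) (dual_intv.1 h2), h.big⟩

theorem TyI.nw {n : ℕ} {J : Finset V} (h : TyI P n J) : (P.sNW J).card ≤ (n - 2) * (4 * n) := by
  have hn := h.hn
  have hbig := h.big
  apply es (P := P)
  · intro C hC hch
    by_contra hcon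
    exact fam_bip hn h.few hch (fun a ha j hj => mem_sNW.1 (hC ha) j hj) (by omega)
      (show n - 1 ≤ J.card by omega)
  · intro Q hQ hcl
    by_contra hcon
    have hJQ : P.Clique (J ∪ Q) := by
      intro u hu v hv hne
      rcases Finset.mem_union.1 hu with h1 | h1 <;> rcases Finset.mem_union.1 hv with h2 | h2
      · exact h.cl u h1 v h2 hne
      · exact (mem_sNW.1 (hQ h2) u h1).ad'
      · exact (mem_sNW.1 (hQ h1) v h2).ad
      · exact hcl u h1 v h2 hne
    obtain ⟨K, M, h1, h2, h3, h4, h5⟩ := ext_clique hn h.few hJQ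
    obtain ⟨w, hw, hw'⟩ := absorb (Finset.union_subset_left h1) h2 h5 h.big
    obtain ⟨q, hq, hq'⟩ := absorb (Finset.union_subset_right h1) h2 h5 (by omega : 4 * n < Q.card)
    have h6 : P.Clique (J ∪ M) := h3.mono (Finset.union_subset (Finset.union_subset_left h1) h2)
    have h7 := h.mx _ h6 (h.iv.union h4 hw hw')
    have h8 : q ∉ J := fun hqJ => (mem_sNW.1 (hQ hq) q hqJ).ne rfl
    have h9 : insert q J ⊆ J ∪ M := by
      intro u hu
      rcases Finset.mem_insert.1 hu with h | h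
      · rw [h]; exact Finset.mem_union_right _ hq'
      · exact Finset.mem_union_left _ h
    have h10 := Finset.card_le_card h9
    rw [Finset.card_insert_of_notMem h8] at h10
    omega

theorem TyI.se {n : ℕ} {J : Finset V} (h : TyI P n J) : (P.sSE J).card ≤ (n - 2) * (4 * n) := by
  have := h.swap.nw
  rwa [swap_sNW] at this

theorem TyI.ne {n : ℕ} {J : Finset V} (h : TyI P n J) :
    (P.sNE J).card ≤ (2 * ((n - 2) * (4 * n))) * (n - 2) := by
  have hn := h.hn
  have hbig := h.big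
  choose C hC1 hC2 hC3 hC4 using comp_ex P (P.sNE J)
  have hJne : J.Nonempty := by rw [← Finset.card_pos]; omega
  have h1 := Finset.card_le_card (cover1 h.con hJne h.iv C hC2 (fun z u hu v hv => hC4 z u hu v hv))
  have h2 := Finset.card_biUnion_le_card_mul (P.sNW J ∪ P.sSE J) C (n - 2) (by
    intro z hz
    by_contra hcon
    refine fam_delta hn h.few (J := J) (Y := C z) (z := z) h.cl (by omega) ?_ (hC1 z) (hC2 z)
      (by omega) ?_
    · intro j hj
      rcases Finset.mem_union.1 hz with h3 | h3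
      · exact (mem_sNW.1 h3 j hj).ad
      · exact (mem_sSE.1 h3 j hj).ad'
    · intro j hj u hu hne
      rcases Finset.mem_insert.1 (hC3 z hu) with h3 | h3
      · exact absurd h3 hne
      · exact mem_sNE.1 h3 j hj)
  have h3 := Finset.card_union_le (P.sNW J) (P.sSE J)
  have h4 := h.nw
  have h5 := h.se
  calc (P.sNE J).card ≤ _ := h1
    _ ≤ _ := h2
    _ ≤ (2 * ((n - 2) * (4 * n))) * (n - 2) := Nat.mul_le_mul_right _ (by omega)

theorem TyI.sw {n : ℕ} {J : Finset V} (h : TyI P n J) :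
    (P.sSW J).card ≤ (2 * ((n - 2) * (4 * n))) * (n - 2) := by
  have := h.dual.ne
  rwa [dual_sNE] at this

theorem compl_card {J : Finset V} (hJ : J.Nonempty) (hI : P.Intv J) :
    (Finset.univ \ J).card ≤ (P.sNW J).card + (P.sSE J).card + (P.sNE J).card +
      (P.sSW J).card := by
  have h1 : Finset.univ \ J ⊆ P.sNW J ∪ (P.sSE J ∪ (P.sNE J ∪ P.sSW J)) := by
    intro v hv
    have hv' : v ∉ J := by simpa using hv
    rcases side_cover hJ hI v with h | h
    · exact absurd h hv'
    · simpa only [Finset.mem_union] using h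
  have h2 := Finset.card_le_card h1
  have h3 := Finset.card_union_le (P.sNW J) (P.sSE J ∪ (P.sNE J ∪ P.sSW J))
  have h4 := Finset.card_union_le (P.sSE J) (P.sNE J ∪ P.sSW J)
  have h5 := Finset.card_union_le (P.sNE J) (P.sSW J)
  omega

theorem TyI.bound {n : ℕ} {J : Finset V} (h : TyI P n J) :
    (Finset.univ \ J).card ≤ 2 * ((n - 2) * (4 * n)) + 2 * ((2 * ((n - 2) * (4 * n))) * (n - 2)) := by
  have hJne : J.Nonempty := by rw [← Finset.card_pos]; have := h.big; omega
  have := compl_card hJne h.iv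
  have h1 := h.nw
  have h2 := h.se
  have h3 := h.ne
  have h4 := h.sw
  omega

structure TyII (P : Plot V) (n K : ℕ) (J : Finset V) : Prop where
  hn : 4 ≤ n
  few : P.Few n
  con : P.Conn Finset.univ
  ch : P.Chain J
  iv : P.Intv J
  mx : ∀ J', P.Chain J' → P.Intv J' → J'.card ≤ J.card
  big : 4 * n < J.card
  noK : ∀ Q, P.Clique Q → Q.card ≤ K

theorem TyII.swap {n K : ℕ} {J : Finset V} (h : TyII P n K J) : TyII P.swap n K J :=
  ⟨h.hn, swap_few.2 h.few, swap_conn.2 h.con, swap_chain.2 h.ch, swap_intv.2 h.iv,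
    fun J' h1 h2 => h.mx J' (swap_chain.1 h1) (swap_intv.1 h2), h.big,
    fun Q hQ => h.noK Q (swap_clique.1 hQ)⟩

theorem TyII.dual {n K : ℕ} {J : Finset V} (h : TyII P n K J) : TyII P.dual n K J :=
  ⟨h.hn, dual_few.2 h.few, dual_conn.2 h.con, dual_chain.2 h.ch, dual_intv.2 h.iv,
    fun J' h1 h2 => h.mx J' (dual_chain.1 h1) (dual_intv.1 h2), h.big,
    fun Q hQ => h.noK Q (dual_clique.1 hQ)⟩

theorem TyII.nw {n K : ℕ} {J : Finset V} (h : TyII P n K J) : (P.sNW J).card ≤ (n - 2) * K := by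
  have hn := h.hn
  have hbig := h.big
  apply es (P := P)
  · intro C hC hch
    by_contra hcon
    exact fam_bip hn h.few hch (fun a ha j hj => mem_sNW.1 (hC ha) j hj) (by omega)
      (show n - 1 ≤ J.card by omega)
  · intro Q _ hcl
    exact h.noK Q hcl

theorem TyII.se {n K : ℕ} {J : Finset V} (h : TyII P n K J) : (P.sSE J).card ≤ (n - 2) * K := by
  have := h.swap.nw
  rwa [swap_sNW] at this

theorem TyII.z1 {n K : ℕ} {J : Finset V} (h : TyII P n K J) {z : V} (hz : z ∈ P.sNW J) :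
    ((P.sNE J).filter (fun w => P.Ad z w)).card ≤ (4 * n) * K := by
  have hn := h.hn
  have hbig := h.big
  have hJne : J.Nonempty := by rw [← Finset.card_pos]; omega
  obtain ⟨j0, hj0⟩ := hJne
  apply es (P := P)
  · intro A hA hch
    by_contra hcon
    have hA' : ∀ a ∈ A, a ∈ P.sNE J ∧ P.NW z a := by
      intro a ha
      have h1 := hA ha
      simp only [Finset.mem_filter] at h1
      refine ⟨h1.1, ?_⟩
      have h2 := mem_sNE.1 h1.1 j0 hj0
      have h3 := mem_sNW.1 hz j0 hj0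
      have h4 := h1.2
      simp only [Ad, NW, Pr] at *; omega
    have hJA : P.Chain (J ∪ A) := by
      intro u hu v hv hne
      rcases Finset.mem_union.1 hu with h1 | h1 <;> rcases Finset.mem_union.1 hv with h2 | h2
      · exact h.ch u h1 v h2 hne
      · left; exact mem_sNE.1 (hA' v h2).1 u h1
      · right; exact mem_sNE.1 (hA' u h1).1 v h2
      · exact hch u h1 v h2 hne
    obtain ⟨L, M, h1, h2, h3, h4, h5⟩ := ext_chain' hn h.few hJA (c := z) (by
      intro j hj
      rcases Finset.mem_union.1 hj with h1 | h1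
      · exact mem_sNW.1 hz j h1
      · exact (hA' j h1).2)
    obtain ⟨w, hw, hw'⟩ := absorb (Finset.union_subset_left h1) h2 h5 h.big
    obtain ⟨q, hq, hq'⟩ := absorb (Finset.union_subset_right h1) h2 h5 (by omega : 4 * n < A.card)
    have h6 : P.Chain (J ∪ M) := h3.mono (Finset.union_subset (Finset.union_subset_left h1) h2)
    have h7 := h.mx _ h6 (h.iv.union h4 hw hw')
    have h8 : q ∉ J := fun hqJ => (mem_sNE.1 (hA' q hq).1 q hqJ).ne rfl
    have h9 : insert q J ⊆ J ∪ M := by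
      intro u hu
      rcases Finset.mem_insert.1 hu with h | h
      · rw [h]; exact Finset.mem_union_right _ hq'
      · exact Finset.mem_union_left _ h
    have h10 := Finset.card_le_card h9
    rw [Finset.card_insert_of_notMem h8] at h10
    omega
  · intro Q _ hcl
    exact h.noK Q hcl

theorem TyII.z2 {n K : ℕ} {J : Finset V} (h : TyII P n K J) {z : V} (hz : z ∈ P.sSE J) :
    ((P.sNE J).filter (fun w => P.Ad z w)).card ≤ (4 * n) * K := by
  have := h.swap.z1 (z := z) (by rwa [swap_sNW])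
  rw [swap_sNE] at this
  have e : (P.sNE J).filter (fun w => P.Ad z w) = (P.sNE J).filter (fun w => P.swap.Ad z w) := by
    ext w; simp only [Finset.mem_filter, swap_ad]
  rw [e]; exact this

theorem TyII.cz {n K : ℕ} {J : Finset V} (h : TyII P n K J) {z z1 : V} (hz : z ∈ P.sNW J)
    {C : Finset V} (hC : C ⊆ P.sNE J) (hz1 : z1 ∈ C) (hcc : P.Conn C) (hzz : P.Ad z z1) :
    C.card ≤ n - 2 := by
  have hn := h.hn
  have hbig := h.big
  have hJne : J.Nonempty := by rw [← Finset.card_pos]; omega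
  obtain ⟨j0, hj0⟩ := hJne
  by_contra hcon
  refine fam_iota hn h.few (J := J) (K := C) h.ch (by omega) (fun j hj => mem_sNW.1 hz j hj) hcc
    hz1 (by omega) hzz ?_ (fun j hj u hu => mem_sNE.1 (hC hu) j hj)
  intro hzC
  have h1 := mem_sNE.1 (hC hzC) j0 hj0
  have h2 := mem_sNW.1 hz j0 hj0
  simp only [Pr, NW] at *; omega

theorem TyII.ne {n K : ℕ} {J : Finset V} (h : TyII P n K J) :
    (P.sNE J).card ≤ ((2 * ((n - 2) * K)) * ((4 * n) * K)) * (n - 2) := by
  have hn := h.hn
  have hbig := h.big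
  choose C hC1 hC2 hC3 hC4 using comp_ex P (P.sNE J)
  have hJne : J.Nonempty := by rw [← Finset.card_pos]; omega
  have h1 := Finset.card_le_card (cover2 h.con hJne h.iv C hC2 (fun z u hu v hv => hC4 z u hu v hv))
  set W := (P.sNW J ∪ P.sSE J).biUnion (fun z => (P.sNE J).filter (fun w => P.Ad z w)) with hW
  have h2 := Finset.card_biUnion_le_card_mul W C (n - 2) (by
    intro z1 hz1
    rw [hW, Finset.mem_biUnion] at hz1
    obtain ⟨z, hz, h3⟩ := hz1
    simp only [Finset.mem_filter] at h3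
    have hsub : C z1 ⊆ P.sNE J := by
      intro u hu
      rcases Finset.mem_insert.1 (hC3 z1 hu) with h4 | h4
      · rw [h4]; exact h3.1
      · exact h4
    rcases Finset.mem_union.1 hz with h4 | h4
    · exact h.cz h4 hsub (hC2 z1) (hC1 z1) h3.2
    · exact h.swap.cz (by rwa [swap_sNW]) (by rwa [swap_sNE]) (hC2 z1) (swap_conn.2 (hC1 z1))
        ((swap_ad _ _).2 h3.2))
  have h2' := Finset.card_biUnion_le_card_mul (P.sNW J ∪ P.sSE J)
    (fun z => (P.sNE J).filter (fun w => P.Ad z w)) ((4 * n) * K) (by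
      intro z hz
      rcases Finset.mem_union.1 hz with h4 | h4
      · exact h.z1 h4
      · exact h.z2 h4)
  have h3 := Finset.card_union_le (P.sNW J) (P.sSE J)
  have h4 := h.nw
  have h5 := h.se
  calc (P.sNE J).card ≤ _ := h1
    _ ≤ _ := h2
    _ ≤ _ := Nat.mul_le_mul_right _ (h2'.trans (Nat.mul_le_mul_right _ (by omega)))

theorem TyII.sw {n K : ℕ} {J : Finset V} (h : TyII P n K J) :
    (P.sSW J).card ≤ ((2 * ((n - 2) * K)) * ((4 * n) * K)) * (n - 2) := by
  have := h.dual.ne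
  rwa [dual_sNE] at this

theorem TyII.bound {n K : ℕ} {J : Finset V} (h : TyII P n K J) :
    (Finset.univ \ J).card ≤ 2 * ((n - 2) * K) +
      2 * (((2 * ((n - 2) * K)) * ((4 * n) * K)) * (n - 2)) := by
  have hJne : J.Nonempty := by rw [← Finset.card_pos]; have := h.big; omega
  have := compl_card hJne h.iv
  have h1 := h.nw
  have h2 := h.se
  have h3 := h.ne
  have h4 := h.sw
  omega

/-- the trichotomy -/
theorem trichotomy {n : ℕ} (hn : 4 ≤ n) (hF : P.Few n) (hcon : P.Conn Finset.univ) :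
    (∃ J, TyI P n J) ∨ (∃ J, TyII P n (8 * n) J) ∨
      (∀ c, (Finset.univ.filter (fun v => P.Ad c v)).card ≤ 2 * ((8 * n) * (8 * n))) := by
  by_cases h1 : ∃ Q, P.Clique Q ∧ 8 * n < Q.card
  · left
    obtain ⟨Q, hQ, hQc⟩ := h1
    obtain ⟨K, M, h1, h2, h3, h4, h5⟩ := ext_clique hn hF hQ
    have h6 := Finset.card_le_card h1
    obtain ⟨J, hJ, hmax⟩ := Finset.exists_max_image
      (Finset.univ.filter (fun J : Finset V => P.Clique J ∧ P.Intv J)) Finset.card
      ⟨M, by simp only [Finset.mem_filter, Finset.mem_univ, true_and]; exact ⟨h3.mono h2, h4⟩⟩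
    simp only [Finset.mem_filter, Finset.mem_univ, true_and] at hJ hmax
    have h7 := hmax M ⟨h3.mono h2, h4⟩
    exact ⟨J, hn, hF, hcon, hJ.1, hJ.2, fun J' a b => hmax J' ⟨a, b⟩, by omega⟩
  · right
    push Not at h1
    by_cases h2 : ∃ M, P.Chain M ∧ P.Intv M ∧ 4 * n < M.card
    · left
      obtain ⟨M, hM1, hM2, hM3⟩ := h2
      obtain ⟨J, hJ, hmax⟩ := Finset.exists_max_image
        (Finset.univ.filter (fun J : Finset V => P.Chain J ∧ P.Intv J)) Finset.card
        ⟨M, by simp only [Finset.mem_filter, Finset.mem_univ, true_and]; exact ⟨hM1, hM2⟩⟩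
      simp only [Finset.mem_filter, Finset.mem_univ, true_and] at hJ hmax
      have h7 := hmax M ⟨hM1, hM2⟩
      exact ⟨J, hn, hF, hcon, hJ.1, hJ.2, fun J' a b => hmax J' ⟨a, b⟩, by omega, h1⟩
    · right
      push Not at h2
      intro c
      have h3 : (Finset.univ.filter (fun v => P.NW c v)).card ≤ (8 * n) * (8 * n) := by
        apply es (P := P)
        · intro C hC hch
          by_contra hcon'
          obtain ⟨K, M, h1, h3, h4, h5, h6⟩ := ext_chain' hn hF hch (c := c) (by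
            intro j hj
            have := hC hj
            simpa using this)
          have := h2 M (h4.mono h3) h5
          have := Finset.card_le_card h1
          omega
        · intro Q _ hcl
          exact h1 Q hcl
      have h4 : (Finset.univ.filter (fun v => P.NW v c)).card ≤ (8 * n) * (8 * n) := by
        apply es (P := P)
        · intro C hC hch
          by_contra hcon'
          obtain ⟨K, M, h1, h3, h4, h5, h6⟩ := ext_chain hn hF hch (c := c) (by
            intro j hj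
            have := hC hj
            simpa using this)
          have := h2 M (h4.mono h3) h5
          have := Finset.card_le_card h1
          omega
        · intro Q _ hcl
          exact h1 Q hcl
      have h5 : Finset.univ.filter (fun v => P.Ad c v) ⊆
          Finset.univ.filter (fun v => P.NW c v) ∪ Finset.univ.filter (fun v => P.NW v c) := by
        intro v hv
        simp only [Finset.mem_filter, Finset.mem_univ, true_and, Finset.mem_union] at hv ⊢
        exact hv
      have h6 := Finset.card_le_card h5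
      have h7 := Finset.card_union_le (Finset.univ.filter (fun v => P.NW c v))
        (Finset.univ.filter (fun v => P.NW v c))
      omega

end Plot

end Pool.Agent.H175
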